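import Pool.Agent.R468.GL.One
import Pool.Agent.R468.LL.Split

/-!
General local limit law, part 4: the decomposition according to the first value at most `Y`.
-/

set_option autoImplicit false

namespace Pool.Agent.R468.GL

open Filter Topology Finset
open Pool.Agent.H499R2.LT
open Pool.Agent.H499R2.ND (Td HD G pos mem_pos)
open Pool.Agent.R468.LL (cen EE EE_pos EE_le_one cen_fst cen_dev tendsto_cen Loc lam lam_eq lam_pos lam_lt exp_sub_le mem_FY)

/-- the integers whose orbit meets `F` -/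
def RR (d : ℤ) (F : Finset ℤ) : Set ℤ := {x : ℤ | ∃ k : ℕ, (Td d)^[k] x ∈ F}

open Classical in
/-- the first time in `F` -/
noncomputable def ht (d : ℤ) (F : Finset ℤ) (x : ℤ) : ℕ :=
  if h : ∃ k : ℕ, (Td d)^[k] x ∈ F then Nat.find h else 0

/-- the number of odd terms before -/
noncomputable def ho (d : ℤ) (F : Finset ℤ) (x : ℤ) : ℤ := od d (ht d F x) x

/-- the statistic -/
noncomputable def st (P : Par) (d : ℤ) (F : Finset ℤ) (x : ℤ) : ℤ := P.α * ho d F x + P.β * ht d F x

theorem ht_spec {d : ℤ} {F : Finset ℤ} {x : ℤ} (h : x ∈ RR d F) :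
    (Td d)^[ht d F x] x ∈ F ∧ ∀ i < ht d F x, (Td d)^[i] x ∉ F := by
  classical
  have h' : ∃ k : ℕ, (Td d)^[k] x ∈ F := h
  unfold ht
  rw [dif_pos h']
  exact ⟨Nat.find_spec h', fun i hi => Nat.find_min h' hi⟩

theorem ht_eq {d : ℤ} {F : Finset ℤ} {x : ℤ} {k : ℕ} (h1 : (Td d)^[k] x ∈ F)
    (h2 : ∀ i < k, (Td d)^[i] x ∉ F) : ht d F x = k := by
  have h : x ∈ RR d F := ⟨k, h1⟩
  obtain ⟨g1, g2⟩ := ht_spec h
  rcases lt_trichotomy (ht d F x) k with h3 | h3 | h3
  · exact absurd g1 (h2 _ h3)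
  · exact h3
  · exact absurd h1 (g2 _ h3)

theorem reach_join {d : ℤ} {F : Finset ℤ} {Y : ℕ} (hF : F ⊆ FY Y) {x g : ℤ} {i : ℕ}
    (h : Hit d (FY Y) g x i) (hg : g ∈ RR d F) :
    x ∈ RR d F ∧ ht d F x = i + ht d F g ∧ ho d F x = od d i x + ho d F g := by
  obtain ⟨g1, g2⟩ := ht_spec hg
  have e : ∀ j : ℕ, (Td d)^[j + i] x = (Td d)^[j] g := by
    intro j
    rw [Function.iterate_add_apply, h.1]
  have h1 : (Td d)^[i + ht d F g] x ∈ F := by
    rw [add_comm, e]; exact g1
  have h2 : ∀ j < i + ht d F g, (Td d)^[j] x ∉ F := by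
    intro j hj
    rcases lt_or_ge j i with h3 | h3
    · exact fun h4 => h.2.2 j h3 (hF h4)
    · have h4 := g2 (j - i) (by omega)
      rwa [← e, Nat.sub_add_cancel h3] at h4
  have h3 := ht_eq h1 h2
  refine ⟨⟨_, h1⟩, h3, ?_⟩
  unfold ho
  rw [h3, od_add, h.1]

theorem reach_split {d : ℤ} {F : Finset ℤ} {Y : ℕ} (hF : F ⊆ FY Y) {x : ℤ} (hx : x ∈ RR d F) :
    ∃ (i : ℕ) (g : ℤ), Hit d (FY Y) g x i ∧ g ∈ RR d F := by
  classical
  obtain ⟨k, hk⟩ := hx
  have hex : ∃ i : ℕ, (Td d)^[i] x ∈ FY Y := ⟨k, hF hk⟩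
  have hle : Nat.find hex ≤ k := Nat.find_min' hex (hF hk)
  refine ⟨Nat.find hex, (Td d)^[Nat.find hex] x, ⟨rfl, Nat.find_spec hex, fun j hj => Nat.find_min hex hj⟩,
    k - Nat.find hex, ?_⟩
  rw [← Function.iterate_add_apply, Nat.sub_add_cancel hle]
  exact hk

theorem step_pos {d : ℤ} {Y : ℕ} (hY : |d| ≤ Y) {z : ℤ} (hz : (Y : ℤ) < z) : 1 ≤ Td d z ∧ (Y : ℤ) < 2 * Td d z + 1 := by
  have h := abs_le.1 hY
  have hY0 : (0 : ℤ) ≤ Y := Int.natCast_nonneg Y
  unfold Td
  split_ifs
  · omega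
  · omega

/-- along a first hit from a positive integer the values are larger than `Y` before -/
theorem hit_big {d : ℤ} {Y : ℕ} (hY : |d| ≤ Y) {x g : ℤ} {i : ℕ} (hx : 1 ≤ x) (h : Hit d (FY Y) g x i) :
    ∀ j < i, (Y : ℤ) < (Td d)^[j] x := by
  intro j
  induction j with
  | zero =>
    intro hj
    have h1 := h.2.2 0 hj
    have e : (Td d)^[0] x = x := rfl
    rw [e] at h1 ⊢
    by_contra hcon
    exact h1 (mem_FY.2 ⟨by omega, by omega⟩)
  | succ j ih =>
    intro hj
    have h1 := ih (by omega)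
    have h2 := (step_pos hY h1).1
    have h3 := h.2.2 (j + 1) hj
    rw [← Function.iterate_succ_apply' (Td d) j x] at h2
    change 1 ≤ (Td d)^[j + 1] x at h2
    by_contra hcon
    exact h3 (mem_FY.2 ⟨by omega, by omega⟩)

theorem hit_pos {d : ℤ} {Y : ℕ} (hY : |d| ≤ Y) {x g : ℤ} {i : ℕ} (hx : 1 ≤ x) (h : Hit d (FY Y) g x i) :
    1 ≤ g := by
  rcases Nat.eq_zero_or_pos i with rfl | h0
  · have : x = g := h.1
    omega
  · obtain ⟨j, rfl⟩ : ∃ j, i = j + 1 := ⟨i - 1, by omega⟩
    have h1 := hit_big hY hx h j (by omega)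
    have h2 := (step_pos hY h1).1
    rw [← Function.iterate_succ_apply' (Td d) j x, h.1] at h2
    exact h2

open Classical in
/-- the elements of `RR` up to `Y` -/
noncomputable def GG (d : ℤ) (F : Finset ℤ) (Y : ℕ) : Finset ℤ := (Icc (1 : ℤ) Y).filter (fun g => g ∈ RR d F)

theorem mem_GG {d : ℤ} {F : Finset ℤ} {Y : ℕ} {g : ℤ} : g ∈ GG d F Y ↔ (1 ≤ g ∧ g ≤ Y) ∧ g ∈ RR d F := by
  classical
  unfold GG
  rw [mem_filter, mem_Icc]

open Classical in
/-- the number of `n ≤ x` which reach `F` with value `j` of the statistic -/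
noncomputable def FC (P : Par) (d : ℤ) (F : Finset ℤ) (x : ℝ) (j : ℤ) : ℝ :=
  (((Icc (1 : ℤ) ⌊x⌋).filter (fun n => n ∈ RR d F ∧ st P d F n = j)).card : ℝ)

open Classical in
/-- the number of `n ≤ x` with first value at most `Y` equal to `g` -/
noncomputable def FG (P : Par) (d : ℤ) (Y : ℕ) (g : ℤ) (x : ℝ) (j : ℤ) : ℝ :=
  (((Icc (1 : ℤ) ⌊x⌋).filter (fun n => ∃ i : ℕ, Hit d (FY Y) g n i ∧ P.α * od d i n + P.β * i = j)).card : ℝ)

/-- the decomposition -/
theorem split_count (P : Par) {d : ℤ} {F : Finset ℤ} {Y : ℕ} (hF : F ⊆ FY Y) (hY : |d| ≤ Y) (x : ℝ) (j : ℤ) :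
    FC P d F x j = ∑ g ∈ GG d F Y, FG P d Y g x (j - st P d F g) := by
  classical
  unfold FC FG
  have h1 : (Icc (1 : ℤ) ⌊x⌋).filter (fun n => n ∈ RR d F ∧ st P d F n = j) =
      (GG d F Y).biUnion (fun g => (Icc (1 : ℤ) ⌊x⌋).filter
        (fun n => ∃ i : ℕ, Hit d (FY Y) g n i ∧ P.α * od d i n + P.β * i = j - st P d F g)) := by
    ext n
    rw [mem_biUnion, mem_filter, mem_Icc]
    constructor
    · rintro ⟨hn, hP, hh⟩
      obtain ⟨i, g, h2, h3⟩ := reach_split hF hP
      refine ⟨g, ?_, ?_⟩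
      · rw [mem_GG]
        have hg := h2.2.1
        rw [mem_FY] at hg
        exact ⟨⟨hit_pos hY hn.1 h2, hg.2⟩, h3⟩
      · rw [mem_filter, mem_Icc]
        refine ⟨hn, i, h2, ?_⟩
        obtain ⟨_, h4, h5⟩ := reach_join hF h2 h3
        rw [← hh]
        unfold st
        rw [h4, h5]
        push_cast
        ring
    · rintro ⟨g, hg, hn⟩
      rw [mem_filter, mem_Icc] at hn
      obtain ⟨hn, i, h2, h3⟩ := hn
      rw [mem_GG] at hg
      obtain ⟨h6, h4, h5⟩ := reach_join hF h2 hg.2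
      refine ⟨hn, h6, ?_⟩
      have h7 : st P d F n = P.α * od d i n + P.β * i + st P d F g := by
        unfold st
        rw [h4, h5]
        push_cast
        ring
      rw [h7, h3]
      ring
  rw [h1, card_biUnion]
  · push_cast; rfl
  · intro g _ g' _ hne
    rw [Function.onFun, Finset.disjoint_left]
    intro n hn hn'
    rw [mem_filter] at hn hn'
    obtain ⟨_, i, h2, _⟩ := hn
    obtain ⟨_, i', h2', _⟩ := hn'
    exact hne (Hit_unique h2 h2').1

theorem od_bd (d : ℤ) (j : ℕ) (x : ℤ) : 0 ≤ od d j x ∧ od d j x ≤ j := by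
  induction j generalizing x with
  | zero => simp [od]
  | succ j ih =>
    obtain ⟨h1, h2⟩ := ih (Td d x)
    rw [od]
    push_cast
    split_ifs <;> constructor <;> omega

theorem SF_iff {d : ℤ} {F : Finset ℤ} {g : ℤ} {i : ℕ} {o x : ℤ} :
    x ∈ SF d F g i o ↔ Hit d F g x i ∧ od d i x = o := C2aux.mem_SF

theorem NN_supp {d : ℤ} {F : Finset ℤ} {g : ℤ} {k : ℕ} {o : ℤ} (h : (k : ℤ) < o) : NN d F g k o = 0 := by
  unfold NN
  have : {x : ℤ | 0 < x ∧ x ∈ SF d F g k o} = ∅ := by
    ext x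
    constructor
    · rintro ⟨_, hx⟩
      have h1 := (SF_iff.1 hx).2
      have h2 := (od_bd d k x).2
      omega
    · intro hx
      exact absurd hx (Set.notMem_empty x)
  rw [this]
  simp

/-- the two-sided estimate -/
theorem FG_bounds (P : Par) {d : ℤ} (hd : Odd d) (hd3 : IsCoprime d 3) {Y : ℕ} {r : ℝ}
    (hr : ∀ (x g : ℤ) (j : ℕ), x ≠ 0 → Hit d (FY Y) g x j →
      g ≠ 0 ∧ |Real.log (x : ℝ) + od d j x * Real.log 3 - j * Real.log 2 - Real.log (g : ℝ)| ≤ r)
    (g a h : ℤ) {x : ℝ} (hx : 1 ≤ x) :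
    (0 ≤ kz P a (-Real.log g + r) (x, h) → 0 ≤ oz P a (-Real.log g + r) (x, h) →
      FG P d Y g x (h - a) ≤ Sl P (NN d (FY Y) g) (qg P a (-Real.log g + r) (x, h))) ∧
    (0 ≤ kz P a (-Real.log g - r) (x, h) →
      Sl P (NN d (FY Y) g) (qg P a (-Real.log g - r) (x, h)) ≤ FG P d Y g x (h - a)) := by
  classical
  have hl2 : 0 < Real.log 2 := Real.log_pos (by norm_num)
  have hw := ww_pos P
  have hx0 : 0 < x := by linarith
  have hb := P.bez
  have hfin : ∀ (i : ℕ) (o : ℤ), {x : ℤ | 0 < x ∧ x ∈ SF d (FY Y) g i o}.Finite :=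
    fun i o => SF_finite hd hd3 (FY Y) g i o
  have hNN : ∀ (i : ℕ) (o : ℤ), NN d (FY Y) g i o = (((hfin i o).toFinset).card : ℝ) := by
    intro i o
    unfold NN
    rw [Set.ncard_eq_toFinset_card _ (hfin i o)]
  constructor
  · intro hk0 ho0
    set c : ℝ := -Real.log g + r with hc
    set t0 : ℤ := ⌈zt P a c (x, h)⌉ with ht0
    have hkz : kz P a c (x, h) = P.k1 * (h - a) - P.α * t0 := rfl
    have hoz : oz P a c (x, h) = P.o1 * (h - a) + P.β * t0 := rfl
    set kk : ℕ := (kz P a c (x, h)).toNat with hkk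
    have hkkZ : (kk : ℤ) = kz P a c (x, h) := Int.toNat_of_nonneg hk0
    have hsub : (Icc (1 : ℤ) ⌊x⌋).filter (fun n => ∃ i : ℕ, Hit d (FY Y) g n i ∧ P.α * od d i n + P.β * i = h - a) ⊆
        ((range (kk + 1)).filter (fun m => P.α * m ≤ kk)).biUnion
          (fun m => (hfin (kk - P.α * m) (oz P a c (x, h) + (P.β * m : ℕ))).toFinset) := by
      intro n hn
      rw [mem_filter, mem_Icc] at hn
      obtain ⟨⟨hn1, hn2⟩, i, h1, h2⟩ := hn
      have hod := od_bd d i n
      set o : ℤ := od d i n with ho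
      set t : ℤ := P.k1 * o - P.o1 * i with ht
      have e1 : (i : ℤ) = P.k1 * (h - a) - P.α * t := by
        rw [← h2, ht]
        linear_combination (-(i : ℤ)) * hb
      have e2 : o = P.o1 * (h - a) + P.β * t := by
        rw [← h2, ht]
        linear_combination (-o) * hb
      have h3 : t0 ≤ t := by
        rw [ht0, Int.ceil_le]
        unfold zt
        rw [div_le_iff₀ hw]
        obtain ⟨_, h3⟩ := hr n g i (by omega) h1
        have h4 := (abs_le.1 h3).1
        have hnR : (1 : ℝ) ≤ n := by exact_mod_cast hn1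
        have hnx : (n : ℝ) ≤ x := by
          have := Int.floor_le x
          have h5 : (n : ℝ) ≤ (⌊x⌋ : ℝ) := by exact_mod_cast hn2
          linarith
        have h6 : Real.log n ≤ Real.log x := Real.log_le_log (by linarith) hnx
        rw [← ho] at h4
        have e1R : (i : ℝ) = P.k1 * (h - a) - P.α * t := by exact_mod_cast e1
        have e2R : (o : ℝ) = P.o1 * (h - a) + P.β * t := by exact_mod_cast e2
        have e3 : (i : ℝ) * Real.log 2 - o * Real.log 3 = ((h : ℝ) - a) * kap P - t * ww P := by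
          rw [e1R, e2R]
          unfold kap ww
          ring
        simp only
        linarith
      obtain ⟨m, hm⟩ : ∃ m : ℕ, t = t0 + m := ⟨(t - t0).toNat, by omega⟩
      have e3 : (i : ℤ) = kk - P.α * m := by
        rw [hkkZ, hkz, e1, hm]; ring
      have e4 : o = oz P a c (x, h) + ((P.β * m : ℕ) : ℤ) := by
        rw [hoz, e2, hm]; push_cast; ring
      have hαm : P.α * m ≤ kk := by
        have : ((P.α * m : ℕ) : ℤ) ≤ kk := by push_cast; omega
        exact_mod_cast this
      have e5 : i = kk - P.α * m := by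
        have : (i : ℤ) = ((kk - P.α * m : ℕ) : ℤ) := by
          rw [Nat.cast_sub hαm]; push_cast; exact e3
        exact_mod_cast this
      have hmk : m ≤ kk := by
        rcases Nat.eq_zero_or_pos P.α with h0 | h0
        · have hβ : 1 ≤ P.β := by have := P.one_le; omega
          have h6 : m ≤ P.β * m := Nat.le_mul_of_pos_left m hβ
          have h7 : (m : ℤ) ≤ ((P.β * m : ℕ) : ℤ) := by exact_mod_cast h6
          have h8 : (i : ℤ) ≤ kk := by rw [e3, h0]; simp
          omega
        · have h6 : m ≤ P.α * m := Nat.le_mul_of_pos_left m h0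
          omega
      rw [mem_biUnion]
      refine ⟨m, ?_, ?_⟩
      · rw [mem_filter, mem_range]
        exact ⟨by omega, hαm⟩
      · rw [Set.Finite.mem_toFinset]
        refine ⟨by omega, SF_iff.2 ⟨?_, ?_⟩⟩
        · rw [← e5]; exact h1
        · rw [← e5, ← e4]
    unfold FG Sl
    calc _ ≤ ((((range (kk + 1)).filter (fun m => P.α * m ≤ kk)).biUnion
          (fun m => (hfin (kk - P.α * m) (oz P a c (x, h) + (P.β * m : ℕ))).toFinset)).card : ℝ) := by
          exact_mod_cast card_le_card hsub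
      _ ≤ ((∑ m ∈ (range (kk + 1)).filter (fun m => P.α * m ≤ kk),
          ((hfin (kk - P.α * m) (oz P a c (x, h) + (P.β * m : ℕ))).toFinset).card : ℕ) : ℝ) := by
          exact_mod_cast card_biUnion_le
      _ = _ := by
        push_cast
        rw [sum_filter]
        apply sum_congr rfl
        intro m _
        change _ = if P.α * m ≤ kk then NN d (FY Y) g (kk - P.α * m) (oz P a c (x, h) + (P.β * m : ℕ)) else 0
        split_ifs
        · rw [hNN]
        · rfl
  · intro hk0
    set c : ℝ := -Real.log g - r with hc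
    set t0 : ℤ := ⌈zt P a c (x, h)⌉ with ht0
    have hkz : kz P a c (x, h) = P.k1 * (h - a) - P.α * t0 := rfl
    have hoz : oz P a c (x, h) = P.o1 * (h - a) + P.β * t0 := rfl
    set kk : ℕ := (kz P a c (x, h)).toNat with hkk
    have hkkZ : (kk : ℤ) = kz P a c (x, h) := Int.toNat_of_nonneg hk0
    have hsub : ((range (kk + 1)).filter (fun m => P.α * m ≤ kk)).biUnion
          (fun m => (hfin (kk - P.α * m) (oz P a c (x, h) + (P.β * m : ℕ))).toFinset) ⊆
        (Icc (1 : ℤ) ⌊x⌋).filter (fun n => ∃ i : ℕ, Hit d (FY Y) g n i ∧ P.α * od d i n + P.β * i = h - a) := by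
      intro n hn
      rw [mem_biUnion] at hn
      obtain ⟨m, hm, hn⟩ := hn
      rw [mem_filter, mem_range] at hm
      rw [Set.Finite.mem_toFinset] at hn
      obtain ⟨hn0, hn⟩ := hn
      obtain ⟨h1, h2⟩ := SF_iff.1 hn
      rw [mem_filter, mem_Icc]
      have e1 : (((kk - P.α * m : ℕ) : ℤ)) = P.k1 * (h - a) - P.α * (t0 + m) := by
        rw [Nat.cast_sub hm.2, hkkZ, hkz]; push_cast; ring
      have e2 : oz P a c (x, h) + ((P.β * m : ℕ) : ℤ) = P.o1 * (h - a) + P.β * (t0 + m) := by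
        rw [hoz]; push_cast; ring
      refine ⟨⟨by omega, ?_⟩, kk - P.α * m, h1, ?_⟩
      · obtain ⟨_, h3⟩ := hr n g _ (by omega) h1
        have h4 := (abs_le.1 h3).2
        rw [h2, e2] at h4
        have e1R : (((kk - P.α * m : ℕ)) : ℝ) = P.k1 * (h - a) - P.α * (t0 + m) := by exact_mod_cast e1
        rw [e1R] at h4
        push_cast at h4
        have h5 : ((h : ℝ) - a) * kap P - Real.log x - c ≤ (t0 : ℝ) * ww P := by
          have h6 : zt P a c (x, h) ≤ t0 := Int.le_ceil _
          have h7 := mul_le_mul_of_nonneg_right h6 hw.le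
          have h8 : zt P a c (x, h) * ww P = ((h : ℝ) - a) * kap P - Real.log x - c := by
            unfold zt
            simp only
            field_simp
          linarith
        have h6 : (0 : ℝ) ≤ m * ww P := by positivity
        have e3 : ((P.k1 : ℝ) * (h - a) - P.α * (t0 + m)) * Real.log 2 - (P.o1 * (h - a) + P.β * (t0 + m)) * Real.log 3 =
            ((h : ℝ) - a) * kap P - (t0 + m) * ww P := by
          unfold kap ww
          ring
        have hnR : (0 : ℝ) < n := by exact_mod_cast hn0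
        have h7 : Real.log n ≤ Real.log x := by linarith
        rw [Int.le_floor]
        exact (Real.log_le_log_iff hnR hx0).1 h7
      · rw [h2, e2, e1]
        linear_combination (h - a) * hb
    unfold FG Sl
    have hdisj : ∀ m ∈ (range (kk + 1)).filter (fun m => P.α * m ≤ kk),
        ∀ m' ∈ (range (kk + 1)).filter (fun m => P.α * m ≤ kk), m ≠ m' →
        Disjoint ((hfin (kk - P.α * m) (oz P a c (x, h) + (P.β * m : ℕ))).toFinset)
          ((hfin (kk - P.α * m') (oz P a c (x, h) + (P.β * m' : ℕ))).toFinset) := by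
      intro m hm m' hm' hne
      rw [mem_filter] at hm hm'
      rw [Finset.disjoint_left]
      intro n hn hn'
      rw [Set.Finite.mem_toFinset] at hn hn'
      obtain ⟨a1, a2⟩ := SF_iff.1 hn.2
      obtain ⟨b1, b2⟩ := SF_iff.1 hn'.2
      have h1 := (Hit_unique a1 b1).2
      rw [h1, b2] at a2
      have h2 : P.α * m = P.α * m' := by omega
      have h3 : P.β * m = P.β * m' := by omega
      rcases Nat.eq_zero_or_pos P.α with h0 | h0
      · have hβ : 0 < P.β := by have := P.one_le; omega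
        exact hne (Nat.eq_of_mul_eq_mul_left hβ h3)
      · exact hne (Nat.eq_of_mul_eq_mul_left h0 h2)
    calc _ = ((∑ m ∈ (range (kk + 1)).filter (fun m => P.α * m ≤ kk),
          ((hfin (kk - P.α * m) (oz P a c (x, h) + (P.β * m : ℕ))).toFinset).card : ℕ) : ℝ) := by
            push_cast
            rw [sum_filter]
            apply sum_congr rfl
            intro m _
            change (if P.α * m ≤ kk then NN d (FY Y) g (kk - P.α * m) (oz P a c (x, h) + (P.β * m : ℕ)) else 0) = _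
            split_ifs
            · rw [hNN]
            · rfl
      _ = ((((range (kk + 1)).filter (fun m => P.α * m ≤ kk)).biUnion
          (fun m => (hfin (kk - P.α * m) (oz P a c (x, h) + (P.β * m : ℕ))).toFinset)).card : ℝ) := by
            rw [card_biUnion hdisj]
      _ ≤ _ := by exact_mod_cast card_le_card hsub

end Pool.Agent.R468.GL
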