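import Pool.Agent.R344.TH.F

/-!
General local limit law, part 6: the integers whose orbit is not halved in a short time are rare.
-/

set_option autoImplicit false

namespace Pool.Agent.R468.GL

open Filter Topology Finset
open Pool.Agent.H499R2.CO (Tz)
open Pool.Agent.R344.SP (Wn mem_Wn)
open Pool.Agent.R344.TH (fA mem_fA growth_two od_large)

/-- the time allowed -/
def tt (g : ℤ) : ℕ := Nat.sqrt (Nat.log 2 g.toNat)

/-- the elements not halved in time -/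
def Slow (d : ℤ) : Set ℤ := {g : ℤ | ∀ i ≤ tt g, (g : ℝ) / 2 < (((Tz d)^[i] g : ℤ) : ℝ)}

theorem key_J {a : ℝ} (ha : 0 < a) : ∃ J0 : ℕ, ∀ J : ℕ, J0 ≤ J →
    2 * ((J : ℝ) + 1) * 2 ^ (J / 2) + 4 * (2 : ℝ) ^ J * Real.exp (-(a * (Nat.sqrt (J / 2) : ℝ))) ≤
      2 ^ J * Real.exp (-((J : ℝ) + 1) ^ (1 / 4 : ℝ)) := by
  have hs : Tendsto (fun J : ℕ => ((J : ℝ) + 1) ^ (1 / 4 : ℝ)) atTop atTop :=
    (tendsto_rpow_atTop (by norm_num)).comp (tendsto_atTop_add_const_right _ _ tendsto_natCast_atTop_atTop)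
  obtain ⟨J0, hJ0⟩ := eventually_atTop.1 ((hs.eventually (eventually_ge_atTop (max 3 (2 / a * (1 + a + 3))))).and
    (eventually_ge_atTop 3))
  refine ⟨J0, fun J hJ => ?_⟩
  obtain ⟨h1, h2⟩ := hJ0 J hJ
  set s : ℝ := ((J : ℝ) + 1) ^ (1 / 4 : ℝ) with hsdef
  have hs3 : 3 ≤ s := (le_max_left _ _).trans h1
  have hsa : 2 / a * (1 + a + 3) ≤ s := (le_max_right _ _).trans h1
  have hJ0' : (0 : ℝ) ≤ J := Nat.cast_nonneg J
  have hJ3 : (3 : ℝ) ≤ J := by exact_mod_cast h2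
  have hs4 : s ^ 4 = (J : ℝ) + 1 := by
    rw [hsdef, ← Real.rpow_natCast, ← Real.rpow_mul (by linarith)]
    norm_num
  have hl2 := Real.log_two_gt_d9
  have hl2' := Real.log_two_lt_d9
  -- first term
  have p1 : 2 * ((J : ℝ) + 1) * 2 ^ (J / 2) ≤ 2 ^ J * (Real.exp (-s) / 2) := by
    have q1 : (2 : ℝ) ^ (J / 2) ≤ Real.exp (J / 2 * Real.log 2) := by
      rw [mul_comm, Real.exp_mul, Real.exp_log (by norm_num), ← Real.rpow_natCast]
      apply Real.rpow_le_rpow_of_exponent_le (by norm_num)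
      exact Nat.cast_div_le
    have q2 : (2 : ℝ) ^ J = Real.exp (J * Real.log 2) := by
      rw [mul_comm, Real.exp_mul, Real.exp_log (by norm_num), Real.rpow_natCast]
    have q3 : (J : ℝ) + 1 ≤ Real.exp (4 * (s - 1)) := by
      rw [← hs4]
      have : s ≤ Real.exp (s - 1) := by linarith [Real.add_one_le_exp (s - 1)]
      calc s ^ 4 ≤ (Real.exp (s - 1)) ^ 4 := pow_le_pow_left₀ (by linarith) this 4
        _ = Real.exp (4 * (s - 1)) := by rw [← Real.exp_nat_mul]; norm_num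
    have q4 : (4 : ℝ) ≤ Real.exp 4 := by linarith [Real.add_one_le_exp (4 : ℝ)]
    have q5 : Real.exp 4 * Real.exp (4 * (s - 1)) * Real.exp (J / 2 * Real.log 2) * Real.exp s ≤
        Real.exp (J * Real.log 2) := by
      rw [← Real.exp_add, ← Real.exp_add, ← Real.exp_add]
      apply Real.exp_le_exp.2
      have q6 : (J : ℝ) = s ^ 4 - 1 := by rw [hs4]; ring
      have q7 : 27 * s ≤ s ^ 4 := by
        have : (27 : ℝ) ≤ s ^ 3 := by
          calc (27 : ℝ) = 3 ^ 3 := by norm_num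
            _ ≤ s ^ 3 := pow_le_pow_left₀ (by norm_num) hs3 3
        calc 27 * s ≤ s ^ 3 * s := mul_le_mul_of_nonneg_right this (by linarith)
          _ = s ^ 4 := by ring
      have q8 : 27 * s - 1 ≤ (J : ℝ) := by linarith
      nlinarith
    have hE := Real.exp_pos s
    have e1 : Real.exp (-s) = 1 / Real.exp s := by rw [Real.exp_neg, one_div]
    rw [e1, q2]
    have q9 : 4 * ((J : ℝ) + 1) * 2 ^ (J / 2) * Real.exp s ≤ Real.exp (J * Real.log 2) := by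
      refine le_trans ?_ q5
      apply mul_le_mul_of_nonneg_right _ hE.le
      apply mul_le_mul _ q1 (by positivity) (by positivity)
      exact mul_le_mul q4 q3 (by positivity) (by positivity)
    have : 2 * ((J : ℝ) + 1) * 2 ^ (J / 2) * (2 * Real.exp s) ≤ Real.exp (J * Real.log 2) := by linarith
    rw [show Real.exp (J * Real.log 2) * (1 / Real.exp s / 2) = Real.exp (J * Real.log 2) / (2 * Real.exp s) by
      field_simp, le_div_iff₀ (by positivity)]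
    exact this
  -- second term
  have p2 : 4 * (2 : ℝ) ^ J * Real.exp (-(a * (Nat.sqrt (J / 2) : ℝ))) ≤ 2 ^ J * (Real.exp (-s) / 2) := by
    have r1 : s ^ 2 / 2 - 1 ≤ (Nat.sqrt (J / 2) : ℝ) := by
      have r2 : J / 2 < (Nat.sqrt (J / 2) + 1) * (Nat.sqrt (J / 2) + 1) := Nat.lt_succ_sqrt _
      have r3 : ((J / 2 : ℕ) : ℝ) < ((Nat.sqrt (J / 2) : ℝ) + 1) * ((Nat.sqrt (J / 2) : ℝ) + 1) := by
        exact_mod_cast r2
      have r4 : ((J : ℝ) - 1) / 2 ≤ ((J / 2 : ℕ) : ℝ) := by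
        have : J ≤ 2 * (J / 2) + 1 := by omega
        have : (J : ℝ) ≤ 2 * ((J / 2 : ℕ) : ℝ) + 1 := by exact_mod_cast this
        linarith
      have r5 : (s ^ 2 / 2) ^ 2 ≤ ((J : ℝ) - 1) / 2 := by
        have : (s ^ 2 / 2) ^ 2 = s ^ 4 / 4 := by ring
        rw [this, hs4]; linarith
      have r6 : (s ^ 2 / 2) ^ 2 ≤ ((Nat.sqrt (J / 2) : ℝ) + 1) ^ 2 := by nlinarith
      have r7 := abs_le_of_sq_le_sq' r6 (by positivity)
      linarith [r7.2]
    have r8 : a * (s ^ 2 / 2 - 1) ≤ a * (Nat.sqrt (J / 2) : ℝ) := mul_le_mul_of_nonneg_left r1 ha.le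
    have r9 : s + 3 ≤ a * (s ^ 2 / 2 - 1) := by
      have h5 : (1 + a + 3) ≤ a * s / 2 := by
        have : 2 / a * (1 + a + 3) * (a / 2) ≤ s * (a / 2) := mul_le_mul_of_nonneg_right hsa (by positivity)
        have e : 2 / a * (1 + a + 3) * (a / 2) = 1 + a + 3 := by field_simp
        rw [e] at this
        linarith
      have h6 : (1 + a + 3) * s ≤ a * s / 2 * s := mul_le_mul_of_nonneg_right h5 (by linarith)
      nlinarith
    have r10 : Real.exp (-(a * (Nat.sqrt (J / 2) : ℝ))) ≤ Real.exp (-s) * Real.exp (-3) := by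
      rw [← Real.exp_add]
      apply Real.exp_le_exp.2
      linarith
    have r11 : Real.exp (-3) ≤ 1 / 8 := by
      have h7 : (8 : ℝ) ≤ Real.exp 3 := by
        have h8 : Real.exp 3 = Real.exp 1 ^ 3 := by rw [← Real.exp_nat_mul]; norm_num
        rw [h8]
        have := Real.exp_one_gt_d9
        calc (8 : ℝ) = 2 ^ 3 := by norm_num
          _ ≤ Real.exp 1 ^ 3 := pow_le_pow_left₀ (by norm_num) (by linarith) 3
      rw [Real.exp_neg, ← one_div]
      exact one_div_le_one_div_of_le (by norm_num) h7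
    have hE := Real.exp_pos (-s)
    have h2J : (0 : ℝ) < 2 ^ J := by positivity
    calc 4 * (2 : ℝ) ^ J * Real.exp (-(a * (Nat.sqrt (J / 2) : ℝ)))
        ≤ 4 * 2 ^ J * (Real.exp (-s) * (1 / 8)) := by
          apply mul_le_mul_of_nonneg_left _ (by positivity)
          exact r10.trans (mul_le_mul_of_nonneg_left r11 hE.le)
      _ = 2 ^ J * (Real.exp (-s) / 2) := by ring
  calc _ ≤ 2 ^ J * (Real.exp (-s) / 2) + 2 ^ J * (Real.exp (-s) / 2) := add_le_add p1 p2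
    _ = 2 ^ J * Real.exp (-s) := by ring

open scoped Classical in
theorem slow_count {d : ℤ} (hd : d % 2 = 1) : ∃ Y0 : ℝ, 1 ≤ Y0 ∧ ∀ Y : ℝ, Y0 ≤ Y → ∀ X : ℝ, Y ≤ X →
    ((fA (Slow d) Y X).card : ℝ) ≤ X * Real.exp (-(Real.log X) ^ (2 * (1 / 8 : ℝ))) := by
  obtain ⟨ρ, hρ0, hρ1, hcount⟩ := od_large hd (c₁ := 3 / 5) (by norm_num)
  set a : ℝ := -Real.log ρ with ha
  have ha0 : 0 < a := by have := Real.log_neg hρ0 hρ1; linarith
  obtain ⟨J0, hJ0⟩ := key_J ha0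
  set Y0 : ℝ := max (2 ^ (J0 + 1)) (max (2 ^ (43 ^ 2)) (((2 * |d| + 2 : ℤ) : ℝ) ^ 2)) with hY0
  have hY01 : (2 : ℝ) ^ (J0 + 1) ≤ Y0 := le_max_left _ _
  have hY02 : (2 : ℝ) ^ (43 ^ 2) ≤ Y0 := (le_max_left _ _).trans (le_max_right _ _)
  have hY03 : (((2 * |d| + 2 : ℤ) : ℝ) ^ 2) ≤ Y0 := (le_max_right _ _).trans (le_max_right _ _)
  refine ⟨Y0, le_trans (one_le_pow₀ (by norm_num)) hY01, ?_⟩
  intro Y hY X hX
  have hXY : Y0 ≤ X := hY.trans hX
  have hX1 : 1 ≤ X := le_trans (le_trans (one_le_pow₀ (by norm_num)) hY01) hXY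
  have hX0 : 0 < X := by linarith
  set J : ℕ := Nat.log 2 ⌊X⌋₊ with hJ
  have hfl : 1 ≤ ⌊X⌋₊ := by rw [Nat.one_le_floor_iff]; exact hX1
  have hJX : (2 : ℝ) ^ J ≤ X := by
    have h1 : 2 ^ J ≤ ⌊X⌋₊ := Nat.pow_log_le_self 2 (by omega)
    have h2 : ((2 : ℝ) ^ J) ≤ (⌊X⌋₊ : ℝ) := by exact_mod_cast h1
    exact h2.trans (Nat.floor_le hX0.le)
  have hXJ : X < (2 : ℝ) ^ (J + 1) := by
    have h1 : ⌊X⌋₊ < 2 ^ (J + 1) := Nat.lt_pow_succ_log_self (by norm_num) _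
    have h2 : ((⌊X⌋₊ + 1 : ℕ) : ℝ) ≤ 2 ^ (J + 1) := by exact_mod_cast h1
    have h3 := Nat.lt_floor_add_one X
    push_cast at h2
    linarith
  have hJJ0 : J0 ≤ J := by
    have h1 : (2 : ℝ) ^ (J0 + 1) < 2 ^ (J + 1) := (hY01.trans hXY).trans_lt hXJ
    have h2 := (pow_lt_pow_iff_right₀ (by norm_num : (1 : ℝ) < 2)).1 h1
    omega
  -- the covering
  have hcov : fA (Slow d) Y X ⊆ (range (J + 1)).biUnion (fun j => (Wn ((2 : ℝ) ^ j)).filter
      (fun n => (3 / 5 : ℝ) * (Nat.sqrt j : ℕ) ≤ (Pool.Agent.R344.SP.od d (Nat.sqrt j) n : ℝ))) := by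
    intro g hg
    rw [mem_fA] at hg
    obtain ⟨⟨hg1, hg2⟩, hg3⟩ := hg
    have hgR : (1 : ℝ) ≤ g := le_trans (le_trans (le_trans (one_le_pow₀ (by norm_num)) hY01) hY) hg1
    have hg0 : 0 < g := by
      have : (0 : ℝ) < g := by linarith
      exact_mod_cast this
    have hgn : ((g.toNat : ℕ) : ℤ) = g := Int.toNat_of_nonneg hg0.le
    have hgnR : ((g.toNat : ℕ) : ℝ) = g := by exact_mod_cast hgn
    set j : ℕ := Nat.log 2 g.toNat with hj
    have hj1 : (2 : ℝ) ^ j ≤ g := by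
      have h1 : 2 ^ j ≤ g.toNat := Nat.pow_log_le_self 2 (by omega)
      rw [← hgnR]
      exact_mod_cast h1
    have hj2 : (g : ℝ) < 2 ^ (j + 1) := by
      have h1 : g.toNat < 2 ^ (j + 1) := Nat.lt_pow_succ_log_self (by norm_num) _
      rw [← hgnR]
      exact_mod_cast h1
    have hjJ : j ≤ J := by
      have h1 : (2 : ℝ) ^ j < 2 ^ (J + 1) := (hj1.trans hg2).trans_lt hXJ
      have h2 := (pow_lt_pow_iff_right₀ (by norm_num : (1 : ℝ) < 2)).1 h1
      omega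
    rw [mem_biUnion]
    refine ⟨j, mem_range.2 (by omega), ?_⟩
    rw [mem_filter, mem_Wn]
    refine ⟨⟨hj1, by rw [pow_succ] at hj2; linarith⟩, ?_⟩
    by_contra hcon
    push Not at hcon
    set t : ℕ := Nat.sqrt j with ht
    have htt : tt g = t := rfl
    have hj43 : 43 ^ 2 ≤ j := by
      have h1 : (2 : ℝ) ^ (43 ^ 2) < 2 ^ (j + 1) := ((hY02.trans hY).trans hg1).trans_lt hj2
      have h2 := (pow_lt_pow_iff_right₀ (by norm_num : (1 : ℝ) < 2)).1 h1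
      omega
    have ht42 : 42 ≤ t := by
      rw [ht, Nat.le_sqrt]
      omega
    have htR : (42 : ℝ) ≤ t := by exact_mod_cast ht42
    have htj : t * t ≤ j := Nat.sqrt_le j
    -- `t |d| ≤ g / 2`
    have hdz : (t : ℝ) * |(d : ℝ)| ≤ g / 2 := by
      have h1 : (2 * |(d : ℝ)| + 2) ^ 2 ≤ g := by
        have h2 : (((2 * |d| + 2 : ℤ) : ℝ) ^ 2) ≤ g := (hY03.trans hY).trans hg1
        push_cast at h2
        exact h2
      have h3 : (t : ℝ) ^ 2 ≤ g := by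
        have h4 : ((t * t : ℕ) : ℝ) ≤ j := by exact_mod_cast htj
        have h5 : (j : ℝ) ≤ 2 ^ j := by
          have : j < 2 ^ j := Nat.lt_two_pow_self
          exact_mod_cast this.le
        push_cast at h4
        nlinarith
      have hd0 := abs_nonneg (d : ℝ)
      have h6 : (2 * ((t : ℝ) * |(d : ℝ)|)) ^ 2 ≤ (g : ℝ) ^ 2 := by
        have h7 : (2 * |(d : ℝ)|) ^ 2 ≤ g := by nlinarith
        calc (2 * ((t : ℝ) * |(d : ℝ)|)) ^ 2 = (t : ℝ) ^ 2 * (2 * |(d : ℝ)|) ^ 2 := by ring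
          _ ≤ (g : ℝ) * (g : ℝ) := mul_le_mul h3 h7 (by positivity) (by linarith)
          _ = (g : ℝ) ^ 2 := by ring
      have h8 := (abs_le_of_sq_le_sq' h6 (by linarith)).2
      linarith
    have hgr := growth_two hd (z := (g : ℝ) / 2) (by linarith) hdz hg0 (fun i hi => (hg3 i (by rw [htt]; omega)).le)
    have hlast := hg3 t (by rw [htt])
    -- size
    have hl3 := Real.log_three_lt_d9
    have hl2 := Real.log_two_gt_d9
    have hl2' := Real.log_two_lt_d9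
    have h9 : (3 : ℝ) ^ (Pool.Agent.R344.SP.od d t g) * 4 ≤ 2 ^ t := by
      have e1 : (3 : ℝ) ^ (Pool.Agent.R344.SP.od d t g) = Real.exp (Pool.Agent.R344.SP.od d t g * Real.log 3) := by
        rw [mul_comm, Real.exp_mul, Real.exp_log (by norm_num), Real.rpow_natCast]
      have e2 : (2 : ℝ) ^ t = Real.exp (t * Real.log 2) := by
        rw [mul_comm, Real.exp_mul, Real.exp_log (by norm_num), Real.rpow_natCast]
      have e3 : (4 : ℝ) = Real.exp (2 * Real.log 2) := by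
        rw [mul_comm, Real.exp_mul, Real.exp_log (by norm_num)]; norm_num
      rw [e1, e2, e3, ← Real.exp_add]
      apply Real.exp_le_exp.2
      have h10 : (Pool.Agent.R344.SP.od d t g : ℝ) * Real.log 3 ≤ 3 / 5 * t * Real.log 3 :=
        mul_le_mul_of_nonneg_right hcon.le (by linarith [Real.log_three_gt_d9])
      nlinarith
    have h2t : (0 : ℝ) < 2 ^ t := by positivity
    nlinarith
  -- the count
  have hsum : ((fA (Slow d) Y X).card : ℝ) ≤
      ∑ j ∈ range (J + 1), 2 * ((2 : ℝ) ^ (J / 2) + 2 ^ j * Real.exp (-(a * (Nat.sqrt (J / 2) : ℝ)))) := by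
    have h1 := (card_le_card hcov).trans card_biUnion_le
    have h2 : ((fA (Slow d) Y X).card : ℝ) ≤ ∑ j ∈ range (J + 1), (((Wn ((2 : ℝ) ^ j)).filter
      (fun n => (3 / 5 : ℝ) * (Nat.sqrt j : ℕ) ≤ (Pool.Agent.R344.SP.od d (Nat.sqrt j) n : ℝ))).card : ℝ) := by
      exact_mod_cast h1
    refine h2.trans (sum_le_sum fun j _ => ?_)
    refine (hcount (Nat.sqrt j) ((2 : ℝ) ^ j) (by positivity)).trans ?_
    have h3 : (2 : ℝ) ^ Nat.sqrt j ≤ 2 ^ j := pow_le_pow_right₀ (by norm_num) (Nat.sqrt_le_self j)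
    have h4 : ρ ^ Nat.sqrt j = Real.exp (-(a * (Nat.sqrt j : ℝ))) := by
      rw [ha, ← Real.rpow_natCast, Real.rpow_def_of_pos hρ0]
      congr 1; ring
    have h5 : 0 < ρ ^ Nat.sqrt j := by positivity
    have h6 : ρ ^ Nat.sqrt j ≤ 1 := pow_le_one₀ hρ0.le hρ1.le
    have h2j : (0 : ℝ) < 2 ^ j := by positivity
    have h7 : ((2 : ℝ) ^ j + 2 ^ Nat.sqrt j) * ρ ^ Nat.sqrt j ≤ 2 * (2 ^ j * ρ ^ Nat.sqrt j) := by nlinarith
    refine h7.trans ?_
    apply mul_le_mul_of_nonneg_left _ (by norm_num)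
    rcases le_or_gt j (J / 2) with h8 | h8
    · have h9 : (2 : ℝ) ^ j ≤ 2 ^ (J / 2) := pow_le_pow_right₀ (by norm_num) h8
      have h10 : (2 : ℝ) ^ j * ρ ^ Nat.sqrt j ≤ 2 ^ j * 1 := mul_le_mul_of_nonneg_left h6 h2j.le
      have h11 : 0 ≤ (2 : ℝ) ^ j * Real.exp (-(a * (Nat.sqrt (J / 2) : ℝ))) := by positivity
      linarith
    · have h9 : Nat.sqrt (J / 2) ≤ Nat.sqrt j := Nat.sqrt_le_sqrt h8.le
      have h10 : ρ ^ Nat.sqrt j ≤ Real.exp (-(a * (Nat.sqrt (J / 2) : ℝ))) := by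
        rw [h4]
        apply Real.exp_le_exp.2
        have : (Nat.sqrt (J / 2) : ℝ) ≤ Nat.sqrt j := by exact_mod_cast h9
        nlinarith
      have h11 : (2 : ℝ) ^ j * ρ ^ Nat.sqrt j ≤ 2 ^ j * Real.exp (-(a * (Nat.sqrt (J / 2) : ℝ))) :=
        mul_le_mul_of_nonneg_left h10 h2j.le
      have h12 : (0 : ℝ) ≤ 2 ^ (J / 2) := by positivity
      linarith
  have hgeo : ∑ j ∈ range (J + 1), 2 * ((2 : ℝ) ^ (J / 2) + 2 ^ j * Real.exp (-(a * (Nat.sqrt (J / 2) : ℝ)))) ≤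
      2 * ((J : ℝ) + 1) * 2 ^ (J / 2) + 4 * (2 : ℝ) ^ J * Real.exp (-(a * (Nat.sqrt (J / 2) : ℝ))) := by
    rw [← mul_sum, sum_add_distrib, sum_const, card_range, nsmul_eq_mul, ← sum_mul]
    have h1 : ∑ j ∈ range (J + 1), (2 : ℝ) ^ j ≤ 2 ^ (J + 1) := by
      rw [geom_sum_eq (by norm_num)]
      have : (0 : ℝ) < 2 ^ (J + 1) := by positivity
      rw [div_le_iff₀ (by norm_num)]
      linarith
    have hE := Real.exp_pos (-(a * (Nat.sqrt (J / 2) : ℝ)))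
    have h2 := mul_le_mul_of_nonneg_right h1 hE.le
    rw [pow_succ] at h2
    push_cast
    nlinarith
  refine (hsum.trans hgeo).trans ((hJ0 J hJJ0).trans ?_)
  have hlogX : Real.log X ≤ (J : ℝ) + 1 := by
    have h1 : Real.log X ≤ Real.log ((2 : ℝ) ^ (J + 1)) := Real.log_le_log hX0 hXJ.le
    rw [Real.log_pow] at h1
    push_cast at h1
    have := Real.log_two_lt_d9
    have hJ0' : (0 : ℝ) ≤ J := Nat.cast_nonneg J
    nlinarith
  have hlogX0 : 0 ≤ Real.log X := Real.log_nonneg hX1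
  have e4 : (2 * (1 / 8 : ℝ)) = 1 / 4 := by norm_num
  rw [e4]
  apply mul_le_mul hJX _ (Real.exp_pos _).le hX0.le
  apply Real.exp_le_exp.2
  have := Real.rpow_le_rpow hlogX0 hlogX (show (0 : ℝ) ≤ 1 / 4 by norm_num)
  linarith

end Pool.Agent.R468.GL
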