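import Pool.Agent.R468.GL.San
import Pool.Agent.R468.GL.Slow
import Pool.Agent.R468.LL.Thin

/-!
General local limit law, part 7: the descent and the number of the bad elements.
-/

set_option autoImplicit false

namespace Pool.Agent.R468.GL

open Filter Topology Finset
open Pool.Agent.H499R2.LT
open Pool.Agent.H499R2.ND (Td HD G pos mem_pos)
open Pool.Agent.H499R2.CO (Tz)
open Pool.Agent.R344.TH (fA mem_fA HY)

theorem tt_le {Y : ℕ} {v : ℤ} (h : v ≤ Y) : tt v ≤ Nat.sqrt (Nat.log 2 Y) := by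
  unfold tt
  exact Nat.sqrt_le_sqrt (Nat.log_mono_right (by omega))

theorem descent {d : ℤ} {y : ℝ} {Y : ℕ} (s : ℕ) : ∀ v : ℤ, v ≤ Y → (v : ℝ) < 2 ^ s * y →
    v ∉ HY d (Slow d) y → ∃ m ≤ s * Nat.sqrt (Nat.log 2 Y), (((Tz d)^[m] v : ℤ) : ℝ) < y ∧
      ∀ j < m, y ≤ (((Tz d)^[j] v : ℤ) : ℝ) := by
  induction s with
  | zero =>
    intro v _ hv _
    exact ⟨0, Nat.zero_le _, by simpa using hv, fun j hj => absurd hj (by omega)⟩
  | succ s ih =>
    intro v hvY hv hH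
    rcases lt_or_ge (v : ℝ) y with h | h
    · exact ⟨0, Nat.zero_le _, by simpa using h, fun j hj => absurd hj (by omega)⟩
    have hns : v ∉ Slow d := by
      intro hs
      apply hH
      exact ⟨0, hs, fun j hj => by
        have : j = 0 := by omega
        subst this
        exact h⟩
    have hns' : ∃ i ≤ tt v, (((Tz d)^[i] v : ℤ) : ℝ) ≤ (v : ℝ) / 2 := by
      by_contra hcon
      push Not at hcon
      exact hns hcon
    obtain ⟨i, hi, hiv⟩ := hns'
    have hQ := hi.trans (tt_le hvY)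
    by_cases hall : ∀ j ≤ i, y ≤ (((Tz d)^[j] v : ℤ) : ℝ)
    · have hi0 : y ≤ (((Tz d)^[i] v : ℤ) : ℝ) := hall i le_rfl
      have h2 : (((Tz d)^[i] v : ℤ) : ℝ) < 2 ^ s * y := by
        rw [pow_succ] at hv; linarith
      have h3 : (Tz d)^[i] v ≤ Y := by
        rcases le_or_gt 0 v with hv0 | hv0
        · have h4 : (((Tz d)^[i] v : ℤ) : ℝ) ≤ v := by
            have : (0 : ℝ) ≤ v := by exact_mod_cast hv0
            linarith
          have h5 : (Tz d)^[i] v ≤ v := by exact_mod_cast h4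
          omega
        · have h4 : (((Tz d)^[i] v : ℤ) : ℝ) < 0 := by
            have : (v : ℝ) < 0 := by exact_mod_cast hv0
            linarith
          have h5 : (Tz d)^[i] v < 0 := by exact_mod_cast h4
          omega
      have h4 : (Tz d)^[i] v ∉ HY d (Slow d) y := by
        rintro ⟨k, hk1, hk2⟩
        apply hH
        refine ⟨k + i, by rw [Function.iterate_add_apply]; exact hk1, ?_⟩
        intro j hj
        rcases le_or_gt j i with h5 | h5
        · exact hall j h5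
        · have := hk2 (j - i) (by omega)
          rwa [← Function.iterate_add_apply, Nat.sub_add_cancel h5.le] at this
      obtain ⟨m, hm1, hm2, hm3⟩ := ih _ h3 h2 h4
      refine ⟨m + i, ?_, ?_, ?_⟩
      · rw [Nat.succ_mul]; omega
      · rw [Function.iterate_add_apply]; exact hm2
      · intro j hj
        rcases le_or_gt j i with h5 | h5
        · exact hall j h5
        · have := hm3 (j - i) (by omega)
          rwa [← Function.iterate_add_apply, Nat.sub_add_cancel h5.le] at this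
    · push Not at hall
      classical
      obtain ⟨j0, hj0, hj0'⟩ := hall
      have hex : ∃ j : ℕ, (((Tz d)^[j] v : ℤ) : ℝ) < y := ⟨j0, hj0'⟩
      refine ⟨Nat.find hex, ?_, Nat.find_spec hex, fun j hj => by simpa using Nat.find_min hex hj⟩
      have h5 : Nat.find hex ≤ j0 := Nat.find_min' hex hj0'
      have h6 : Nat.find hex ≤ Nat.sqrt (Nat.log 2 Y) := by omega
      rw [Nat.succ_mul]
      exact h6.trans (Nat.le_add_left _ _)

theorem od_add' (d : ℤ) (i j : ℕ) (x : ℤ) : od d (i + j) x = od d i x + od d j ((Td d)^[i] x) := od_add d i j x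

theorem st_struct (P : Par) {d : ℤ} {F : Finset ℤ} {y : ℝ} (hy : 1 ≤ y) (hdy : ((|d| : ℤ) : ℝ) < y)
    (hFy : ∀ f ∈ F, (f : ℝ) < y) {Y : ℕ} {g : ℤ} (hg : 1 ≤ g) (hgY : g ≤ Y) (hR : g ∈ RR d F)
    (hH : g ∉ HY d (Slow d) y) :
    ∃ (o m : ℕ) (f : ℤ), m ≤ (Nat.log 2 Y + 1) * Nat.sqrt (Nat.log 2 Y) ∧ o ≤ m ∧ 1 ≤ f ∧ (f : ℝ) ≤ y ∧
      st P d F g = P.α * o + P.β * m + st P d F f := by
  have h1 : (g : ℝ) < 2 ^ (Nat.log 2 Y + 1) * y := by
    have h2 : Y < 2 ^ (Nat.log 2 Y + 1) := Nat.lt_pow_succ_log_self (by norm_num) _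
    have h3 : (Y : ℝ) < 2 ^ (Nat.log 2 Y + 1) := by exact_mod_cast h2
    have h4 : (g : ℝ) ≤ Y := by exact_mod_cast hgY
    have h5 : (2 : ℝ) ^ (Nat.log 2 Y + 1) ≤ 2 ^ (Nat.log 2 Y + 1) * y := le_mul_of_one_le_right (by positivity) hy
    linarith
  obtain ⟨m, hm1, hm2, hm3⟩ := descent (Nat.log 2 Y + 1) g hgY h1 hH
  have hTz : (Tz d)^[m] g = (Td d)^[m] g := rfl
  have hf1 : 1 ≤ (Td d)^[m] g := by
    rcases Nat.eq_zero_or_pos m with rfl | h0
    · exact hg
    · obtain ⟨j, rfl⟩ : ∃ j, m = j + 1 := ⟨m - 1, by omega⟩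
      have h2 : y ≤ (((Td d)^[j] g : ℤ) : ℝ) := hm3 j (by omega)
      rw [Function.iterate_succ_apply']
      have h3 : ((|d| : ℤ) : ℝ) < (((Td d)^[j] g : ℤ) : ℝ) := by linarith
      have h4 : |d| < (Td d)^[j] g := by exact_mod_cast h3
      have h5 : (1 : ℝ) ≤ (((Td d)^[j] g : ℤ) : ℝ) := by linarith
      have h6 : 1 ≤ (Td d)^[j] g := by exact_mod_cast h5
      generalize (Td d)^[j] g = z at h4 h6
      have h7 := abs_lt.1 h4
      unfold Td
      split_ifs <;> omega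
  obtain ⟨k1, k2⟩ := ht_spec hR
  have hmk : m ≤ ht d F g := by
    by_contra hcon
    push Not at hcon
    have h2 : y ≤ (((Td d)^[ht d F g] g : ℤ) : ℝ) := hm3 _ hcon
    have h3 := hFy _ k1
    linarith
  obtain ⟨t, htm⟩ : ∃ t, ht d F g = m + t := ⟨ht d F g - m, by omega⟩
  have e1 : ht d F ((Td d)^[m] g) = t := by
    apply ht_eq
    · rw [← Function.iterate_add_apply, add_comm, ← htm]; exact k1
    · intro i hi
      rw [← Function.iterate_add_apply]
      exact k2 _ (by omega)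
  have hod := od_bd d m g
  refine ⟨(od d m g).toNat, m, (Td d)^[m] g, hm1, by omega, hf1, hm2.le, ?_⟩
  unfold st ho
  rw [e1, htm, od_add', Int.toNat_of_nonneg hod.1]
  push_cast
  ring

/-- the elements with a bad phase -/
def Bad (P : Par) (d : ℤ) (F : Finset ℤ) (Y : ℕ) (s ρ : ℝ) : Set ℤ :=
  {g : ℤ | (Y : ℝ) / 2 ≤ g ∧ (g : ℝ) ≤ Y ∧ g ∈ RR d F ∧ g ∉ HY d (Slow d) ((Y : ℝ) ^ (1 / 50 : ℝ)) ∧
    ∃ m : ℤ, |s * ww P - lV P d F g - m * ww P| ≤ ρ}

theorem class_count {w : ℝ} (hw : Real.log 2 ≤ w) {Y : ℕ} (hY : 2 ≤ Y) {W ρ : ℝ} (hρ0 : 0 ≤ ρ)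
    (hρ : 2 * ρ ≤ Real.log 2) (S : Finset ℤ)
    (hS : ∀ g ∈ S, (Y : ℝ) / 2 ≤ g ∧ (g : ℝ) ≤ Y ∧ ∃ m : ℤ, |W - Real.log g - m * w| ≤ ρ) :
    (S.card : ℝ) ≤ 3 * (4 * ρ * Y + 1) := by
  classical
  have hl2 : 0 < Real.log 2 := Real.log_pos (by norm_num)
  have hw0 : 0 < w := by linarith
  have hYR : (2 : ℝ) ≤ Y := by exact_mod_cast hY
  set m0 : ℤ := ⌈(W - Real.log Y - ρ) / w⌉ with hm0
  have hm0' : (W - Real.log Y - ρ) / w ≤ m0 := Int.le_ceil _
  rw [div_le_iff₀ hw0] at hm0'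
  have hcover : S ⊆ (Icc m0 (m0 + 2)).biUnion
      (fun m => S.filter (fun g : ℤ => |W - Real.log g - m * w| ≤ ρ)) := by
    intro g hg
    obtain ⟨h1, h2, m, hm⟩ := hS g hg
    rw [mem_biUnion]
    have hg0 : (0 : ℝ) < g := by linarith
    have hlg1 : Real.log g ≤ Real.log Y := Real.log_le_log hg0 h2
    have hlg2 : Real.log Y - Real.log 2 ≤ Real.log g := by
      rw [← Real.log_div (by linarith) (by norm_num)]
      exact Real.log_le_log (by linarith) h1
    have hma := (abs_le.1 hm).1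
    have hmb := (abs_le.1 hm).2
    refine ⟨m, ?_, mem_filter.2 ⟨hg, hm⟩⟩
    rw [mem_Icc]
    constructor
    · rw [hm0, Int.ceil_le, div_le_iff₀ hw0]
      linarith
    · have h3 : (m : ℝ) * w ≤ (m0 + 2 : ℝ) * w := by
        nlinarith
      have h4 : (m : ℝ) ≤ m0 + 2 := le_of_mul_le_mul_right h3 hw0
      exact_mod_cast h4
  have hone : ∀ m ∈ Icc m0 (m0 + 2),
      ((S.filter (fun g : ℤ => |W - Real.log g - m * w| ≤ ρ)).card : ℝ) ≤ 4 * ρ * Y + 1 := by
    intro m _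
    rcases (S.filter (fun g : ℤ => |W - Real.log g - m * w| ≤ ρ)).eq_empty_or_nonempty with h0 | ⟨g0, hg0⟩
    · rw [h0, card_empty, Nat.cast_zero]; positivity
    have hint : ∀ g ∈ S.filter (fun g : ℤ => |W - Real.log g - m * w| ≤ ρ),
        Real.exp (W - m * w - ρ) ≤ g ∧ (g : ℝ) ≤ Real.exp (W - m * w + ρ) := by
      intro g hg
      rw [mem_filter] at hg
      have h1 := (hS g hg.1).1
      have hg0 : (0 : ℝ) < g := by linarith
      have h2 := abs_le.1 hg.2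
      constructor
      · rw [← Real.le_log_iff_exp_le hg0]; linarith
      · rw [← Real.log_le_iff_le_exp hg0]; linarith
    have h1 := Pool.Agent.R468.LL.icount (Real.exp_le_exp.2 (by linarith)) _ hint
    have h2 : Real.exp (W - m * w - ρ) ≤ Y :=
      (hint g0 hg0).1.trans (hS g0 (mem_filter.1 hg0).1).2.1
    have h3 : Real.exp (W - m * w + ρ) = Real.exp (W - m * w - ρ) * Real.exp (2 * ρ) := by
      rw [← Real.exp_add]; congr 1; ring
    have h4 : Real.exp (2 * ρ) ≤ 2 := by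
      have := Real.exp_le_exp.2 hρ
      rwa [Real.exp_log (by norm_num)] at this
    have h5 : Real.exp (2 * ρ) - 1 ≤ 2 * (2 * ρ) := by
      have h6 : Real.exp (-(2 * ρ)) * Real.exp (2 * ρ) = 1 := by rw [← Real.exp_add]; simp
      have h7 := Real.add_one_le_exp (-(2 * ρ))
      have h8 := Real.exp_pos (2 * ρ)
      nlinarith
    have h9 := Real.exp_pos (W - m * w - ρ)
    have h10 : 0 ≤ Real.exp (2 * ρ) - 1 := by
      have := Real.add_one_le_exp (2 * ρ)
      linarith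
    have h11 : Real.exp (W - m * w - ρ) * (Real.exp (2 * ρ) - 1) ≤ Y * (2 * (2 * ρ)) :=
      mul_le_mul h2 h5 h10 (by linarith)
    rw [h3] at h1
    linarith
  have hc : (Icc m0 (m0 + 2)).card = 3 := by rw [Int.card_Icc]; omega
  calc (S.card : ℝ) ≤ (((Icc m0 (m0 + 2)).biUnion
      (fun m => S.filter (fun g : ℤ => |W - Real.log g - m * w| ≤ ρ))).card : ℝ) := by
        exact_mod_cast card_le_card hcover
    _ ≤ ((∑ m ∈ Icc m0 (m0 + 2), (S.filter (fun g : ℤ => |W - Real.log g - m * w| ≤ ρ)).card : ℕ) : ℝ) := by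
        exact_mod_cast card_biUnion_le
    _ ≤ ∑ m ∈ Icc m0 (m0 + 2), (4 * ρ * Y + 1) := by
        push_cast
        exact sum_le_sum hone
    _ = _ := by rw [sum_const, hc]; simp only [nsmul_eq_mul]; push_cast; ring

/-- the number of bad elements -/
theorem bad_count (P : Par) {d : ℤ} {F : Finset ℤ} {A : ℝ} (hA : 0 ≤ A) {Y : ℕ} (hY : 3 ≤ Y)
    (hdy : ((|d| : ℤ) : ℝ) < (Y : ℝ) ^ (1 / 50 : ℝ)) (hFy : ∀ f ∈ F, (f : ℝ) < (Y : ℝ) ^ (1 / 50 : ℝ))
    (hρ : 2 * (A / (Y : ℝ) ^ (1 / 25 : ℝ)) ≤ Real.log 2) (s : ℝ) (S : Finset ℤ)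
    (hS : ∀ g ∈ S, g ∈ Bad P d F Y s (A / (Y : ℝ) ^ (1 / 25 : ℝ))) :
    (S.card : ℝ) ≤ (81 * (12 * A + 3)) * (Real.log Y) ^ 4 * (Y : ℝ) ^ (1 - 1 / 50 : ℝ) := by
  classical
  have hYR : (3 : ℝ) ≤ Y := by exact_mod_cast hY
  have hY0 : (0 : ℝ) < Y := by linarith
  have hY1 : (1 : ℝ) ≤ Y := by linarith
  set L : ℝ := Real.log Y with hL
  have hL1 : 1 ≤ L := by
    rw [hL, Real.le_log_iff_exp_le hY0]
    linarith [Real.exp_one_lt_d9]
  set y : ℝ := (Y : ℝ) ^ (1 / 50 : ℝ) with hy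
  have hy1 : 1 ≤ y := Real.one_le_rpow hY1 (by norm_num)
  set ρ : ℝ := A / (Y : ℝ) ^ (1 / 25 : ℝ) with hρdef
  have hρ0 : 0 ≤ ρ := by positivity
  set n : ℕ := Nat.log 2 Y with hn
  set M : ℕ := (n + 1) * Nat.sqrt n with hM
  have hcover : S ⊆ ((range (M + 1)) ×ˢ ((range (M + 1)) ×ˢ (Icc (1 : ℤ) ⌊y⌋))).biUnion
        (fun q => S.filter (fun g : ℤ => st P d F g = P.α * q.1 + P.β * q.2.1 + st P d F q.2.2)) := by
    intro g hg
    obtain ⟨h1, h2, h3, h3', _⟩ := hS g hg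
    have h4 : (0 : ℝ) < g := by linarith
    have h5 : 0 < g := by exact_mod_cast h4
    have h6 : g ≤ Y := by exact_mod_cast h2
    obtain ⟨o, m, f, k1, k2, k3, k4, k5⟩ := st_struct P hy1 hdy hFy (by omega) h6 h3 h3'
    have k1' : m ≤ M := k1
    rw [mem_biUnion]
    refine ⟨(o, m, f), ?_, ?_⟩
    · rw [mem_product, mem_product, mem_range, mem_range, mem_Icc, Int.le_floor]
      exact ⟨by simp only; omega, by simp only; omega, k3, k4⟩
    · rw [mem_filter]
      exact ⟨hg, k5⟩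
  have hfib : ∀ q ∈ (range (M + 1)) ×ˢ ((range (M + 1)) ×ˢ (Icc (1 : ℤ) ⌊y⌋)),
      ((S.filter (fun g : ℤ => st P d F g = P.α * q.1 + P.β * q.2.1 + st P d F q.2.2)).card : ℝ) ≤
        3 * (4 * ρ * Y + 1) := by
    intro q _
    apply class_count (ww_ge P) (by omega) hρ0 hρ
      (W := s * ww P + (P.α * q.1 + P.β * q.2.1 + st P d F q.2.2 : ℤ) * kap P)
    intro g hg
    rw [mem_filter] at hg
    obtain ⟨h1, h2, _, _, m, hm⟩ := hS g hg.1
    refine ⟨h1, h2, m, ?_⟩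
    unfold lV at hm
    rw [hg.2] at hm
    refine le_trans (le_of_eq ?_) hm
    congr 1
    ring
  have hn3 : (n : ℝ) + 1 ≤ 3 * L := by
    have h1 : 2 ^ n ≤ Y := Nat.pow_log_le_self 2 (by omega)
    have h2 : ((2 : ℝ) ^ n) ≤ Y := by exact_mod_cast h1
    have h3 : Real.log ((2 : ℝ) ^ n) ≤ L := Real.log_le_log (by positivity) h2
    rw [Real.log_pow] at h3
    have h4 := Real.log_two_gt_d9
    have h5 : (0 : ℝ) ≤ n := Nat.cast_nonneg n
    nlinarith
  have hM1 : ((M + 1 : ℕ) : ℝ) ≤ 9 * L ^ 2 := by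
    have h1 : M + 1 ≤ (n + 1) * (n + 1) := by
      have : Nat.sqrt n ≤ n := Nat.sqrt_le_self n
      calc M + 1 ≤ (n + 1) * n + 1 := by rw [hM]; exact Nat.add_le_add_right (Nat.mul_le_mul_left _ this) 1
        _ ≤ (n + 1) * (n + 1) := by rw [Nat.mul_succ]; omega
    have h2 : ((M + 1 : ℕ) : ℝ) ≤ ((n : ℝ) + 1) * ((n : ℝ) + 1) := by exact_mod_cast h1
    have h3 : (0 : ℝ) ≤ n := Nat.cast_nonneg n
    calc ((M + 1 : ℕ) : ℝ) ≤ ((n : ℝ) + 1) * ((n : ℝ) + 1) := h2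
      _ ≤ (3 * L) * (3 * L) := mul_le_mul hn3 hn3 (by linarith) (by linarith)
      _ = 9 * L ^ 2 := by ring
  have hcardP : (((range (M + 1)) ×ˢ ((range (M + 1)) ×ˢ (Icc (1 : ℤ) ⌊y⌋))).card : ℝ) ≤ 81 * L ^ 4 * y := by
    rw [card_product, card_product, card_range, Int.card_Icc]
    have h1 : ((⌊y⌋ + 1 - 1).toNat : ℝ) ≤ y := by
      have h2 : (0 : ℤ) ≤ ⌊y⌋ := Int.floor_nonneg.2 (by linarith)
      have h3 : ((⌊y⌋ + 1 - 1).toNat : ℝ) = (⌊y⌋ : ℝ) := by
        have : (((⌊y⌋ + 1 - 1).toNat : ℤ) : ℝ) = ((⌊y⌋ : ℤ) : ℝ) := by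
          rw [Int.toNat_of_nonneg (by omega)]; push_cast; ring
        exact_mod_cast this
      rw [h3]
      exact Int.floor_le y
    push_cast at hM1 ⊢
    have hM0 : (0 : ℝ) ≤ (M : ℝ) + 1 := by positivity
    calc ((M : ℝ) + 1) * (((M : ℝ) + 1) * ((⌊y⌋ + 1 - 1).toNat : ℝ))
        ≤ (9 * L ^ 2) * ((9 * L ^ 2) * y) := by
          apply mul_le_mul hM1 _ (by positivity) (by positivity)
          exact mul_le_mul hM1 h1 (by positivity) (by positivity)
      _ = 81 * L ^ 4 * y := by ring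
  calc (S.card : ℝ) ≤ ((((range (M + 1)) ×ˢ ((range (M + 1)) ×ˢ (Icc (1 : ℤ) ⌊y⌋))).biUnion
        (fun q => S.filter (fun g : ℤ => st P d F g = P.α * q.1 + P.β * q.2.1 + st P d F q.2.2))).card : ℝ) := by
        exact_mod_cast card_le_card hcover
      _ ≤ ((∑ q ∈ (range (M + 1)) ×ˢ ((range (M + 1)) ×ˢ (Icc (1 : ℤ) ⌊y⌋)),
          (S.filter (fun g : ℤ => st P d F g = P.α * q.1 + P.β * q.2.1 + st P d F q.2.2)).card : ℕ) : ℝ) := by
            exact_mod_cast card_biUnion_le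
      _ ≤ ∑ q ∈ (range (M + 1)) ×ˢ ((range (M + 1)) ×ˢ (Icc (1 : ℤ) ⌊y⌋)), 3 * (4 * ρ * Y + 1) := by
            push_cast
            exact sum_le_sum hfib
      _ = (((range (M + 1)) ×ˢ ((range (M + 1)) ×ˢ (Icc (1 : ℤ) ⌊y⌋))).card : ℝ) * (3 * (4 * ρ * Y + 1)) := by
            rw [sum_const, nsmul_eq_mul]
      _ ≤ (81 * L ^ 4 * y) * (3 * (4 * ρ * Y + 1)) := by
            apply mul_le_mul_of_nonneg_right hcardP (by positivity)
      _ ≤ (81 * L ^ 4 * y) * ((12 * A + 3) * (Y : ℝ) ^ (24 / 25 : ℝ)) := by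
            have k2 : ρ * Y = A * (Y : ℝ) ^ (24 / 25 : ℝ) := by
              rw [hρdef]
              have : (Y : ℝ) ^ (24 / 25 : ℝ) * (Y : ℝ) ^ (1 / 25 : ℝ) = Y := by
                rw [← Real.rpow_add hY0]; norm_num
              have h0 : (Y : ℝ) ^ (1 / 25 : ℝ) ≠ 0 := by positivity
              rw [div_mul_eq_mul_div, div_eq_iff h0, mul_assoc, this]
            have k3 : 1 ≤ (Y : ℝ) ^ (24 / 25 : ℝ) := Real.one_le_rpow hY1 (by norm_num)
            have k4 : 3 * (4 * ρ * Y + 1) ≤ (12 * A + 3) * (Y : ℝ) ^ (24 / 25 : ℝ) := by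
              have : 3 * (4 * ρ * Y + 1) = 12 * (ρ * Y) + 3 := by ring
              rw [this, k2]
              nlinarith
            exact mul_le_mul_of_nonneg_left k4 (by positivity)
      _ = (81 * (12 * A + 3)) * L ^ 4 * (y * (Y : ℝ) ^ (24 / 25 : ℝ)) := by ring
      _ = _ := by
            rw [hy, ← Real.rpow_add hY0]
            norm_num

/-- the total mass of the bad elements -/
theorem bad_mass (P : Par) {d : ℤ} (hd : Odd d) (hd3 : IsCoprime d 3) (F : Finset ℤ) (A : ℝ) (hA : 0 ≤ A) :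
    ∃ (K : ℝ) (Y0 : ℕ), 0 < K ∧ 3 ≤ Y0 ∧ ∀ Y : ℕ, Y0 ≤ Y →
    ∀ (s : ℝ) (δ : ℤ → ℝ), (∀ g, HD 1 (PF d (FY Y) g) (δ g)) → ∀ S : Finset ℤ,
    (∀ g ∈ S, g ∈ GG d F Y ∧ ∃ m : ℤ, |s * ww P - lV P d F g - m * ww P| ≤ A / (Y : ℝ) ^ (1 / 25 : ℝ)) →
    ∑ g ∈ S, δ g ≤ K / Real.log ((Y : ℝ) / 2) := by
  classical
  obtain ⟨Y1, hY1, hth⟩ := Pool.Agent.R468.LL.thin_evt (C := 81 * (12 * A + 3)) (κ := 1 / 50) (by positivity)
    (by norm_num)
  obtain ⟨l₀, K, hl₀, hK, hHY⟩ := Pool.Agent.R344.TH.HY_count hd hd3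
    (γ := 1 / 4) (by norm_num) (by norm_num) 1
  obtain ⟨l₁, K1, hl₁, hK1, hHY1⟩ := Pool.Agent.R344.TH.HY_count hd hd3
    (γ := 1 / 8) (by norm_num) (by norm_num) 1
  obtain ⟨ys, hys1, hslow⟩ := slow_count (d := d) (Int.odd_iff.1 hd)
  have hlog : Tendsto (fun Y : ℕ => Real.log ((Y : ℝ) / 2)) atTop atTop :=
    Real.tendsto_log_atTop.comp (tendsto_natCast_atTop_atTop.atTop_div_const (by norm_num))
  have hlog2 : Tendsto (fun Y : ℕ => Real.log (Y : ℝ)) atTop atTop :=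
    Real.tendsto_log_atTop.comp tendsto_natCast_atTop_atTop
  have hyy : Tendsto (fun Y : ℕ => (Y : ℝ) ^ (1 / 50 : ℝ)) atTop atTop :=
    (tendsto_rpow_atTop (by norm_num)).comp tendsto_natCast_atTop_atTop
  have hrho : Tendsto (fun Y : ℕ => 2 * (A / (Y : ℝ) ^ (1 / 25 : ℝ))) atTop (𝓝 (2 * 0)) :=
    (Tendsto.div_atTop tendsto_const_nhds ((tendsto_rpow_atTop (by norm_num)).comp
      tendsto_natCast_atTop_atTop)).const_mul 2
  rw [mul_zero] at hrho
  have hFe : ∀ᶠ Y : ℕ in atTop, ∀ f ∈ F, (f : ℝ) < (Y : ℝ) ^ (1 / 50 : ℝ) := by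
    rw [Filter.eventually_all_finset]
    intro f _
    exact hyy.eventually (eventually_gt_atTop _)
  obtain ⟨Y2, hY2⟩ := eventually_atTop.1 ((((((hlog.eventually (eventually_ge_atTop (max l₀ 1))).and
    (hrho.eventually (gt_mem_nhds (Real.log_pos (show (1 : ℝ) < 2 by norm_num))))).and
    (hyy.eventually (eventually_gt_atTop ((|d| : ℤ) : ℝ)))).and hFe).and
    (hyy.eventually (eventually_ge_atTop ys))).and (hlog2.eventually (eventually_ge_atTop (50 * l₁))))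
  refine ⟨K + 50 * K1, max Y1 Y2, by positivity, le_trans hY1 (le_max_left _ _), ?_⟩
  intro Y hY s δ hδ S hS
  have hYY1 : Y1 ≤ Y := (le_max_left _ _).trans hY
  have hY3 : 3 ≤ Y := hY1.trans hYY1
  have hYR : (3 : ℝ) ≤ Y := by exact_mod_cast hY3
  have hYp : (0 : ℝ) < Y := by linarith
  obtain ⟨⟨⟨⟨⟨hlY, hρY⟩, hdy⟩, hFy⟩, hyys⟩, hl1Y⟩ := hY2 Y ((le_max_right _ _).trans hY)
  have hlY1 : 1 ≤ Real.log ((Y : ℝ) / 2) := (le_max_right _ _).trans hlY
  set ρ : ℝ := A / (Y : ℝ) ^ (1 / 25 : ℝ) with hρ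
  set y : ℝ := (Y : ℝ) ^ (1 / 50 : ℝ) with hy
  have hy1 : 1 ≤ y := Real.one_le_rpow (by linarith) (by norm_num)
  have hlogy : Real.log y = Real.log Y / 50 := by
    rw [hy, Real.log_rpow hYp]; ring
  have hdY : |d| ≤ (Y : ℤ) := by
    have h1 : y ≤ Y := by
      rw [hy]
      calc (Y : ℝ) ^ (1 / 50 : ℝ) ≤ (Y : ℝ) ^ (1 : ℝ) := Real.rpow_le_rpow_of_exponent_le (by linarith) (by norm_num)
        _ = Y := Real.rpow_one _
    have h2 : ((|d| : ℤ) : ℝ) ≤ ((Y : ℤ) : ℝ) := by push_cast at hdy ⊢; linarith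
    exact_mod_cast h2
  have hyh : y ≤ (Y : ℝ) / 2 := by
    have h0 : (2 : ℝ) ≤ (Y : ℝ) ^ (49 / 50 : ℝ) := by
      have h1 : (2 : ℝ) ≤ (3 : ℝ) ^ (49 / 50 : ℝ) := by
        rw [Real.le_rpow_iff_log_le (by norm_num) (by norm_num)]
        have h3 : Real.log 2 = Real.log (8 : ℝ) / 3 := by
          rw [show (8 : ℝ) = 2 ^ 3 by norm_num, Real.log_pow]; push_cast; ring
        have h4 : Real.log 3 = Real.log (9 : ℝ) / 2 := by
          rw [show (9 : ℝ) = 3 ^ 2 by norm_num, Real.log_pow]; push_cast; ring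
        have h5 := Real.log_three_gt_d9
        have h6 := Real.log_two_lt_d9
        linarith
      exact h1.trans (Real.rpow_le_rpow (by norm_num) hYR (by norm_num))
    have h1 : y * (Y : ℝ) ^ (49 / 50 : ℝ) = Y := by
      rw [hy, ← Real.rpow_add hYp]; norm_num
    have h2 : y * 2 ≤ y * (Y : ℝ) ^ (49 / 50 : ℝ) := mul_le_mul_of_nonneg_left h0 (by linarith)
    linarith
  have hcount := hHY ((Y : ℝ) / 2) (by linarith) ((le_max_left _ _).trans hlY) (Bad P d F Y s ρ) (by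
    intro X hX
    refine le_trans (bad_count P hA hY3 hdy hFy hρY.le s _ ?_) (hth Y hYY1 X hX)
    intro g hg
    rw [mem_fA] at hg
    exact hg.2)
  have hcount1 := hHY1 y (by linarith) (by rw [hlogy]; linarith) (Slow d) (fun X hX => hslow y hyys X hX)
  -- each count
  have hcov : ∀ N : ℕ, ∑ g ∈ S, G (PF d (FY Y) g) (N : ℝ) ≤
      ((((Icc (1 : ℤ) N).filter (fun n => n ∈ HY d (Bad P d F Y s ρ) ((Y : ℝ) / 2))).card : ℝ) +
      (((Icc (1 : ℤ) N).filter (fun n => n ∈ HY d (Slow d) y)).card : ℝ)) + Y := by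
    intro N
    have hdisj : ∀ g ∈ S, ∀ g' ∈ S, g ≠ g' → Disjoint (pos (PF d (FY Y) g) (N : ℝ)) (pos (PF d (FY Y) g') (N : ℝ)) := by
      intro g _ g' _ hne
      rw [Finset.disjoint_left]
      intro n hn hn'
      obtain ⟨_, _, i, hi⟩ := Pool.Agent.R468.LL.pos_le hn
      obtain ⟨_, _, i', hi'⟩ := Pool.Agent.R468.LL.pos_le hn'
      exact hne (Hit_unique hi hi').1
    have h1 : ∑ g ∈ S, G (PF d (FY Y) g) (N : ℝ) =
        ((S.biUnion (fun g => pos (PF d (FY Y) g) (N : ℝ))).card : ℝ) := by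
      rw [card_biUnion hdisj]
      push_cast
      rfl
    rw [h1]
    have hsub : S.biUnion (fun g => pos (PF d (FY Y) g) (N : ℝ)) ⊆
        (((Icc (1 : ℤ) N).filter (fun n => n ∈ HY d (Bad P d F Y s ρ) ((Y : ℝ) / 2))) ∪
        ((Icc (1 : ℤ) N).filter (fun n => n ∈ HY d (Slow d) y))) ∪
        Icc (1 : ℤ) Y := by
      intro n hn
      rw [mem_biUnion] at hn
      obtain ⟨g, hgS, hn⟩ := hn
      obtain ⟨hn1, hnN, i, hi⟩ := Pool.Agent.R468.LL.pos_le hn
      rw [mem_union, mem_union]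
      rcases le_or_gt n (Y : ℤ) with hnY | hnY
      · right
        rw [mem_Icc]
        exact ⟨hn1, hnY⟩
      · left
        -- all the values before `i` are larger than `Y`
        have hbig := hit_big hdY hn1 hi
        have hi0 : i ≠ 0 := by
          rintro rfl
          have h2 : n = g := hi.1
          have h3 := hi.2.1
          rw [Pool.Agent.R468.LL.mem_FY] at h3
          omega
        have hgi : (Y : ℤ) ≤ 2 * g := by
          obtain ⟨j, rfl⟩ : ∃ j, i = j + 1 := ⟨i - 1, by omega⟩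
          have h2 := hbig j (by omega)
          have h3 : g = Td d ((Td d)^[j] n) := by
            rw [← Function.iterate_succ_apply' (Td d) j n]; exact hi.1.symm
          have h4 := (step_pos hdY h2).2
          rw [h3]
          omega
        have hgiR : (Y : ℝ) / 2 ≤ g := by
          have : (Y : ℝ) ≤ 2 * g := by exact_mod_cast hgi
          linarith
        have hall : ∀ j ≤ i, (Y : ℝ) / 2 ≤ (((Tz d)^[j] n : ℤ) : ℝ) := by
          intro j hj
          change (Y : ℝ) / 2 ≤ (((Td d)^[j] n : ℤ) : ℝ)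
          rcases lt_or_eq_of_le hj with h2 | h2
          · have h3 := hbig j h2
            have h4 : (Y : ℝ) < (((Td d)^[j] n : ℤ) : ℝ) := by exact_mod_cast h3
            linarith
          · rw [h2, hi.1]; exact hgiR
        have hig : (Tz d)^[i] n = g := hi.1
        by_cases hslw : g ∈ HY d (Slow d) y
        · right
          rw [mem_filter, mem_Icc]
          refine ⟨⟨hn1, by omega⟩, ?_⟩
          obtain ⟨k, hk1, hk2⟩ := hslw
          refine ⟨k + i, by rw [Function.iterate_add_apply, hig]; exact hk1, ?_⟩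
          intro j hj
          rcases le_or_gt j i with h5 | h5
          · linarith [hall j h5]
          · have := hk2 (j - i) (by omega)
            rwa [← hig, ← Function.iterate_add_apply, Nat.sub_add_cancel h5.le] at this
        · left
          rw [mem_filter, mem_Icc]
          refine ⟨⟨hn1, by omega⟩, i, ?_, hall⟩
          obtain ⟨hgG, m, hm⟩ := hS g hgS
          rw [mem_GG] at hgG
          rw [hig]
          exact ⟨hgiR, by exact_mod_cast hgG.1.2, hgG.2, hslw, m, hm⟩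
    have h2 := (card_le_card hsub).trans ((card_union_le _ _).trans (Nat.add_le_add_right (card_union_le _ _) _))
    have h3 : (Icc (1 : ℤ) Y).card = Y := by simp
    rw [h3] at h2
    exact_mod_cast h2
  -- the limit
  have hlim : Tendsto (fun N : ℕ => ∑ g ∈ S, G (PF d (FY Y) g) (N : ℝ) / (N : ℝ)) atTop (𝓝 (∑ g ∈ S, δ g)) :=
    tendsto_finsetSum _ fun g _ => Pool.Agent.R468.LL.hd_nat (hδ g)
  have hlim2 : Tendsto (fun N : ℕ => (K + 50 * K1) / Real.log ((Y : ℝ) / 2) + (Y : ℝ) / (N : ℝ)) atTop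
      (𝓝 ((K + 50 * K1) / Real.log ((Y : ℝ) / 2) + 0)) :=
    tendsto_const_nhds.add (tendsto_const_nhds.div_atTop tendsto_natCast_atTop_atTop)
  rw [add_zero] at hlim2
  refine le_of_tendsto_of_tendsto hlim hlim2 ?_
  filter_upwards [eventually_gt_atTop 0] with N hN
  have hNR : (0 : ℝ) < N := by exact_mod_cast hN
  rw [← sum_div, div_le_iff₀ hNR]
  refine (hcov N).trans ?_
  have h5 := hcount N
  have h5' := hcount1 N
  rw [pow_one] at h5 h5'
  have h7 : Real.log ((Y : ℝ) / 2) / 50 ≤ Real.log y := by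
    rw [hlogy]
    have := Real.log_le_log (show 0 < (Y : ℝ) / 2 by linarith) (show (Y : ℝ) / 2 ≤ Y by linarith)
    linarith
  have h8 : K1 * N / Real.log y ≤ K1 * N / (Real.log ((Y : ℝ) / 2) / 50) :=
    div_le_div_of_nonneg_left (by positivity) (by linarith) h7
  have h6 : ((K + 50 * K1) / Real.log ((Y : ℝ) / 2) + (Y : ℝ) / (N : ℝ)) * N =
      K * N / Real.log ((Y : ℝ) / 2) + K1 * N / (Real.log ((Y : ℝ) / 2) / 50) + Y := by
    have : Real.log ((Y : ℝ) / 2) ≠ 0 := by linarith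
    field_simp
  rw [h6]
  linarith

end Pool.Agent.R468.GL
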