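import Pool.Agent.R468.GL.Side
import Pool.Agent.H499R2.LT.R6

/-!
General local limit law, part 13: the total stopping times of the `3x+1` function and of the Collatz
function.
-/

set_option autoImplicit false

namespace Pool.Agent.R468.GL

open Filter Topology Finset
open Pool.Agent.H499R2.LT
open Pool.Agent.H499R2.ND (Td HD G pos mem_pos Dn Bas Tn CC BasC Bas_density)
open Pool.Agent.R468.LL (lam lam_eq lam_pos lam_lt)

/-- the number of steps of the shortcut map -/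
def PT : Par := ⟨0, 1, 1, 0, by norm_num⟩

/-- the number of steps of the Collatz map -/
def PC : Par := ⟨1, 1, 1, 0, by norm_num⟩

/-- the number of odd terms -/
def PO : Par := ⟨1, 0, 0, 1, by norm_num⟩

theorem log6 : Real.log 6 = Real.log 2 + Real.log 3 := by
  rw [← Real.log_mul (by norm_num) (by norm_num)]; norm_num

theorem ww_PT : ww PT = Real.log 3 := by unfold ww PT; simp
theorem ww_PC : ww PC = Real.log 6 := by unfold ww PC; simp [log6]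
theorem ww_PO : ww PO = Real.log 2 := by unfold ww PO; simp
theorem kap_PT : kap PT = Real.log 2 := by unfold kap PT; simp
theorem kap_PC : kap PC = Real.log 2 := by unfold kap PC; simp
theorem kap_PO : kap PO = -Real.log 3 := by unfold kap PO; simp
theorem A0_PT : A0 PT = 2 := by unfold A0 PT; norm_num
theorem A0_PC : A0 PC = 3 := by unfold A0 PC; norm_num
theorem A0_PO : A0 PO = 1 := by unfold A0 PO; norm_num

theorem qr_PT : qr PT = 1 / 3 := by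
  rw [qr_eq]; unfold PT; norm_num
theorem qr_PC : qr PC = 1 / 6 := by
  rw [qr_eq]; unfold PC; norm_num
theorem qr_PO : qr PO = 1 / 2 := by
  rw [qr_eq]; unfold PO; norm_num

theorem iff_one (n k : ℕ) : (Td 1)^[k] (1 * (n : ℤ)) ∈ ({1} : Finset ℤ) ↔ Tn^[k] n = 1 := by
  rw [one_mul, Td_nat, Finset.mem_singleton]
  exact_mod_cast Iff.rfl

theorem lv_T (n k : ℕ) : n ∈ Lv PT 1 1 {1} (k : ℤ) ↔ 1 ≤ n ∧ (Tn^[k] n = 1 ∧ ∀ i < k, Tn^[i] n ≠ 1) := by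
  unfold Lv
  rw [Set.mem_ofPred_eq]
  apply and_congr_right
  intro _
  simp only [iff_one]
  constructor
  · rintro ⟨k', h1, h2⟩
    have h3 : (PT.α : ℤ) = 0 := rfl
    have h4 : (PT.β : ℤ) = 1 := rfl
    rw [h3, h4] at h2
    have : k' = k := by omega
    subst this
    exact h1
  · intro h1
    refine ⟨k, h1, ?_⟩
    have h3 : (PT.α : ℤ) = 0 := rfl
    have h4 : (PT.β : ℤ) = 1 := rfl
    rw [h3, h4]
    ring

theorem FF_one : FF {1} = {1} := by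
  ext g
  rw [mem_FF, Finset.mem_singleton, Finset.mem_singleton]
  omega

theorem lv_C (n l : ℕ) : n ∈ Lv PC 1 1 {1} (l : ℤ) ↔ 1 ≤ n ∧ (CC^[l] n = 1 ∧ ∀ i < l, CC^[i] n ≠ 1) := by
  unfold Lv
  rw [Set.mem_ofPred_eq]
  apply and_congr_right
  intro _
  have h3 : (PC.α : ℤ) = 1 := rfl
  have h4 : (PC.β : ℤ) = 1 := rfl
  rw [h3, h4]
  have hC : ∀ i : ℕ, Cz^[i] (n : ℤ) ∈ ({1} : Finset ℤ) ↔ CC^[i] n = 1 := by
    intro i
    rw [Cz_nat, Finset.mem_singleton]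
    exact_mod_cast Iff.rfl
  have hod : ∀ k : ℕ, 0 ≤ od 1 k (n : ℤ) := fun k => (od_bd 1 k n).1
  constructor
  · rintro ⟨k, ⟨h5, h6⟩, h7⟩
    simp only [one_mul] at h5 h7
    have hH : Hit 1 (FF {1}) 1 (n : ℤ) k := by
      rw [FF_one]
      refine ⟨Finset.mem_singleton.1 h5, by simp, fun i hi => ?_⟩
      have := h6 i hi
      rwa [one_mul] at this
    obtain ⟨o, ho⟩ := Int.eq_ofNat_of_zero_le (hod k)
    have hL : LevC {1} k o (n : ℤ) := (levC_iff {1} k o n).2 ⟨1, hH, Or.inl ⟨by simp, ho⟩⟩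
    have hkl : k + o = l := by omega
    unfold LevC LevT at hL
    rw [hkl] at hL
    exact ⟨(hC l).1 hL.1, fun i hi hc => hL.2.1 i hi ((hC i).2 hc)⟩
  · rintro ⟨h5, h6⟩
    have hle : oC l (n : ℤ) ≤ l := oC_le l n
    have hL : LevC {1} (l - oC l (n : ℤ)) (oC l (n : ℤ)) (n : ℤ) := by
      unfold LevC LevT
      rw [Nat.sub_add_cancel hle]
      exact ⟨(hC l).2 h5, fun i hi hc => h6 i hi ((hC i).1 hc), rfl⟩
    obtain ⟨g, hg, h7⟩ := (levC_iff {1} _ _ n).1 hL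
    rw [FF_one] at hg
    have hg1 : g = 1 := Finset.mem_singleton.1 hg.2.1
    subst hg1
    rcases h7 with ⟨_, h7⟩ | ⟨h7, _⟩
    · refine ⟨l - oC l (n : ℤ), ⟨?_, fun i hi => ?_⟩, ?_⟩
      · rw [one_mul, hg.1]; simp
      · rw [one_mul]; exact hg.2.2 i hi
      · rw [one_mul, one_mul, h7, Nat.cast_sub hle]; ring
    · exact absurd (Finset.mem_singleton.2 rfl) h7

/-- the density -/
theorem dens_one {δ : ℝ} (h : Dn (fun n : ℕ => ∃ k : ℕ, (Td 1)^[k] (1 * (n : ℤ)) ∈ ({1} : Finset ℤ)) δ) :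
    0 < δ ∧ δ ≤ 1 ∧ (δ = 1 ↔ ∀ n : ℕ, 1 ≤ n → Bas n) ∧ Dn Bas δ := by
  obtain ⟨δ', h0, h1, h2, h3⟩ := Bas_density
  have hB : Dn Bas δ := Dn_iff (fun n _ => exists_congr fun k => iff_one n k) h
  have e : δ = δ' := tendsto_nhds_unique hB h3
  subst e
  exact ⟨h0, h1, h2, h3⟩

/-- THE LOCAL LIMIT LAW of the total stopping time of the `3x+1` function -/
theorem law_T : ∃ (δ : ℝ) (Ψ : ℝ → ℝ), 0 < δ ∧ δ ≤ 1 ∧ (δ = 1 ↔ ∀ n : ℕ, 1 ≤ n → ∃ k : ℕ, Tn^[k] n = 1) ∧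
    Dn (fun n => ∃ k : ℕ, Tn^[k] n = 1) δ ∧
    Continuous Ψ ∧ (∀ t, Ψ (t + 1) = Ψ t) ∧
    (∀ t, δ * (Real.log 3 / 2) ≤ Ψ t ∧ Ψ t ≤ δ * (3 * Real.log 3 / 2)) ∧
    (∫ t in (0 : ℝ)..1, Ψ t = δ) ∧
    ∀ K ε : ℝ, 0 < ε → ∃ X₀ : ℝ, ∀ x : ℝ, X₀ ≤ x → ∀ k : ℕ,
      |(k : ℝ) - 2 / Real.log (4 / 3) * Real.log x| ≤ K * Real.sqrt (Real.log x) →
      |({n : ℕ | 1 ≤ n ∧ (n : ℝ) ≤ x ∧ (Tn^[k] n = 1 ∧ ∀ i < k, Tn^[i] n ≠ 1)}.ncard : ℝ) /
        (x * (Real.exp (-(((k : ℝ) - 2 / Real.log (4 / 3) * Real.log x) ^ 2 /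
          (2 * (2 * Real.log 3 ^ 2 / Real.log (4 / 3) ^ 3 * Real.log x)))) /
          Real.sqrt (2 * Real.pi * (2 * Real.log 3 ^ 2 / Real.log (4 / 3) ^ 3 * Real.log x)))) -
        Ψ (Real.logb 3 (x / 2 ^ k))| ≤ ε := by
  obtain ⟨δ, Ψ, _, _, h2, h3, h4, h5, h6, h7, _⟩ := main_side PT (d := 1) odd_one (by omega)
    (Or.inl rfl : (1 : ℤ) = 1 ∨ _) {1}
  obtain ⟨k0, k1, k2, k3⟩ := dens_one h2
  refine ⟨δ, Ψ, k0, k1, k2, k3, h3, h4, ?_, h6, ?_⟩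
  · intro t
    have := h5 t
    rw [ww_PT, qr_PT] at this
    have e1 : Real.log 3 * (1 / 3) / (1 - 1 / 3) = Real.log 3 / 2 := by ring
    have e2 : Real.log 3 / (1 - 1 / 3) = 3 * Real.log 3 / 2 := by ring
    rwa [e1, e2] at this
  · intro K ε hε
    obtain ⟨X₀, hX0, hX⟩ := h7 K ε hε
    refine ⟨X₀, fun x hx k hk => ?_⟩
    have hx0 : 0 < x := by linarith
    have h8 := hX x hx (k : ℤ) (by rw [A0_PT]; exact_mod_cast hk)
    have e1 : {n : ℕ | (n : ℝ) ≤ x ∧ n ∈ Lv PT 1 1 {1} (k : ℤ)} =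
        {n : ℕ | 1 ≤ n ∧ (n : ℝ) ≤ x ∧ (Tn^[k] n = 1 ∧ ∀ i < k, Tn^[i] n ≠ 1)} := by
      ext n
      rw [Set.mem_ofPred_eq, Set.mem_ofPred_eq, lv_T]
      tauto
    have e2 : sv PT (x, (k : ℤ)) = Real.logb 3 (x / 2 ^ k) := by
      unfold sv Real.logb
      rw [ww_PT, kap_PT, Real.log_div hx0.ne' (by positivity), Real.log_pow]
      push_cast
      rfl
    rw [e1, e2] at h8
    unfold gd at h8
    rw [A0_PT, ww_PT] at h8
    exact_mod_cast h8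

/-- THE LOCAL LIMIT LAW of the total stopping time of the Collatz function -/
theorem law_C : ∃ (δ : ℝ) (Ψ : ℝ → ℝ), 0 < δ ∧ δ ≤ 1 ∧ (δ = 1 ↔ ∀ n : ℕ, 1 ≤ n → ∃ k : ℕ, CC^[k] n = 1) ∧
    Dn (fun n => ∃ k : ℕ, CC^[k] n = 1) δ ∧
    Continuous Ψ ∧ (∀ t, Ψ (t + 1) = Ψ t) ∧
    (∀ t, δ * (Real.log 6 / 5) ≤ Ψ t ∧ Ψ t ≤ δ * (6 * Real.log 6 / 5)) ∧
    (∫ t in (0 : ℝ)..1, Ψ t = δ) ∧
    ∀ K ε : ℝ, 0 < ε → ∃ X₀ : ℝ, ∀ x : ℝ, X₀ ≤ x → ∀ k : ℕ,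
      |(k : ℝ) - 3 / Real.log (4 / 3) * Real.log x| ≤ K * Real.sqrt (Real.log x) →
      |({n : ℕ | 1 ≤ n ∧ (n : ℝ) ≤ x ∧ (CC^[k] n = 1 ∧ ∀ i < k, CC^[i] n ≠ 1)}.ncard : ℝ) /
        (x * (Real.exp (-(((k : ℝ) - 3 / Real.log (4 / 3) * Real.log x) ^ 2 /
          (2 * (2 * Real.log 6 ^ 2 / Real.log (4 / 3) ^ 3 * Real.log x)))) /
          Real.sqrt (2 * Real.pi * (2 * Real.log 6 ^ 2 / Real.log (4 / 3) ^ 3 * Real.log x)))) -
        Ψ (Real.logb 6 (x / 2 ^ k))| ≤ ε := by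
  obtain ⟨δ, Ψ, _, _, h2, h3, h4, h5, h6, h7, _⟩ := main_side PC (d := 1) odd_one (by omega)
    (Or.inl rfl : (1 : ℤ) = 1 ∨ _) {1}
  obtain ⟨k0, k1, k2, k3⟩ := dens_one h2
  refine ⟨δ, Ψ, k0, k1, ?_, Dn_iff (fun n _ => BasC n) k3, h3, h4, ?_, h6, ?_⟩
  · rw [k2]
    exact forall₂_congr fun n _ => BasC n
  · intro t
    have := h5 t
    rw [ww_PC, qr_PC] at this
    have e1 : Real.log 6 * (1 / 6) / (1 - 1 / 6) = Real.log 6 / 5 := by ring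
    have e2 : Real.log 6 / (1 - 1 / 6) = 6 * Real.log 6 / 5 := by ring
    rwa [e1, e2] at this
  · intro K ε hε
    obtain ⟨X₀, hX0, hX⟩ := h7 K ε hε
    refine ⟨X₀, fun x hx k hk => ?_⟩
    have hx0 : 0 < x := by linarith
    have h8 := hX x hx (k : ℤ) (by rw [A0_PC]; exact_mod_cast hk)
    have e1 : {n : ℕ | (n : ℝ) ≤ x ∧ n ∈ Lv PC 1 1 {1} (k : ℤ)} =
        {n : ℕ | 1 ≤ n ∧ (n : ℝ) ≤ x ∧ (CC^[k] n = 1 ∧ ∀ i < k, CC^[i] n ≠ 1)} := by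
      ext n
      rw [Set.mem_ofPred_eq, Set.mem_ofPred_eq, lv_C]
      tauto
    have e2 : sv PC (x, (k : ℤ)) = Real.logb 6 (x / 2 ^ k) := by
      unfold sv Real.logb
      rw [ww_PC, kap_PC, Real.log_div hx0.ne' (by positivity), Real.log_pow]
      push_cast
      rfl
    rw [e1, e2] at h8
    unfold gd at h8
    rw [A0_PC, ww_PC] at h8
    exact_mod_cast h8

end Pool.Agent.R468.GL
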