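import Pool.Agent.R468.GL.Inst

/-!
Joint local limit law, part 1: the decomposition and the two-sided estimate.
-/

set_option autoImplicit false

namespace Pool.Agent.R468.GL

open Filter Topology Finset
open Pool.Agent.H499R2.LT
open Pool.Agent.H499R2.ND (Td HD G pos mem_pos Dn)
open Pool.Agent.R468.LL (cen EE EE_pos EE_le_one cen_fst cen_dev tendsto_cen Loc lam lam_eq lam_pos lam_lt mem_FY)

open Classical in
/-- the number of `n ≤ x` which reach `F` after `k` steps, `o` of them odd -/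
noncomputable def JF (d : ℤ) (F : Finset ℤ) (x : ℝ) (k : ℕ) (o : ℤ) : ℝ :=
  (((Icc (1 : ℤ) ⌊x⌋).filter (fun n => n ∈ RR d F ∧ ht d F n = k ∧ ho d F n = o)).card : ℝ)

open Classical in
/-- the number of `n ≤ x` with first value at most `Y` equal to `g`, after `k` steps, `o` of them odd -/
noncomputable def JG (d : ℤ) (Y : ℕ) (g : ℤ) (x : ℝ) (k : ℕ) (o : ℤ) : ℝ :=
  (((Icc (1 : ℤ) ⌊x⌋).filter (fun n => Hit d (FY Y) g n k ∧ od d k n = o)).card : ℝ)

/-- the relative size -/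
noncomputable def ag (d : ℤ) (F : Finset ℤ) (g : ℤ) : ℝ := g * 3 ^ ho d F g / 2 ^ ht d F g

theorem ag_pos {d : ℤ} {F : Finset ℤ} {g : ℤ} (hg : 1 ≤ g) : 0 < ag d F g := by
  unfold ag
  have : (0 : ℝ) < g := by exact_mod_cast (by omega : 0 < g)
  positivity

theorem log_ag {d : ℤ} {F : Finset ℤ} {g : ℤ} (hg : 1 ≤ g) :
    Real.log (ag d F g) = Real.log g + ho d F g * Real.log 3 - ht d F g * Real.log 2 := by
  have hgR : (0 : ℝ) < g := by exact_mod_cast (by omega : 0 < g)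
  unfold ag
  rw [Real.log_div (by positivity) (by positivity), Real.log_mul hgR.ne' (by positivity), Real.log_zpow,
    Real.log_pow]

/-- the number of elements of the shifted level -/
noncomputable def Ng (d : ℤ) (F : Finset ℤ) (Y : ℕ) (g : ℤ) (k : ℕ) (o : ℤ) : ℝ :=
  if ht d F g ≤ k then NN d (FY Y) g (k - ht d F g) (o - ho d F g) else 0

theorem split_J {d : ℤ} {F : Finset ℤ} {Y : ℕ} (hF : F ⊆ FY Y) (hY : |d| ≤ Y) (x : ℝ) (k : ℕ) (o : ℤ) :
    JF d F x k o = ∑ g ∈ GG d F Y, (if ht d F g ≤ k then JG d Y g x (k - ht d F g) (o - ho d F g) else 0) := by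
  classical
  have h0 : ∑ g ∈ GG d F Y, (if ht d F g ≤ k then JG d Y g x (k - ht d F g) (o - ho d F g) else 0) =
      ∑ g ∈ (GG d F Y).filter (fun g => ht d F g ≤ k), JG d Y g x (k - ht d F g) (o - ho d F g) := by
    rw [sum_filter]
  rw [h0]
  unfold JF JG
  have h1 : (Icc (1 : ℤ) ⌊x⌋).filter (fun n => n ∈ RR d F ∧ ht d F n = k ∧ ho d F n = o) =
      ((GG d F Y).filter (fun g => ht d F g ≤ k)).biUnion (fun g => (Icc (1 : ℤ) ⌊x⌋).filter
        (fun n => Hit d (FY Y) g n (k - ht d F g) ∧ od d (k - ht d F g) n = o - ho d F g)) := by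
    ext n
    rw [mem_biUnion, mem_filter, mem_Icc]
    constructor
    · rintro ⟨hn, hP, hk, ho'⟩
      obtain ⟨i, g, h2, h3⟩ := reach_split hF hP
      obtain ⟨_, h4, h5⟩ := reach_join hF h2 h3
      have h6 : k - ht d F g = i := by omega
      refine ⟨g, ?_, ?_⟩
      · rw [mem_filter, mem_GG]
        have hg := h2.2.1
        rw [mem_FY] at hg
        exact ⟨⟨⟨hit_pos hY hn.1 h2, hg.2⟩, h3⟩, by omega⟩
      · rw [mem_filter, mem_Icc, h6]
        exact ⟨hn, h2, by omega⟩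
    · rintro ⟨g, hg, hn⟩
      rw [mem_filter, mem_Icc] at hn
      obtain ⟨hn, h2, h3⟩ := hn
      rw [mem_filter, mem_GG] at hg
      obtain ⟨h6, h4, h5⟩ := reach_join hF h2 hg.1.2
      exact ⟨hn, h6, by omega, by omega⟩
  rw [h1, card_biUnion]
  · push_cast; rfl
  · intro g _ g' _ hne
    rw [Function.onFun, Finset.disjoint_left]
    intro n hn hn'
    rw [mem_filter] at hn hn'
    exact hne (Hit_unique hn.2.1 hn'.2.1).1

theorem JG_nonneg (d : ℤ) (Y : ℕ) (g : ℤ) (x : ℝ) (k : ℕ) (o : ℤ) : 0 ≤ JG d Y g x k o := by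
  unfold JG; positivity

/-- the count of one class -/
theorem JG_bounds {d : ℤ} (hd : Odd d) (hd3 : IsCoprime d 3) {Y : ℕ} {r : ℝ}
    (hr : ∀ (x g : ℤ) (j : ℕ), x ≠ 0 → Hit d (FY Y) g x j →
      g ≠ 0 ∧ |Real.log (x : ℝ) + od d j x * Real.log 3 - j * Real.log 2 - Real.log (g : ℝ)| ≤ r)
    (g : ℤ) {x : ℝ} (hx : 0 < x) (k : ℕ) (o : ℤ) :
    JG d Y g x k o ≤ NN d (FY Y) g k o ∧
    (Real.log x < k * Real.log 2 - o * Real.log 3 + Real.log g - r → JG d Y g x k o = 0) ∧
    (k * Real.log 2 - o * Real.log 3 + Real.log g + r ≤ Real.log x → NN d (FY Y) g k o ≤ JG d Y g x k o) := by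
  classical
  have hfin : {x : ℤ | 0 < x ∧ x ∈ SF d (FY Y) g k o}.Finite := SF_finite hd hd3 (FY Y) g k o
  have hNN : NN d (FY Y) g k o = ((hfin.toFinset).card : ℝ) := by
    unfold NN
    rw [Set.ncard_eq_toFinset_card _ hfin]
  refine ⟨?_, ?_, ?_⟩
  · rw [hNN]
    unfold JG
    have hsub : (Icc (1 : ℤ) ⌊x⌋).filter (fun n => Hit d (FY Y) g n k ∧ od d k n = o) ⊆ hfin.toFinset := by
      intro n hn
      rw [mem_filter, mem_Icc] at hn
      rw [Set.Finite.mem_toFinset]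
      exact ⟨by omega, SF_iff.2 hn.2⟩
    exact_mod_cast card_le_card hsub
  · intro hlt
    unfold JG
    rw [Nat.cast_eq_zero, card_eq_zero, filter_eq_empty_iff]
    rintro n hn ⟨h1, h2⟩
    rw [mem_Icc] at hn
    obtain ⟨_, h3⟩ := hr n g k (by omega) h1
    rw [h2] at h3
    have h4 := (abs_le.1 h3).1
    have hnR : (1 : ℝ) ≤ n := by exact_mod_cast hn.1
    have hnx : (n : ℝ) ≤ x := by
      have := Int.floor_le x
      have h5 : (n : ℝ) ≤ (⌊x⌋ : ℝ) := by exact_mod_cast hn.2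
      linarith
    have h6 : Real.log n ≤ Real.log x := Real.log_le_log (by linarith) hnx
    linarith
  · intro hge
    rw [hNN]
    unfold JG
    have hsub : hfin.toFinset ⊆ (Icc (1 : ℤ) ⌊x⌋).filter (fun n => Hit d (FY Y) g n k ∧ od d k n = o) := by
      intro n hn
      rw [Set.Finite.mem_toFinset] at hn
      obtain ⟨hn0, hn⟩ := hn
      obtain ⟨h1, h2⟩ := SF_iff.1 hn
      rw [mem_filter, mem_Icc]
      refine ⟨⟨by omega, ?_⟩, h1, h2⟩
      obtain ⟨_, h3⟩ := hr n g k (by omega) h1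
      rw [h2] at h3
      have h4 := (abs_le.1 h3).2
      have hnR : (0 : ℝ) < n := by exact_mod_cast hn0
      have h7 : Real.log n ≤ Real.log x := by linarith
      rw [Int.le_floor]
      exact (Real.log_le_log_iff hnR hx).1 h7
    exact_mod_cast card_le_card hsub

/-- the sandwich for the counts -/
theorem J_bounds {d : ℤ} (hd : Odd d) (hd3 : IsCoprime d 3) {F : Finset ℤ} {Y : ℕ} {r : ℝ} {u δ : ℤ → ℝ}
    (L : Lvl d F Y r u δ) (x : ℝ) (k : ℕ) (o : ℤ) :
    ∑ g ∈ GG d F Y, (if ag d F g * Real.exp r ≤ 3 ^ o * x / 2 ^ k then Ng d F Y g k o else 0) ≤ JF d F x k o ∧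
    JF d F x k o ≤
      ∑ g ∈ GG d F Y, (if ag d F g * Real.exp (-r) ≤ 3 ^ o * x / 2 ^ k then Ng d F Y g k o else 0) := by
  classical
  have hNN0 : ∀ g i o', 0 ≤ NN d (FY Y) g i o' := fun g i o' => by unfold NN; positivity
  have hN0 : ∀ g, 0 ≤ Ng d F Y g k o := by
    intro g
    unfold Ng
    split_ifs
    · exact hNN0 _ _ _
    · exact le_rfl
  rcases le_or_gt x 0 with hx | hx
  · -- nothing to count
    have hz : ∀ ρ : ℝ, ∀ g ∈ GG d F Y, ¬ (ag d F g * Real.exp ρ ≤ 3 ^ o * x / 2 ^ k) := by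
      intro ρ g hg hcon
      rw [mem_GG] at hg
      have h1 : 0 < ag d F g * Real.exp ρ := mul_pos (ag_pos hg.1.1) (Real.exp_pos _)
      have h2 : (3 : ℝ) ^ o * x / 2 ^ k ≤ 0 := by
        apply div_nonpos_of_nonpos_of_nonneg _ (by positivity)
        exact mul_nonpos_of_nonneg_of_nonpos (by positivity) hx
      linarith
    have e1 : ∀ ρ : ℝ, ∑ g ∈ GG d F Y, (if ag d F g * Real.exp ρ ≤ 3 ^ o * x / 2 ^ k then Ng d F Y g k o else 0) = 0 := by
      intro ρ
      apply sum_eq_zero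
      intro g hg
      rw [if_neg (hz ρ g hg)]
    have e2 : JF d F x k o = 0 := by
      unfold JF
      have : Icc (1 : ℤ) ⌊x⌋ = ∅ := by
        apply Icc_eq_empty
        intro hcon
        rw [Int.le_floor] at hcon
        push_cast at hcon
        linarith
      rw [this]; simp
    rw [e1, e1, e2]
    exact ⟨le_rfl, le_rfl⟩
  have hlog : ∀ ρ : ℝ, ∀ g ∈ GG d F Y, (ag d F g * Real.exp ρ ≤ 3 ^ o * x / 2 ^ k ↔
      Real.log g + ho d F g * Real.log 3 - ht d F g * Real.log 2 + ρ ≤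
        o * Real.log 3 + Real.log x - k * Real.log 2) := by
    intro ρ g hg
    rw [mem_GG] at hg
    have h1 := ag_pos (d := d) (F := F) hg.1.1
    have h2 : (0 : ℝ) < 3 ^ o * x / 2 ^ k := by positivity
    rw [← Real.log_le_log_iff (by positivity) h2, Real.log_mul h1.ne' (Real.exp_pos _).ne', Real.log_exp,
      log_ag hg.1.1, Real.log_div (by positivity) (by positivity), Real.log_mul (by positivity) hx.ne',
      Real.log_zpow, Real.log_pow]
  have hcast : ∀ g : ℤ, ht d F g ≤ k → (((k - ht d F g : ℕ)) : ℝ) = k - ht d F g := fun g h => Nat.cast_sub h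
  rw [split_J L.sub L.Yd]
  constructor
  · apply sum_le_sum
    intro g hg
    by_cases hk : ht d F g ≤ k
    · rw [if_pos hk]
      by_cases hc : ag d F g * Real.exp r ≤ 3 ^ o * x / 2 ^ k
      · rw [if_pos hc]
        unfold Ng
        rw [if_pos hk]
        apply (JG_bounds hd hd3 L.hit g hx _ _).2.2
        rw [hcast g hk]
        have := (hlog r g hg).1 hc
        push_cast
        linarith
      · rw [if_neg hc]
        exact JG_nonneg _ _ _ _ _ _
    · rw [if_neg hk]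
      unfold Ng
      rw [if_neg hk]
      split_ifs <;> exact le_rfl
  · apply sum_le_sum
    intro g hg
    by_cases hk : ht d F g ≤ k
    · rw [if_pos hk]
      by_cases hc : ag d F g * Real.exp (-r) ≤ 3 ^ o * x / 2 ^ k
      · rw [if_pos hc]
        unfold Ng
        rw [if_pos hk]
        exact (JG_bounds hd hd3 L.hit g hx _ _).1
      · rw [if_neg hc]
        apply le_of_eq
        apply (JG_bounds hd hd3 L.hit g hx _ _).2.1
        rw [hcast g hk]
        have := mt (hlog (-r) g hg).2 hc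
        push_cast
        linarith
    · rw [if_neg hk]
      split_ifs
      · exact hN0 g
      · exact le_rfl

/-- the limit for one class -/
theorem Ng_loc {d : ℤ} {F : Finset ℤ} {Y : ℕ} {r : ℝ} {u δ : ℤ → ℝ} (L : Lvl d F Y r u δ) (g : ℤ) :
    ∀ K ε : ℝ, 0 < ε → ∃ k0 : ℕ, ∀ (k : ℕ) (o : ℤ), k0 ≤ k → |2 * (o : ℝ) - k| ≤ K * Real.sqrt k →
      |Real.sqrt k * (Ng d F Y g k o * (3 : ℝ) ^ o / 2 ^ k)
        - (u g * 3 ^ ho d F g / 2 ^ ht d F g) * Real.exp (-(2 * (o : ℝ) - k) ^ 2 / (2 * k))| ≤ ε := by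
  intro K ε hε
  have h1 := Pool.Agent.R468.LL.term_lim (L.u0 g) (Loc_shift (L.loc g) (-ho d F g)) K (ht d F g)
  have h2 := h1.const_mul ((3 : ℝ) ^ ho d F g / 2 ^ ht d F g)
  rw [mul_zero] at h2
  have h3 := ((Metric.tendsto_nhds.1 h2) ε hε).and ((cen_fst K).eventually (eventually_ge_atTop (ht d F g)))
  unfold cen at h3
  rw [eventually_inf_principal, eventually_comap] at h3
  obtain ⟨k0, hk0⟩ := eventually_atTop.1 h3
  refine ⟨k0, fun k o hk ho' => ?_⟩
  obtain ⟨h4, h5⟩ := hk0 k hk (k, o) rfl ho'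
  simp only at h4 h5
  rw [Real.dist_eq, sub_zero] at h4
  refine le_trans (le_of_eq ?_) h4.le
  congr 1
  unfold Ng MM EE
  rw [if_pos h5]
  have e1 : (3 : ℝ) ^ o = 3 ^ (o + -ho d F g) * 3 ^ ho d F g := by
    rw [← zpow_add₀ (by norm_num)]; congr 1; ring
  have e2 : (2 : ℝ) ^ k = 2 ^ (k - ht d F g) * 2 ^ ht d F g := by
    rw [← pow_add, Nat.sub_add_cancel h5]
  rw [e1, e2, sub_eq_add_neg o]
  field_simp

end Pool.Agent.R468.GL
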