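import Pool.Agent.R468.GL.J1

/-!
Joint local limit law, part 2: the limiting function.
-/

set_option autoImplicit false

namespace Pool.Agent.R468.GL

open Filter Topology Finset
open Pool.Agent.H499R2.LT
open Pool.Agent.H499R2.ND (Td HD G pos mem_pos Dn)
open Pool.Agent.R468.LL (cen EE EE_pos EE_le_one cen_fst cen_dev tendsto_cen Loc lam lam_eq lam_pos lam_lt mem_FY
  rad rad_lim hd_nn exp_r log3_gz)

variable (d : ℤ) (F : Finset ℤ)

/-- the weight -/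
noncomputable def wt (u : ℤ → ℝ) (g : ℤ) : ℝ := u g * 3 ^ ho d F g / 2 ^ ht d F g * Real.sqrt (Real.pi / 2)

theorem wt_nonneg {u : ℤ → ℝ} (hu : ∀ g, 0 ≤ u g) (g : ℤ) : 0 ≤ wt d F u g := by
  unfold wt
  have := hu g
  positivity

/-- the step functions -/
noncomputable def VY (u : ℤ → ℝ) (Y : ℕ) (r t : ℝ) : ℝ :=
  ∑ g ∈ GG d F Y, (if ag d F g * Real.exp r ≤ t then wt d F u g else 0)

theorem VY_mono {u : ℤ → ℝ} (hu : ∀ g, 0 ≤ u g) (Y : ℕ) (r : ℝ) : Monotone (VY d F u Y r) := by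
  intro t t' htt
  unfold VY
  apply sum_le_sum
  intro g _
  by_cases h : ag d F g * Real.exp r ≤ t
  · rw [if_pos h, if_pos (h.trans htt)]
  · rw [if_neg h]
    split_ifs
    · exact wt_nonneg d F hu g
    · exact le_rfl

theorem VY_nonneg {u : ℤ → ℝ} (hu : ∀ g, 0 ≤ u g) (Y : ℕ) (r t : ℝ) : 0 ≤ VY d F u Y r t := by
  unfold VY
  apply sum_nonneg
  intro g _
  split_ifs
  · exact wt_nonneg d F hu g
  · exact le_rfl

theorem VY_le {u : ℤ → ℝ} (hu : ∀ g, 0 ≤ u g) (Y : ℕ) (r t : ℝ) : VY d F u Y r t ≤ ∑ g ∈ GG d F Y, wt d F u g := by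
  unfold VY
  apply sum_le_sum
  intro g _
  split_ifs
  · exact le_rfl
  · exact wt_nonneg d F hu g

variable {d} {F}

/-- the sandwich -/
theorem sandwichJ (hd : Odd d) (hd3 : IsCoprime d 3) {Y : ℕ} {r : ℝ} {u δ : ℤ → ℝ}
    (L : Lvl d F Y r u δ) (K : ℝ) {ε : ℝ} (hε : 0 < ε) :
    ∃ k0 : ℕ, ∀ k o : ℕ, k0 ≤ k → |2 * (o : ℝ) - k| ≤ K * Real.sqrt k → ∀ x : ℝ,
      VY d F u Y r (3 ^ o * x / 2 ^ k) - ε ≤ JF d F x k o * 3 ^ o / (k.choose o : ℝ) ∧
      JF d F x k o * 3 ^ o / (k.choose o : ℝ) ≤ VY d F u Y (-r) (3 ^ o * x / 2 ^ k) + ε := by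
  classical
  set n : ℕ := (GG d F Y).card with hn
  have hε' : 0 < ε / (n + 1) := by positivity
  have hu0 : ∀ g, 0 ≤ u g * 3 ^ ho d F g / 2 ^ ht d F g := by
    intro g
    have := L.u0 g
    positivity
  choose k0 hk0 using fun g : ℤ => llt_binom (hu0 g) (Ng_loc L g) K (ε / (n + 1)) hε'
  refine ⟨∑ g ∈ GG d F Y, k0 g, fun k o hk ho' x => ?_⟩
  have hkg : ∀ g ∈ GG d F Y, |Ng d F Y g k o * 3 ^ o / (k.choose o : ℝ) - wt d F u g| ≤ ε / (n + 1) := by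
    intro g hg
    have h1 : k0 g ≤ ∑ g ∈ GG d F Y, k0 g := single_le_sum (f := k0) (fun _ _ => Nat.zero_le _) hg
    exact hk0 g k o (h1.trans hk) ho'
  obtain ⟨h1, h2⟩ := J_bounds hd hd3 L x k (o : ℤ)
  simp only [zpow_natCast] at h1 h2
  have hc : (0 : ℝ) ≤ 3 ^ o / (k.choose o : ℝ) := by positivity
  have hsum : ∀ ρ : ℝ, |(∑ g ∈ GG d F Y, (if ag d F g * Real.exp ρ ≤ 3 ^ o * x / 2 ^ k then Ng d F Y g k o else 0)) *
      (3 ^ o / (k.choose o : ℝ)) - VY d F u Y ρ (3 ^ o * x / 2 ^ k)| ≤ ε := by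
    intro ρ
    unfold VY
    rw [sum_mul, ← sum_sub_distrib]
    refine (abs_sum_le_sum_abs _ _).trans ?_
    calc ∑ g ∈ GG d F Y, |(if ag d F g * Real.exp ρ ≤ 3 ^ o * x / 2 ^ k then Ng d F Y g k o else 0) *
          (3 ^ o / (k.choose o : ℝ)) - (if ag d F g * Real.exp ρ ≤ 3 ^ o * x / 2 ^ k then wt d F u g else 0)|
        ≤ ∑ g ∈ GG d F Y, ε / (n + 1) := by
          apply sum_le_sum
          intro g hg
          split_ifs
          · rw [mul_div_assoc']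
            exact hkg g hg
          · rw [zero_mul, sub_zero, abs_zero]; exact hε'.le
      _ = n * (ε / (n + 1)) := by rw [sum_const, nsmul_eq_mul]
      _ ≤ ε := by
          rw [mul_div_assoc', div_le_iff₀ (by positivity)]
          nlinarith
  have e : JF d F x k o * 3 ^ o / (k.choose o : ℝ) = JF d F x k o * (3 ^ o / (k.choose o : ℝ)) :=
    mul_div_assoc _ _ _
  rw [e]
  constructor
  · have h3 := mul_le_mul_of_nonneg_right h1 hc
    have h4 := (abs_le.1 (hsum r)).1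
    linarith
  · have h3 := mul_le_mul_of_nonneg_right h2 hc
    have h4 := (abs_le.1 (hsum (-r))).2
    linarith

theorem lo_le_upJ (hd : Odd d) (hd3 : IsCoprime d 3) {Y Y' : ℕ} {r r' : ℝ} {u δ u' δ' : ℤ → ℝ}
    (L : Lvl d F Y r u δ) (L' : Lvl d F Y' r' u' δ') (t : ℝ) :
    VY d F u Y r t ≤ VY d F u' Y' (-r') t := by
  apply le_of_forall_pos_le_add
  intro ε hε
  obtain ⟨k1, h1⟩ := sandwichJ hd hd3 L 1 (show 0 < ε / 2 by linarith)
  obtain ⟨k2, h2⟩ := sandwichJ hd hd3 L' 1 (show 0 < ε / 2 by linarith)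
  set k : ℕ := max (max k1 k2) 1 with hk
  have hk1 : k1 ≤ k := (le_max_left _ _).trans (le_max_left _ _)
  have hk2 : k2 ≤ k := (le_max_right _ _).trans (le_max_left _ _)
  have hk3 : 1 ≤ k := le_max_right _ _
  have ho' : |2 * ((k / 2 : ℕ) : ℝ) - k| ≤ 1 * Real.sqrt k := by
    have h3 : (1 : ℝ) ≤ Real.sqrt k := by
      rw [Real.one_le_sqrt]; exact_mod_cast hk3
    have h4 : (2 * ((k / 2 : ℕ) : ℝ)) ≤ k := by
      have : 2 * (k / 2) ≤ k := by omega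
      exact_mod_cast this
    have h5 : (k : ℝ) ≤ 2 * ((k / 2 : ℕ) : ℝ) + 1 := by
      have : k ≤ 2 * (k / 2) + 1 := by omega
      exact_mod_cast this
    rw [abs_le]
    constructor <;> linarith
  have e : (3 : ℝ) ^ (k / 2) * (t * 2 ^ k / 3 ^ (k / 2)) / 2 ^ k = t := by
    field_simp
  have h3 := (h1 k (k / 2) hk1 ho' (t * 2 ^ k / 3 ^ (k / 2))).1
  have h4 := (h2 k (k / 2) hk2 ho' (t * 2 ^ k / 3 ^ (k / 2))).2
  rw [e] at h3 h4
  linarith

/-- the size of the elements -/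
theorem ag_size (hd : Odd d) (hd3 : ¬ (3 : ℤ) ∣ d) (F : Finset ℤ) : ∃ A : ℝ, 1 ≤ A ∧ ∀ (Y : ℕ), ∀ g ∈ GG d F Y,
    1 / A ≤ ag d F g ∧ ag d F g ≤ A := by
  obtain ⟨A, hA, h⟩ := lev_size hd hd3 (s := 1) F
  refine ⟨A, hA, fun Y g hg => ?_⟩
  rw [mem_GG] at hg
  obtain ⟨g1, g2⟩ := ht_spec hg.2
  have hho : 0 ≤ ho d F g := (od_bd d (ht d F g) g).1
  obtain ⟨o, ho'⟩ := Int.eq_ofNat_of_zero_le hho
  have hgR : (0 : ℝ) < g := by exact_mod_cast (by omega : 0 < g)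
  obtain ⟨h1, h2⟩ := h (ht d F g) o g ⟨by omega, g1, g2, ho'⟩
  rw [abs_of_pos hgR] at h1 h2
  have hA0 : 0 < A := by linarith
  unfold ag
  rw [ho', zpow_natCast]
  constructor
  · rw [div_le_div_iff₀ hA0 (by positivity)]
    rw [div_le_iff₀ (by positivity)] at h1
    linarith
  · rw [div_le_iff₀ (by positivity)]
    rw [le_div_iff₀ (by positivity)] at h2
    exact h2

/-- the weights and the densities -/
theorem wt_eq {u : ℤ → ℝ} {g : ℤ} (hg : 1 ≤ g) :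
    wt d F u g = ag d F g * (Real.sqrt (Real.pi / 2) * (1 - qr PO) / Real.sqrt (lam / 2) * bw PO u g) := by
  have hgR : (0 : ℝ) < g := by exact_mod_cast (by omega : 0 < g)
  have hq := oq_pos PO
  have hs0 : 0 < Real.sqrt (lam / 2) := Real.sqrt_pos.2 (by have := lam_pos; linarith)
  unfold wt ag bw
  rw [Real.exp_neg, Real.exp_log hgR]
  field_simp

theorem cst_half : Real.sqrt (Real.pi / 2) * (1 - qr PO) / Real.sqrt (lam / 2) * cst PO = lam / 2 := by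
  have hq := oq_pos PO
  have hlam := lam_pos
  have hs0 : 0 < Real.sqrt (lam / 2) := Real.sqrt_pos.2 (by linarith)
  have hpi := Real.pi_pos
  unfold cst
  rw [log3_gz, Real.sqrt_div hpi.le, Real.sqrt_mul (by norm_num : (0 : ℝ) ≤ 2)]
  have h1 := Real.sqrt_pos.2 hpi
  have h2 : 0 < Real.sqrt 2 := Real.sqrt_pos.2 (by norm_num)
  have h3 : Real.sqrt 2 ^ 2 = 2 := Real.sq_sqrt (by norm_num)
  field_simp
  rw [h3]

/-- the complete data for the joint law -/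
structure DatJ (d : ℤ) (F : Finset ℤ) (Y0 : ℕ) (A C D : ℝ) (u δ : ℕ → ℤ → ℝ) (η : ℕ → ℝ) : Prop where
  A1 : 1 ≤ A
  lvl : ∀ Y, Y0 ≤ Y → Lvl d F Y (rad C Y) (u Y) (δ Y)
  rpos : ∀ Y, Y0 ≤ Y → 0 < rad C Y
  rle : ∀ Y, Y0 ≤ Y → rad C Y ≤ 1 / 10
  size : ∀ Y, ∀ g ∈ GG d F Y, 1 / A ≤ ag d F g ∧ ag d F g ≤ A
  lo : ∀ Y, Y0 ≤ Y → ∀ g ∈ GG d F Y,
    lam / 2 * (Real.exp (-rad C Y) * (1 - 2 * rad C Y)) * δ Y g ≤ wt d F (u Y) g / ag d F g
  up : ∀ Y, Y0 ≤ Y → ∀ g ∈ GG d F Y,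
    wt d F (u Y) g / ag d F g ≤ lam / 2 * (Real.exp (rad C Y) * (1 + 2 * rad C Y)) * δ Y g
  sum : ∀ Y, Y0 ≤ Y → ∑ g ∈ GG d F Y, δ Y g = D
  eta : Tendsto η atTop (𝓝 0)
  osc : ∀ Y, Y0 ≤ Y → ∀ t t' : ℝ, 0 < t → 0 < t' → |Real.log t' - Real.log t| ≤ rad C Y →
    VY d F (u Y) Y (-rad C Y) t' - VY d F (u Y) Y (rad C Y) t ≤ η Y

theorem datJ_exists (hd : Odd d) (hd3 : ¬ (3 : ℤ) ∣ d) (F : Finset ℤ) :
    ∃ (D : ℝ) (Y0 : ℕ) (A C : ℝ) (u δ : ℕ → ℤ → ℝ) (η : ℕ → ℝ), HD 1 (RR d F) D ∧ DatJ d F Y0 A C D u δ η := by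
  classical
  have hc3 := Pool.Agent.H499R2.ND.cop_of_not_dvd hd3
  obtain ⟨A, hA, hsize⟩ := ag_size hd hd3 F
  obtain ⟨C, Y0, u, δ, hC, hY0, h⟩ := fam PO hd hc3 F
  obtain ⟨K, Y1, hK, hY1, hbad⟩ := bad_mass PO hd hc3 F (2 * C) (by positivity)
  have hlam := lam_pos
  have hq := oq_pos PO
  have hs0 : 0 < Real.sqrt (lam / 2) := Real.sqrt_pos.2 (by linarith)
  set D : ℝ := ∑ g ∈ GG d F Y0, δ Y0 g with hDdef
  have hmass : ∀ Y, Y0 ≤ Y → HD 1 (RR d F) (∑ g ∈ GG d F Y, δ Y g) := fun Y hY =>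
    mass (h Y hY).1.sub (h Y hY).1.Yd (h Y hY).1.den
  have hD : HD 1 (RR d F) D := hmass Y0 le_rfl
  have hsum : ∀ Y, Y0 ≤ Y → ∑ g ∈ GG d F Y, δ Y g = D := by
    intro Y hY
    have h1 := hmass Y hY
    unfold HD at h1 hD
    exact tendsto_nhds_unique h1 hD
  set κ : ℝ := Real.sqrt (Real.pi / 2) * (1 - qr PO) / Real.sqrt (lam / 2) with hκ
  have hκ0 : 0 ≤ κ := by positivity
  have hcst : κ * cst PO = lam / 2 := cst_half
  have hwa : ∀ Y, ∀ g ∈ GG d F Y, wt d F (u Y) g / ag d F g = κ * bw PO (u Y) g := by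
    intro Y g hg
    rw [mem_GG] at hg
    have h1 := ag_pos (d := d) (F := F) hg.1.1
    rw [wt_eq hg.1.1, mul_div_assoc, mul_comm, div_mul_cancel₀ _ h1.ne']
  have hlo : ∀ Y, Y0 ≤ Y → ∀ g ∈ GG d F Y,
      lam / 2 * (Real.exp (-rad C Y) * (1 - 2 * rad C Y)) * δ Y g ≤ wt d F (u Y) g / ag d F g := by
    intro Y hY g hg
    rw [hwa Y g hg, ← hcst]
    have := mul_le_mul_of_nonneg_left ((h Y hY).2.2.2 g hg).1 hκ0
    linarith
  have hup : ∀ Y, Y0 ≤ Y → ∀ g ∈ GG d F Y,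
      wt d F (u Y) g / ag d F g ≤ lam / 2 * (Real.exp (rad C Y) * (1 + 2 * rad C Y)) * δ Y g := by
    intro Y hY g hg
    rw [hwa Y g hg, ← hcst]
    have := mul_le_mul_of_nonneg_left ((h Y hY).2.2.2 g hg).2 hκ0
    linarith
  have hlog : Tendsto (fun Y : ℕ => Real.log ((Y : ℝ) / 2)) atTop atTop :=
    Real.tendsto_log_atTop.comp (tendsto_natCast_atTop_atTop.atTop_div_const (by norm_num))
  have heta : Tendsto (fun Y : ℕ => lam * A * (K / Real.log ((Y : ℝ) / 2))) atTop (𝓝 (lam * A * 0)) :=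
    (tendsto_const_nhds.div_atTop hlog).const_mul (lam * A)
  rw [mul_zero] at heta
  refine ⟨D, max Y0 Y1, A, C, u, δ, fun Y => lam * A * (K / Real.log ((Y : ℝ) / 2)), hD, ?_⟩
  refine ⟨hA, fun Y hY => (h Y ((le_max_left _ _).trans hY)).1, fun Y hY => (h Y ((le_max_left _ _).trans hY)).2.1,
    fun Y hY => (h Y ((le_max_left _ _).trans hY)).2.2.1, hsize,
    fun Y hY => hlo Y ((le_max_left _ _).trans hY), fun Y hY => hup Y ((le_max_left _ _).trans hY),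
    fun Y hY => hsum Y ((le_max_left _ _).trans hY), heta, ?_⟩
  intro Y hY t t' ht0 ht0' htt
  have hY' : Y0 ≤ Y := (le_max_left _ _).trans hY
  obtain ⟨hL, hr0, hr1, _⟩ := h Y hY'
  obtain ⟨_, he2⟩ := exp_r hr0.le hr1
  have hδ0 : ∀ g, 0 ≤ δ Y g := fun g => hd_nn (hL.den g)
  -- the weights
  have hw : ∀ g ∈ GG d F Y, wt d F (u Y) g ≤ lam * A * δ Y g := by
    intro g hg
    have h1 := hup Y hY' g hg
    obtain ⟨_, h2⟩ := hsize Y g hg
    rw [mem_GG] at hg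
    have h3 := ag_pos (d := d) (F := F) hg.1.1
    rw [div_le_iff₀ h3] at h1
    have h4 : lam / 2 * (Real.exp (rad C Y) * (1 + 2 * rad C Y)) ≤ lam / 2 * 2 :=
      mul_le_mul_of_nonneg_left he2 (by linarith)
    have h5 : lam / 2 * (Real.exp (rad C Y) * (1 + 2 * rad C Y)) * δ Y g ≤ lam * δ Y g := by
      have := mul_le_mul_of_nonneg_right h4 (hδ0 g)
      linarith
    calc wt d F (u Y) g ≤ lam / 2 * (Real.exp (rad C Y) * (1 + 2 * rad C Y)) * δ Y g * ag d F g := h1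
      _ ≤ lam * δ Y g * ag d F g := mul_le_mul_of_nonneg_right h5 h3.le
      _ ≤ lam * δ Y g * A := mul_le_mul_of_nonneg_left h2 (mul_nonneg hlam.le (hδ0 g))
      _ = _ := by ring
  set S := (GG d F Y).filter (fun g => ag d F g * Real.exp (-rad C Y) ≤ t' ∧ ¬ (ag d F g * Real.exp (rad C Y) ≤ t))
    with hS
  have h1 : VY d F (u Y) Y (-rad C Y) t' - VY d F (u Y) Y (rad C Y) t ≤ ∑ g ∈ S, wt d F (u Y) g := by
    unfold VY
    rw [← sum_sub_distrib, hS, sum_filter]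
    apply sum_le_sum
    intro g _
    have hw0 := wt_nonneg d F hL.u0 g
    by_cases h2 : ag d F g * Real.exp (-rad C Y) ≤ t'
    · by_cases h3 : ag d F g * Real.exp (rad C Y) ≤ t
      · rw [if_pos h2, if_pos h3, if_neg (fun h => h.2 h3)]
        linarith
      · rw [if_pos h2, if_neg h3, if_pos ⟨h2, h3⟩]
        linarith
    · have h4 : ¬ (ag d F g * Real.exp (-rad C Y) ≤ t' ∧ ¬ (ag d F g * Real.exp (rad C Y) ≤ t)) :=
        fun h => h2 h.1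
      rw [if_neg h2, if_neg h4]
      split_ifs <;> linarith
  have h2 : ∑ g ∈ S, δ Y g ≤ K / Real.log ((Y : ℝ) / 2) := by
    apply hbad Y ((le_max_right _ _).trans hY) (Real.log t' / Real.log 2) (δ Y) hL.den S
    intro g hg
    rw [hS, mem_filter] at hg
    obtain ⟨hgG, h3, h4⟩ := hg
    refine ⟨hgG, -(ht d F g : ℤ), ?_⟩
    rw [mem_GG] at hgG
    have hag := ag_pos (d := d) (F := F) hgG.1.1
    have h5 : Real.log (ag d F g) - rad C Y ≤ Real.log t' := by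
      have := Real.log_le_log (by positivity) h3
      rwa [Real.log_mul hag.ne' (Real.exp_pos _).ne', Real.log_exp] at this
    have h6 : Real.log t ≤ Real.log (ag d F g) + rad C Y := by
      have := Real.log_le_log ht0 (not_le.1 h4).le
      rwa [Real.log_mul hag.ne' (Real.exp_pos _).ne', Real.log_exp] at this
    have h7 := abs_le.1 htt
    have hl2 : Real.log 2 ≠ 0 := (Real.log_pos (by norm_num)).ne'
    have e : Real.log t' / Real.log 2 * ww PO - lV PO d F g - ((-(ht d F g : ℤ) : ℤ) : ℝ) * ww PO =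
        Real.log t' - Real.log (ag d F g) := by
      rw [log_ag hgG.1.1, ww_PO]
      unfold lV st
      rw [kap_PO]
      have h8 : (PO.α : ℤ) = 1 := rfl
      have h9 : (PO.β : ℤ) = 0 := rfl
      rw [h8, h9]
      push_cast
      field_simp
      ring
    rw [e]
    have e2 : 2 * C / (Y : ℝ) ^ (1 / 25 : ℝ) = 2 * rad C Y := by unfold rad; ring
    rw [e2, abs_le]
    constructor <;> linarith
  calc _ ≤ _ := h1
    _ ≤ ∑ g ∈ S, lam * A * δ Y g := sum_le_sum fun g hg => hw g (mem_filter.1 hg).1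
    _ = lam * A * ∑ g ∈ S, δ Y g := by rw [mul_sum]
    _ ≤ lam * A * (K / Real.log ((Y : ℝ) / 2)) := mul_le_mul_of_nonneg_left h2 (by positivity)

end Pool.Agent.R468.GL
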