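import Pool.Agent.R468.GL.J2

/-!
Joint local limit law, part 3: the theorem.
-/

set_option autoImplicit false

namespace Pool.Agent.R468.GL

open Filter Topology Finset
open Pool.Agent.H499R2.LT
open Pool.Agent.H499R2.ND (Td HD G pos mem_pos Dn cop_of_not_dvd side_odd side_cop)
open Pool.Agent.R468.LL (lam lam_eq lam_pos lam_lt mem_FY rad rad_lim hd_nn exp_r)
open MeasureTheory

/-! ### the integral of a step -/

theorem step_eq (a w : ℝ) (ha : 0 < a) : (fun t : ℝ => (if a ≤ t then w else 0) / t ^ 2) =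
    (Set.Ici a).indicator (fun t : ℝ => w * t ^ (-2 : ℝ)) := by
  funext t
  by_cases h : a ≤ t
  · rw [if_pos h, Set.indicator_of_mem (Set.mem_Ici.2 h), Real.rpow_neg (by linarith),
      show ((2 : ℝ)) = ((2 : ℕ) : ℝ) by norm_num, Real.rpow_natCast]
    rfl
  · rw [if_neg h, Set.indicator_of_notMem (fun h' => h (Set.mem_Ici.1 h')), zero_div]

theorem step_int (a w : ℝ) (ha : 0 < a) :
    IntegrableOn (fun t : ℝ => (if a ≤ t then w else 0) / t ^ 2) (Set.Ioi 0) ∧
    ∫ t in Set.Ioi (0 : ℝ), (if a ≤ t then w else 0) / t ^ 2 = w / a := by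
  have h0 : IntegrableOn (fun t : ℝ => t ^ (-2 : ℝ)) (Set.Ici a) := by
    rw [integrableOn_Ici_iff_integrableOn_Ioi]
    exact integrableOn_Ioi_rpow_of_lt (by norm_num) ha
  have hsub : Set.Ioi (0 : ℝ) ∩ Set.Ici a = Set.Ici a := by
    ext t
    simp only [Set.mem_inter_iff, Set.mem_Ioi, Set.mem_Ici]
    constructor
    · exact fun h => h.2
    · exact fun h => ⟨by linarith, h⟩
  rw [step_eq a w ha]
  constructor
  · rw [IntegrableOn, integrable_indicator_iff measurableSet_Ici, IntegrableOn,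
      Measure.restrict_restrict measurableSet_Ici, Set.inter_comm, hsub]
    exact h0.const_mul w
  · rw [setIntegral_indicator measurableSet_Ici, hsub, integral_Ici_eq_integral_Ioi, integral_const_mul,
      integral_Ioi_rpow_of_lt (by norm_num) ha]
    have e : (-2 : ℝ) + 1 = -1 := by norm_num
    rw [e, Real.rpow_neg_one]
    field_simp

variable {d : ℤ} {F : Finset ℤ}

theorem VY_int {u : ℤ → ℝ} (Y : ℕ) (r : ℝ) :
    IntegrableOn (fun t : ℝ => VY d F u Y r t / t ^ 2) (Set.Ioi 0) ∧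
    ∫ t in Set.Ioi (0 : ℝ), VY d F u Y r t / t ^ 2 =
      Real.exp (-r) * ∑ g ∈ GG d F Y, wt d F u g / ag d F g := by
  have hE := Real.exp_pos r
  have e : (fun t : ℝ => VY d F u Y r t / t ^ 2) = fun t : ℝ => ∑ g ∈ GG d F Y,
      (if ag d F g * Real.exp r ≤ t then wt d F u g else 0) / t ^ 2 := by
    funext t
    unfold VY
    rw [sum_div]
  have hpos : ∀ g ∈ GG d F Y, 0 < ag d F g * Real.exp r := by
    intro g hg
    rw [mem_GG] at hg
    exact mul_pos (ag_pos hg.1.1) hE
  rw [e]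
  constructor
  · exact integrable_finsetSum _ fun g hg => (step_int _ _ (hpos g hg)).1
  · rw [integral_finsetSum _ fun g hg => (step_int _ _ (hpos g hg)).1, mul_sum]
    apply sum_congr rfl
    intro g hg
    rw [(step_int _ _ (hpos g hg)).2, Real.exp_neg]
    rw [mem_GG] at hg
    have := ag_pos (d := d) (F := F) hg.1.1
    field_simp

/-- THE JOINT LOCAL LIMIT LAW, positive integers -/
theorem joint (hd : Odd d) (hd3 : ¬ (3 : ℤ) ∣ d) (F : Finset ℤ) :
    ∃ (D A : ℝ) (V : ℝ → ℝ), HD 1 (RR d F) D ∧ 1 ≤ A ∧ Continuous V ∧ Monotone V ∧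
    (∀ t, t ≤ 1 / A → V t = 0) ∧ (∀ t, A ≤ t → V t = V A) ∧
    (∫ t in Set.Ioi (0 : ℝ), V t / t ^ 2 = Real.log (4 / 3) / 2 * D) ∧
    ∀ K ε : ℝ, 0 < ε → ∃ k0 : ℕ, ∀ k o : ℕ, k0 ≤ k → |2 * (o : ℝ) - k| ≤ K * Real.sqrt k → ∀ x : ℝ,
      |JF d F x k o * 3 ^ o / (k.choose o : ℝ) - V (3 ^ o * x / 2 ^ k)| ≤ ε := by
  classical
  have hc3 := cop_of_not_dvd hd3
  obtain ⟨D, Y0, A, C, u, δ, η, hD, H⟩ := datJ_exists hd hd3 F
  have hD0 : 0 ≤ D := hd_nn hD
  have hlam := lam_pos
  have hA0 : 0 < A := by linarith [H.A1]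
  set lo : ℕ → ℝ → ℝ := fun Y t => VY d F (u Y) Y (rad C Y) t with hlo
  set up : ℕ → ℝ → ℝ := fun Y t => VY d F (u Y) Y (-rad C Y) t with hup
  have hle : ∀ Y, Y0 ≤ Y → ∀ Y', Y0 ≤ Y' → ∀ t, lo Y t ≤ up Y' t := fun Y hY Y' hY' t =>
    lo_le_upJ hd hc3 (H.lvl Y hY) (H.lvl Y' hY') t
  set V : ℝ → ℝ := fun t => ⨆ n : ℕ, lo (Y0 + n) t with hV
  have hbdd : ∀ t, BddAbove (Set.range fun n : ℕ => lo (Y0 + n) t) := by
    intro t
    refine ⟨up Y0 t, ?_⟩
    rintro _ ⟨n, rfl⟩
    exact hle _ (Nat.le_add_right _ _) _ le_rfl t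
  have hV1 : ∀ Y, Y0 ≤ Y → ∀ t, lo Y t ≤ V t := by
    intro Y hY t
    obtain ⟨n, rfl⟩ := Nat.exists_eq_add_of_le hY
    exact le_ciSup (hbdd t) n
  have hV2 : ∀ Y, Y0 ≤ Y → ∀ t, V t ≤ up Y t := by
    intro Y hY t
    exact ciSup_le fun n => hle _ (Nat.le_add_right _ _) _ hY t
  have hosc : ∀ Y, Y0 ≤ Y → ∀ t t' : ℝ, 0 < t → 0 < t' → |Real.log t' - Real.log t| ≤ rad C Y →
      up Y t' - lo Y t ≤ η Y := fun Y hY t t' h1 h2 h3 => H.osc Y hY t t' h1 h2 h3
  have hr := rad_lim C
  -- monotone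
  have hmono : Monotone V := by
    intro t t' htt
    apply ciSup_mono (hbdd t')
    intro n
    exact VY_mono d F (H.lvl _ (Nat.le_add_right _ _)).u0 _ _ htt
  -- zero
  have hzero : ∀ t, t ≤ 1 / A → V t = 0 := by
    intro t ht
    have h1 : ∀ n : ℕ, lo (Y0 + n) t = 0 := by
      intro n
      rw [hlo]
      simp only
      unfold VY
      apply sum_eq_zero
      intro g hg
      rw [if_neg]
      intro hcon
      have h2 := (H.size _ g hg).1
      have h3 := H.rpos (Y0 + n) (Nat.le_add_right _ _)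
      have h4 : 1 < Real.exp (rad C (Y0 + n)) := Real.one_lt_exp_iff.2 h3
      have h5 : 0 < 1 / A := by positivity
      nlinarith
    change ⨆ n : ℕ, lo (Y0 + n) t = 0
    simp only [h1]
    exact ciSup_const
  -- constant
  have hconst : ∀ t, 2 * A ≤ t → V t = V (2 * A) := by
    intro t ht
    have h1 : ∀ n : ℕ, lo (Y0 + n) t = lo (Y0 + n) (2 * A) := by
      intro n
      rw [hlo]
      simp only
      unfold VY
      apply sum_congr rfl
      intro g hg
      have h2 := (H.size _ g hg).2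
      have h3 := H.rle (Y0 + n) (Nat.le_add_right _ _)
      have h4 : Real.exp (rad C (Y0 + n)) ≤ 2 := by
        have h5 := Real.exp_le_exp.2 h3
        have h6 : Real.exp (1 / 10) ≤ 2 := by
          have h7 := Real.exp_bound' (x := (1 / 10 : ℝ)) (by norm_num) (by norm_num) (n := 1) (by norm_num)
          simp at h7
          linarith
        linarith
      have h5 : ag d F g * Real.exp (rad C (Y0 + n)) ≤ 2 * A := by
        have h6 := Real.exp_pos (rad C (Y0 + n))
        calc ag d F g * Real.exp (rad C (Y0 + n)) ≤ A * 2 :=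
              mul_le_mul h2 h4 h6.le hA0.le
          _ = 2 * A := by ring
      rw [if_pos (h5.trans ht), if_pos h5]
    change ⨆ n : ℕ, lo (Y0 + n) t = ⨆ n : ℕ, lo (Y0 + n) (2 * A)
    congr 1
    funext n
    exact h1 n
  -- continuity
  have hcont : Continuous V := by
    rw [continuous_iff_continuousAt]
    intro t
    rcases lt_or_ge t (1 / A) with ht | ht
    · have h1 : V =ᶠ[𝓝 t] fun _ => 0 := by
        filter_upwards [Iio_mem_nhds ht] with t' ht'
        exact hzero t' (le_of_lt ht')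
      exact (continuousAt_const).congr h1.symm
    · have ht0 : 0 < t := lt_of_lt_of_le (by positivity) ht
      rw [Metric.continuousAt_iff']
      intro ε hε
      obtain ⟨Y, hY1, hY2⟩ := ((H.eta.eventually (gt_mem_nhds hε)).and (eventually_ge_atTop Y0)).exists
      have hlogc : ContinuousAt Real.log t := Real.continuousAt_log ht0.ne'
      rw [Metric.continuousAt_iff'] at hlogc
      filter_upwards [hlogc (rad C Y) (H.rpos Y hY2), Ioi_mem_nhds ht0] with t' h1 h2
      rw [Real.dist_eq] at h1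
      have h3 := hosc Y hY2 t t' ht0 h2 h1.le
      have h4 := hosc Y hY2 t' t h2 ht0 (by rw [abs_sub_comm]; exact h1.le)
      rw [Real.dist_eq, abs_lt]
      constructor
      · linarith [hV1 Y hY2 t', hV2 Y hY2 t]
      · linarith [hV1 Y hY2 t, hV2 Y hY2 t']
  have hV0 : ∀ t, 0 ≤ V t := by
    intro t
    exact (VY_nonneg d F (H.lvl Y0 le_rfl).u0 _ _ _).trans (hV1 Y0 le_rfl t)
  -- integrability
  have hVint : IntegrableOn (fun t : ℝ => V t / t ^ 2) (Set.Ioi 0) := by
    have h1 := (step_int (1 / A) (V (2 * A)) (by positivity)).1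
    refine Integrable.mono' h1 ?_ ?_
    · exact ((hcont.measurable).div ((measurable_id.pow_const 2))).aestronglyMeasurable
    · refine Filter.Eventually.of_forall fun t => ?_
      rw [Real.norm_eq_abs, abs_of_nonneg (div_nonneg (hV0 t) (sq_nonneg t))]
      apply div_le_div_of_nonneg_right _ (sq_nonneg t)
      by_cases h2 : 1 / A ≤ t
      · rw [if_pos h2]
        rcases le_total t (2 * A) with h3 | h3
        · exact hmono h3
        · rw [hconst t h3]
      · rw [if_neg h2, hzero t (not_le.1 h2).le]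
  have hmasslo : ∀ Y, Y0 ≤ Y → lam / 2 * (Real.exp (-rad C Y) * (1 - 2 * rad C Y)) * D ≤
      ∑ g ∈ GG d F Y, wt d F (u Y) g / ag d F g := by
    intro Y hY
    rw [← H.sum Y hY, mul_sum]
    exact sum_le_sum (H.lo Y hY)
  have hmassup : ∀ Y, Y0 ≤ Y → ∑ g ∈ GG d F Y, wt d F (u Y) g / ag d F g ≤
      lam / 2 * (Real.exp (rad C Y) * (1 + 2 * rad C Y)) * D := by
    intro Y hY
    rw [← H.sum Y hY, mul_sum]
    exact sum_le_sum (H.up Y hY)
  have hintegral : ∫ t in Set.Ioi (0 : ℝ), V t / t ^ 2 = lam / 2 * D := by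
    apply le_antisymm
    · have hf : Tendsto (fun Y => Real.exp (rad C Y) * (lam / 2 * (Real.exp (rad C Y) * (1 + 2 * rad C Y)) * D)) atTop
          (𝓝 (lam / 2 * D)) := by
        have h1 : Tendsto (fun Y => Real.exp (rad C Y)) atTop (𝓝 (Real.exp 0)) :=
          (Real.continuous_exp.tendsto 0).comp hr
        rw [Real.exp_zero] at h1
        have h2 := h1.mul (((h1.mul ((hr.const_mul 2).const_add 1)).const_mul (lam / 2)).mul_const D)
        refine h2.trans (le_of_eq ?_)
        congr 1; ring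
      refine ge_of_tendsto hf ?_
      filter_upwards [eventually_ge_atTop Y0] with Y hY
      obtain ⟨h1, h2⟩ := VY_int (d := d) (F := F) (u := u Y) Y (-rad C Y)
      have h3 : ∫ t in Set.Ioi (0 : ℝ), V t / t ^ 2 ≤ ∫ t in Set.Ioi (0 : ℝ), VY d F (u Y) Y (-rad C Y) t / t ^ 2 := by
        apply integral_mono hVint h1
        intro t
        exact div_le_div_of_nonneg_right (hV2 Y hY t) (sq_nonneg t)
      rw [h2, neg_neg] at h3
      exact h3.trans (mul_le_mul_of_nonneg_left (hmassup Y hY) (Real.exp_pos _).le)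
    · have hf : Tendsto (fun Y => Real.exp (-rad C Y) * (lam / 2 * (Real.exp (-rad C Y) * (1 - 2 * rad C Y)) * D)) atTop
          (𝓝 (lam / 2 * D)) := by
        have h1 : Tendsto (fun Y => Real.exp (-rad C Y)) atTop (𝓝 (Real.exp (-0))) :=
          (Real.continuous_exp.tendsto (-0)).comp hr.neg
        rw [neg_zero, Real.exp_zero] at h1
        have h2 := h1.mul (((h1.mul ((hr.const_mul 2).const_sub 1)).const_mul (lam / 2)).mul_const D)
        refine h2.trans (le_of_eq ?_)
        congr 1; ring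
      refine le_of_tendsto hf ?_
      filter_upwards [eventually_ge_atTop Y0] with Y hY
      obtain ⟨h1, h2⟩ := VY_int (d := d) (F := F) (u := u Y) Y (rad C Y)
      have h3 : ∫ t in Set.Ioi (0 : ℝ), VY d F (u Y) Y (rad C Y) t / t ^ 2 ≤ ∫ t in Set.Ioi (0 : ℝ), V t / t ^ 2 := by
        apply integral_mono h1 hVint
        intro t
        exact div_le_div_of_nonneg_right (hV1 Y hY t) (sq_nonneg t)
      rw [h2] at h3
      exact (mul_le_mul_of_nonneg_left (hmasslo Y hY) (Real.exp_pos _).le).trans h3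
  refine ⟨D, 2 * A, V, hD, by linarith [H.A1], hcont, hmono, ?_, hconst, hintegral, ?_⟩
  · intro t ht
    apply hzero
    refine ht.trans ?_
    exact one_div_le_one_div_of_le hA0 (by linarith)
  · intro K ε hε
    obtain ⟨Y, hY1, hY2⟩ := ((H.eta.eventually (gt_mem_nhds (show 0 < ε / 2 by linarith))).and
      (eventually_ge_atTop Y0)).exists
    obtain ⟨k0, hk0⟩ := sandwichJ hd hc3 (H.lvl Y hY2) K (show 0 < ε / 2 by linarith)
    refine ⟨k0, fun k o hk ho' x => ?_⟩
    obtain ⟨h1, h2⟩ := hk0 k o hk ho' x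
    set t : ℝ := 3 ^ o * x / 2 ^ k with ht
    have h3 := hV1 Y hY2 t
    have h4 := hV2 Y hY2 t
    have h5 : up Y t - lo Y t ≤ ε / 2 := by
      rcases le_or_gt t 0 with h6 | h6
      · have h7 : up Y t = 0 := by
          rw [hup]
          simp only
          unfold VY
          apply sum_eq_zero
          intro g hg
          rw [if_neg]
          intro hcon
          rw [mem_GG] at hg
          have := mul_pos (ag_pos (d := d) (F := F) hg.1.1) (Real.exp_pos (-rad C Y))
          linarith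
        have h8 : 0 ≤ lo Y t := VY_nonneg d F (H.lvl Y hY2).u0 _ _ _
        linarith
      · have := hosc Y hY2 t t h6 h6 (by rw [sub_self, abs_zero]; exact (H.rpos Y hY2).le)
        linarith
    change VY d F (u Y) Y (rad C Y) t ≤ V t at h3
    change V t ≤ VY d F (u Y) Y (-rad C Y) t at h4
    change VY d F (u Y) Y (-rad C Y) t - VY d F (u Y) Y (rad C Y) t ≤ ε / 2 at h5
    rw [abs_le]
    constructor <;> linarith

end Pool.Agent.R468.GL
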