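import Pool.Agent.R468.GL.J3

/-!
Joint local limit law, part 4: both signs.
-/

set_option autoImplicit false

namespace Pool.Agent.R468.GL

open Filter Topology Finset
open Pool.Agent.H499R2.LT
open Pool.Agent.H499R2.ND (Td HD G pos mem_pos Dn Td_side HD_ncard cop_of_not_dvd side_odd side_cop)
open Pool.Agent.R468.LL (lam lam_eq lam_pos lam_lt mem_FY hd_nn)

theorem ncard_J {d : ℤ} (hd : Odd d) {s : ℤ} (hs : s = 1 ∨ s = -1) (F : Finset ℤ) (x : ℝ) (k : ℕ) (o : ℤ) :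
    ({n : ℕ | 1 ≤ n ∧ (n : ℝ) ≤ x ∧ ((Td d)^[k] (s * n) ∈ F ∧ ∀ i < k, (Td d)^[i] (s * n) ∉ F) ∧
      od d k (s * n) = o}.ncard : ℝ) = JF (s * d) (F.image (fun a => s * a)) x k o := by
  classical
  unfold JF
  have hmem : ∀ n : ℕ, (((Td d)^[k] (s * n) ∈ F ∧ ∀ i < k, (Td d)^[i] (s * n) ∉ F) ∧ od d k (s * n) = o) ↔
      ((n : ℤ) ∈ RR (s * d) (F.image (fun a => s * a)) ∧ ht (s * d) (F.image (fun a => s * a)) n = k ∧
        ho (s * d) (F.image (fun a => s * a)) n = o) := by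
    intro n
    constructor
    · rintro ⟨⟨h1, h2⟩, h3⟩
      have h1' := (hit_side hd hs F k n).2 h1
      have h2' : ∀ i < k, (Td (s * d))^[i] (n : ℤ) ∉ F.image (fun a => s * a) :=
        fun i hi hc => h2 i hi ((hit_side hd hs F i n).1 hc)
      have h4 := ht_eq h1' h2'
      refine ⟨⟨k, h1'⟩, h4, ?_⟩
      unfold ho
      rw [h4, od_side hd hs]
      exact h3
    · rintro ⟨h1, h2, h3⟩
      obtain ⟨g1, g2⟩ := ht_spec h1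
      rw [h2] at g1 g2
      refine ⟨⟨(hit_side hd hs F _ n).1 g1, fun i hi hc => g2 i hi ((hit_side hd hs F i n).2 hc)⟩, ?_⟩
      unfold ho at h3
      rw [h2, od_side hd hs] at h3
      exact h3
  have h1 : (fun n : ℕ => (n : ℤ)) '' {n : ℕ | 1 ≤ n ∧ (n : ℝ) ≤ x ∧
      ((Td d)^[k] (s * n) ∈ F ∧ ∀ i < k, (Td d)^[i] (s * n) ∉ F) ∧ od d k (s * n) = o} =
      (((Icc (1 : ℤ) ⌊x⌋).filter (fun n => n ∈ RR (s * d) (F.image (fun a => s * a)) ∧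
        ht (s * d) (F.image (fun a => s * a)) n = k ∧ ho (s * d) (F.image (fun a => s * a)) n = o) :
        Finset ℤ) : Set ℤ) := by
    ext z
    rw [Set.mem_image, mem_coe, mem_filter, mem_Icc, Int.le_floor]
    constructor
    · rintro ⟨n, ⟨g0, g1, g2⟩, rfl⟩
      exact ⟨⟨by exact_mod_cast g0, by exact_mod_cast g1⟩, (hmem n).1 g2⟩
    · rintro ⟨⟨g1, g2⟩, g3⟩
      have hz : ((z.toNat : ℕ) : ℤ) = z := Int.toNat_of_nonneg (by omega)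
      refine ⟨z.toNat, ⟨by omega, ?_, ?_⟩, hz⟩
      · rw [← Int.cast_natCast, hz]; exact g2
      · rw [hmem, hz]; exact g3
  rw [← Set.ncard_image_of_injective _ (Nat.cast_injective (R := ℤ)), h1, Set.ncard_coe_finset]

/-- THE JOINT LOCAL LIMIT LAW, both signs -/
theorem joint_both {d : ℤ} (hd : Odd d) (hd3 : ¬ (3 : ℤ) ∣ d) {s : ℤ} (hs : s = 1 ∨ s = -1) (F : Finset ℤ) :
    ∃ (δ A : ℝ) (V : ℝ → ℝ), 0 ≤ δ ∧ ((∃ a ∈ F, 0 < s * a ∧ ¬ (3 : ℤ) ∣ a) → 0 < δ) ∧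
    Dn (fun n : ℕ => ∃ k : ℕ, (Td d)^[k] (s * n) ∈ F) δ ∧
    1 ≤ A ∧ Continuous V ∧ Monotone V ∧ (∀ t, t ≤ 1 / A → V t = 0) ∧ (∀ t, A ≤ t → V t = V A) ∧
    (∫ t in Set.Ioi (0 : ℝ), V t / t ^ 2 = Real.log (4 / 3) / 2 * δ) ∧
    ∀ K ε : ℝ, 0 < ε → ∃ k0 : ℕ, ∀ k o : ℕ, k0 ≤ k → |2 * (o : ℝ) - k| ≤ K * Real.sqrt k → ∀ x : ℝ,
      |({n : ℕ | 1 ≤ n ∧ (n : ℝ) ≤ x ∧ ((Td d)^[k] (s * n) ∈ F ∧ ∀ i < k, (Td d)^[i] (s * n) ∉ F) ∧
        od d k (s * n) = o}.ncard : ℝ) * 3 ^ o / (k.choose o : ℝ) - V (3 ^ o * x / 2 ^ k)| ≤ ε := by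
  have hd3' : ¬ (3 : ℤ) ∣ s * d := by
    rcases hs with rfl | rfl
    · simpa using hd3
    · rw [neg_one_mul, dvd_neg]; exact hd3
  obtain ⟨D, A, V, hD, h1, h2, h3, h4, h5, h6, h7⟩ := joint (side_odd hd hs) hd3' (F.image (fun a => s * a))
  obtain ⟨δ, g0, g1, g2, _⟩ := joint_side hd hd3 hs F
  have hDδ : D = δ := by
    have h3 : Dn (fun n : ℕ => ∃ k : ℕ, (Td d)^[k] (s * n) ∈ F) D := by
      refine Dn_iff (fun n _ => ?_) (dn_of_hd hD)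
      unfold RR
      rw [Set.mem_ofPred_eq]
      exact exists_congr fun k => hit_side hd hs F k n
    unfold Dn at h3 g2
    exact tendsto_nhds_unique h3 g2
  subst hDδ
  refine ⟨D, A, V, g0, g1, g2, h1, h2, h3, h4, h5, h6, ?_⟩
  intro K ε hε
  obtain ⟨k0, hk0⟩ := h7 K ε hε
  refine ⟨k0, fun k o hk ho' x => ?_⟩
  rw [ncard_J hd hs]
  exact hk0 k o hk ho' x

end Pool.Agent.R468.GL
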