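import Pool.Agent.R468.GL.Desc
import Pool.Agent.R468.LL.Osc

/-!
General local limit law, part 8: the levels, the masses, and the oscillation.
-/

set_option autoImplicit false

namespace Pool.Agent.R468.GL

open Filter Topology Finset
open Pool.Agent.H499R2.LT
open Pool.Agent.H499R2.ND (Td HD G pos mem_pos)
open Pool.Agent.R468.LL (cen EE EE_pos EE_le_one cen_fst cen_dev tendsto_cen Loc lam lam_eq lam_pos lam_lt exp_sub_le
  mem_FY log3_gt log3_gz rad rad_lim hd_nn hd_nat pos_le exp_r)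

theorem cY_self {d : ℤ} {Y : ℕ} {g : ℤ} (hg : 1 ≤ g) (hgY : g ≤ Y) (δ : ℤ → ℝ) :
    cY d (FY Y) g Y δ = g * δ g := by
  classical
  have hmem : g ∈ FY Y := mem_FY.2 ⟨by omega, hgY⟩
  have hit0 : Hit d (FY Y) g g 0 := ⟨rfl, hmem, fun i hi => absurd hi (by omega)⟩
  have h1 : GS d (FY Y) g Y = {g} := by
    ext x
    rw [mem_GS, mem_singleton]
    constructor
    · rintro ⟨h1, _, i, hi⟩
      rcases Nat.eq_zero_or_pos i with rfl | h0
      · exact hi.1
      · exact absurd h1 (hi.2.2 0 h0)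
    · rintro rfl
      exact ⟨hmem, by omega, 0, hit0⟩
  have hgR : (0 : ℝ) < g := by exact_mod_cast (by omega : 0 < g)
  unfold cY
  rw [h1, sum_singleton]
  unfold Pool.Agent.H499R2.LT.kap
  rw [hi_spec hit0]
  have h2 : -(((0 : ℕ) : ℝ) * Real.log 2 - (od d 0 g : ℝ) * Real.log 3 - Real.log (g : ℝ)) = Real.log g := by
    unfold od
    push_cast
    ring
  rw [h2, Real.exp_log hgR]

variable (P : Par)

/-- the limiting constant -/
noncomputable def cst : ℝ := Real.sqrt (lam / 2) * (Real.log 3 * gz 0) / (1 - qr P)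

theorem oq_pos : 0 < 1 - qr P := by linarith [qr_lt P]

theorem cst_pos : 0 < cst P := by
  unfold cst
  have h1 := lam_pos
  have h2 := gz_pos 0
  have h3 := log3_gt
  have h4 : 0 < Real.sqrt (lam / 2) := Real.sqrt_pos.2 (by linarith)
  have h5 : 0 < Real.log 3 := by linarith
  have h6 := oq_pos P
  positivity

theorem cst_eq : cst P = lam * Real.sqrt lam / (2 * Real.sqrt Real.pi) / (1 - qr P) := by
  unfold cst
  congr 1
  rw [log3_gz, Real.sqrt_div lam_pos.le, Real.sqrt_mul (by norm_num : (0 : ℝ) ≤ 2)]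
  have h2 : Real.sqrt 2 * Real.sqrt 2 = 2 := Real.mul_self_sqrt (by norm_num)
  have h3 : Real.sqrt 2 ≠ 0 := by positivity
  have h4 : Real.sqrt Real.pi ≠ 0 := by
    have := Real.pi_pos
    positivity
  have h5 : Real.sqrt 2 ^ 2 = 2 := Real.sq_sqrt (by norm_num)
  field_simp
  rw [h5]
  ring

/-- the data at all levels -/
theorem fam {d : ℤ} (hd : Odd d) (hd3 : IsCoprime d 3) (F : Finset ℤ) :
    ∃ (C : ℝ) (Y0 : ℕ) (u δ : ℕ → ℤ → ℝ), 0 < C ∧ 3 ≤ Y0 ∧ ∀ Y : ℕ, Y0 ≤ Y →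
    Lvl d F Y (rad C Y) (u Y) (δ Y) ∧ 0 < rad C Y ∧ rad C Y ≤ 1 / 10 ∧
    ∀ g ∈ GG d F Y, cst P * (Real.exp (-rad C Y) * (1 - 2 * rad C Y)) * δ Y g ≤ bw P (u Y) g ∧
      bw P (u Y) g ≤ cst P * (Real.exp (rad C Y) * (1 + 2 * rad C Y)) * δ Y g := by
  obtain ⟨C, Y0, hC, hY0, hp⟩ := path_log hd hd3
  choose u hu0 hloc hlev using fun (Y : ℕ) (g : ℤ) => local_limit hd hd3 (FY Y) g
  choose δ hδ using fun (Y : ℕ) (g : ℤ) => hd_exists hd hd3 (FY Y) g
  obtain ⟨Y1, hY1⟩ := eventually_atTop.1 ((rad_lim C).eventually (gt_mem_nhds (show (0 : ℝ) < 1 / 10 by norm_num)))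
  obtain ⟨Y2, hY2⟩ : ∃ Y2 : ℕ, ∀ Y : ℕ, Y2 ≤ Y → F ⊆ FY Y := by
    refine ⟨∑ f ∈ F, f.natAbs, ?_⟩
    intro Y hY f hf
    have h1 : f.natAbs ≤ ∑ f ∈ F, f.natAbs := single_le_sum (f := fun f : ℤ => f.natAbs) (fun _ _ => Nat.zero_le _) hf
    rw [mem_FY]
    omega
  refine ⟨C, max (max Y0 (max Y1 (max Y2 d.natAbs))) 3, u, δ, hC, le_max_right _ _, ?_⟩
  intro Y hY
  have h0 : Y0 ≤ Y := by omega
  have h1 : Y1 ≤ Y := by omega
  have h2 : Y2 ≤ Y := by omega
  have h2' : d.natAbs ≤ Y := by omega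
  have h3 : 3 ≤ Y := by omega
  have hYR : (3 : ℝ) ≤ Y := by exact_mod_cast h3
  have hr0 : 0 < rad C Y := by
    unfold rad
    have : (0 : ℝ) < (Y : ℝ) ^ (1 / 25 : ℝ) := Real.rpow_pos_of_pos (by linarith) _
    positivity
  have hr1 := (hY1 Y h1).le
  have hl3 := log3_gt
  have hq := oq_pos P
  have hhit : ∀ (x g : ℤ) (j : ℕ), x ≠ 0 → Hit d (FY Y) g x j →
      g ≠ 0 ∧ |Real.log (x : ℝ) + od d j x * Real.log 3 - j * Real.log 2 - Real.log (g : ℝ)| ≤ rad C Y := by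
    intro x g j hx hh
    exact hp Y h0 x g j hx hh
  have hdY : |d| ≤ (Y : ℤ) := by
    rw [← Int.natCast_natAbs]
    exact_mod_cast h2'
  refine ⟨⟨by omega, hdY, hY2 Y h2, hr0.le, hhit, hu0 Y, fun g => Pool.Agent.R468.LL.loc_of (hloc Y g), hδ Y⟩,
    hr0, hr1, ?_⟩
  intro g hg
  rw [mem_GG] at hg
  have hgR : (0 : ℝ) < g := by exact_mod_cast (by omega : 0 < g)
  obtain ⟨h5, h6⟩ := hlev Y g (Finset.Subset.refl _) hr0 (by linarith) hhit (hδ Y)
  rw [cY_self hg.1.1 hg.1.2] at h5 h6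
  have hgz := gz_pos 0
  have hδ0 := hd_nonneg (hδ Y g)
  have hs0 : 0 < Real.sqrt (lam / 2) := Real.sqrt_pos.2 (by have := lam_pos; linarith)
  have hw : bw P (u Y) g = Real.sqrt (lam / 2) / (1 - qr P) * (u Y g / g) := by
    unfold bw
    rw [Real.exp_neg, Real.exp_log hgR]
    field_simp
  have hE := Real.exp_pos (rad C Y)
  have hE' := Real.exp_pos (-rad C Y)
  rw [hw]
  have hq0 : 0 ≤ gz 0 * δ Y g := by positivity
  constructor
  · have h7 : Real.exp (-rad C Y) * (1 - 2 * rad C Y) * (Real.log 3 * gz 0) * δ Y g ≤ u Y g / g := by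
      rw [le_div_iff₀ hgR]
      refine le_trans ?_ h5
      have h8 : (1 - 2 * rad C Y) * Real.log 3 ≤ Real.log 3 - 2 * rad C Y := by nlinarith
      calc Real.exp (-rad C Y) * (1 - 2 * rad C Y) * (Real.log 3 * gz 0) * δ Y g * g
          = ((1 - 2 * rad C Y) * Real.log 3) * (Real.exp (-rad C Y) * (gz 0 * δ Y g) * g) := by ring
        _ ≤ (Real.log 3 - 2 * rad C Y) * (Real.exp (-rad C Y) * (gz 0 * δ Y g) * g) :=
            mul_le_mul_of_nonneg_right h8 (by positivity)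
        _ = _ := by ring
    calc cst P * (Real.exp (-rad C Y) * (1 - 2 * rad C Y)) * δ Y g
        = Real.sqrt (lam / 2) / (1 - qr P) * (Real.exp (-rad C Y) * (1 - 2 * rad C Y) * (Real.log 3 * gz 0) * δ Y g) := by
          unfold cst; ring
      _ ≤ _ := mul_le_mul_of_nonneg_left h7 (by positivity)
  · have h7 : u Y g / g ≤ Real.exp (rad C Y) * (1 + 2 * rad C Y) * (Real.log 3 * gz 0) * δ Y g := by
      rw [div_le_iff₀ hgR]
      refine le_trans h6 ?_
      have h8 : Real.log 3 + 2 * rad C Y ≤ (1 + 2 * rad C Y) * Real.log 3 := by nlinarith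
      calc Real.exp (rad C Y) * (Real.log 3 + 2 * rad C Y) * ((g : ℝ) * δ Y g) * gz 0
          = (Real.log 3 + 2 * rad C Y) * (Real.exp (rad C Y) * (gz 0 * δ Y g) * g) := by ring
        _ ≤ ((1 + 2 * rad C Y) * Real.log 3) * (Real.exp (rad C Y) * (gz 0 * δ Y g) * g) :=
            mul_le_mul_of_nonneg_right h8 (by positivity)
        _ = _ := by ring
    calc Real.sqrt (lam / 2) / (1 - qr P) * (u Y g / g)
        ≤ Real.sqrt (lam / 2) / (1 - qr P) * (Real.exp (rad C Y) * (1 + 2 * rad C Y) * (Real.log 3 * gz 0) * δ Y g) :=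
          mul_le_mul_of_nonneg_left h7 (by positivity)
      _ = _ := by unfold cst; ring

/-- the masses add up to the density -/
theorem mass {d : ℤ} {F : Finset ℤ} {Y : ℕ} (hF : F ⊆ FY Y) (hY : |d| ≤ Y) {δ : ℤ → ℝ}
    (hδ : ∀ g, HD 1 (PF d (FY Y) g) (δ g)) :
    HD 1 (RR d F) (∑ g ∈ GG d F Y, δ g) := by
  classical
  have hG : ∀ X : ℝ, G (RR d F) X = ∑ g ∈ GG d F Y, G (PF d (FY Y) g) X := by
    intro X
    have hdisj : ∀ g ∈ GG d F Y, ∀ g' ∈ GG d F Y, g ≠ g' → Disjoint (pos (PF d (FY Y) g) X) (pos (PF d (FY Y) g') X) := by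
      intro g _ g' _ hne
      rw [Finset.disjoint_left]
      intro n hn hn'
      rw [mem_pos] at hn hn'
      obtain ⟨_, i, hi⟩ := hn
      obtain ⟨_, i', hi'⟩ := hn'
      exact hne (Hit_unique hi hi').1
    have h1 : ∑ g ∈ GG d F Y, G (PF d (FY Y) g) X =
        (((GG d F Y).biUnion (fun g => pos (PF d (FY Y) g) X)).card : ℝ) := by
      rw [card_biUnion hdisj]
      push_cast
      rfl
    rw [h1]
    unfold G
    congr 2
    ext n
    rw [mem_biUnion]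
    constructor
    · intro hn
      have hn0 := hn
      rw [mem_pos] at hn0
      obtain ⟨⟨hn1, hnN⟩, hR⟩ := hn0
      obtain ⟨i, g, h2, h3⟩ := reach_split hF hR
      refine ⟨g, ?_, ?_⟩
      · rw [mem_GG]
        have hg' := mem_FY.1 h2.2.1
        exact ⟨⟨hit_pos hY (by omega) h2, hg'.2⟩, h3⟩
      · rw [mem_pos]
        exact ⟨⟨hn1, hnN⟩, i, h2⟩
    · rintro ⟨g, hg, hn⟩
      rw [mem_pos] at hn ⊢
      obtain ⟨⟨hn1, hnN⟩, i, hi⟩ := hn
      rw [mem_GG] at hg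
      exact ⟨⟨hn1, hnN⟩, (reach_join hF hi hg.2).1⟩
  have h2 : Tendsto (fun X : ℝ => ∑ g ∈ GG d F Y, (((1 : ℕ) : ℝ) * G (PF d (FY Y) g) X / X)) atTop
      (𝓝 (∑ g ∈ GG d F Y, δ g)) := by
    apply tendsto_finsetSum
    intro g _
    have := hδ g
    unfold HD at this
    simpa using this
  unfold HD
  refine (h2.congr fun X => ?_)
  have h3 := hG X
  have e : ∑ g ∈ GG d F Y, (((1 : ℕ) : ℝ) * G (PF d (FY Y) g) X / X) = (∑ g ∈ GG d F Y, G (PF d (FY Y) g) X) / X := by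
    rw [sum_div]
    apply sum_congr rfl
    intro g _
    rw [Nat.cast_one, one_mul]
  rw [e, ← h3]
  simp

end Pool.Agent.R468.GL
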