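import Pool.Agent.R468.LL.Cent

/-!
General local limit law, part 1: geometric sums along lattice lines.
-/

set_option autoImplicit false

namespace Pool.Agent.R468.GL

open Filter Topology Finset
open Pool.Agent.R468.LL

/-- the shift of the second index -/
theorem shift2_cen (K : ℝ) (b : ℤ) :
    Tendsto (fun p : ℕ × ℤ => (p.1, p.2 + b)) (cen K) (cen (|K| + 1)) := by
  apply tendsto_cen
  · exact cen_fst K
  · filter_upwards [cen_dev K, (cen_sqrt K).eventually (eventually_ge_atTop (2 * |(b : ℝ)|))] with p h1 h2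
    push_cast
    have e : 2 * ((p.2 : ℝ) + b) - p.1 = (2 * (p.2 : ℝ) - p.1) + 2 * b := by ring
    rw [e]
    refine (abs_add_le _ _).trans ?_
    rw [abs_mul, abs_two]
    have h3 : K * Real.sqrt p.1 ≤ |K| * Real.sqrt p.1 :=
      mul_le_mul_of_nonneg_right (le_abs_self K) (Real.sqrt_nonneg _)
    linarith

/-- the normal profile under this shift -/
theorem EE_shift2 (K : ℝ) (b : ℤ) :
    Tendsto (fun p : ℕ × ℤ => EE (p.1, p.2 + b) - EE p) (cen K) (𝓝 0) := by
  have hb : Tendsto (fun p : ℕ × ℤ => (2 * |(b : ℝ)| * |K| + 2 * (b : ℝ) ^ 2) / Real.sqrt p.1)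
      (cen K) (𝓝 0) := tendsto_const_nhds.div_atTop (cen_sqrt K)
  refine squeeze_zero_norm' ?_ hb
  filter_upwards [cen_dev K, (cen_real K).eventually (eventually_ge_atTop 1)] with p h1 h2
  set n : ℝ := (p.1 : ℝ) with hn
  have hn0 : 0 < n := by linarith
  set r : ℝ := Real.sqrt n with hr
  have hr1 : 1 ≤ r := Real.one_le_sqrt.2 h2
  have hr0 : 0 < r := by linarith
  have hrr : r * r = n := Real.mul_self_sqrt hn0.le
  set D : ℝ := 2 * (p.2 : ℝ) - n with hD
  have e1 : EE (p.1, p.2 + b) = Real.exp (-((D + 2 * b) ^ 2 / (2 * n))) := by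
    unfold EE
    congr 1
    simp only
    push_cast
    rw [neg_div, hD]
    congr 3
    ring
  have e2 : EE p = Real.exp (-(D ^ 2 / (2 * n))) := by
    unfold EE
    rw [neg_div]
  rw [e1, e2, Real.norm_eq_abs]
  refine (exp_sub_le (by positivity) (by positivity)).trans ?_
  have e3 : (D + 2 * b) ^ 2 / (2 * n) - D ^ 2 / (2 * n) = (2 * b * D + 2 * b ^ 2) / n := by
    field_simp
    ring
  rw [e3, abs_div, abs_of_pos hn0, div_le_div_iff₀ hn0 hr0]
  have hDK : |D| ≤ |K| * r := h1.trans (mul_le_mul_of_nonneg_right (le_abs_self K) hr0.le)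
  have k1 : |2 * (b : ℝ) * D + 2 * (b : ℝ) ^ 2| ≤ 2 * |(b : ℝ)| * (|K| * r) + 2 * (b : ℝ) ^ 2 := by
    refine (abs_add_le _ _).trans (add_le_add ?_ ?_)
    · rw [abs_mul, abs_mul, abs_two]
      exact mul_le_mul_of_nonneg_left hDK (by positivity)
    · rw [abs_of_nonneg (by positivity)]
  have hb0 := abs_nonneg (b : ℝ)
  have hK0 := abs_nonneg K
  calc |2 * (b : ℝ) * D + 2 * (b : ℝ) ^ 2| * r ≤ (2 * |(b : ℝ)| * (|K| * r) + 2 * (b : ℝ) ^ 2) * r :=
        mul_le_mul_of_nonneg_right k1 hr0.le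
    _ = 2 * |(b : ℝ)| * |K| * (r * r) + 2 * (b : ℝ) ^ 2 * r := by ring
    _ ≤ 2 * |(b : ℝ)| * |K| * (r * r) + 2 * (b : ℝ) ^ 2 * (r * r) := by
        have : r ≤ r * r := by nlinarith
        have h5 : 2 * (b : ℝ) ^ 2 * r ≤ 2 * (b : ℝ) ^ 2 * (r * r) :=
          mul_le_mul_of_nonneg_left this (by positivity)
        linarith
    _ = _ := by rw [hrr]; ring

theorem Loc_shift {M : ℕ → ℤ → ℝ} {u : ℝ} (h : Loc M u) (b : ℤ) :
    Loc (fun k o => M k (o + b)) u := by
  intro K
  have h1 := (h (|K| + 1)).comp (shift2_cen K b)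
  have h2 := (EE_shift2 K b).const_mul u
  have h3 := h1.add h2
  rw [mul_zero, add_zero] at h3
  refine h3.congr fun p => ?_
  simp only [Function.comp_def]
  ring

/-- the geometric sums along a line -/
theorem geoL {α β : ℕ} (hαβ : 1 ≤ α + β) {q : ℝ} (hq0 : 0 < q) (hq1 : q < 1) {M : ℕ → ℤ → ℝ} {u C : ℝ}
    (hu : 0 ≤ u) (hM0 : ∀ k o, 0 ≤ M k o) (hMC : ∀ k o, M k o ≤ C)
    (hsupp : ∀ (k : ℕ) (o : ℤ), (k : ℤ) < o → M k o = 0) (h : Loc M u) (K : ℝ) :
    Tendsto (fun p : ℕ × ℤ => Real.sqrt p.1 * (∑ j ∈ range (p.1 + 1),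
      (if α * j ≤ p.1 then M (p.1 - α * j) (p.2 + (β * j : ℕ)) else 0) * q ^ j)
      - u / (1 - q) * EE p) (cen K) (𝓝 0) := by
  have hC : 0 ≤ C := (hM0 0 0).trans (hMC 0 0)
  set A : ℝ := (α : ℝ) + 2 * β + 1 with hA
  have hα0 : (0 : ℝ) ≤ α := Nat.cast_nonneg α
  have hβ0 : (0 : ℝ) ≤ β := Nat.cast_nonneg β
  have hA1 : 1 ≤ A := by linarith
  set f : ℕ × ℤ → ℕ → ℝ := fun p j =>
    (if α * j ≤ p.1 then Real.sqrt p.1 * M (p.1 - α * j) (p.2 + (β * j : ℕ)) else 0) * q ^ j
      - u * EE p * q ^ j with hf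
  set bd : ℕ → ℝ := fun j => (3 * u + 2 + A * C * (j + 1)) * q ^ j with hbd
  have hsum : Summable bd := by
    have hqn : ‖q‖ < 1 := by rw [Real.norm_eq_abs, abs_of_pos hq0]; exact hq1
    have h1 : Summable (fun j : ℕ => q ^ j) := summable_geometric_of_lt_one hq0.le hq1
    have h2 : Summable (fun j : ℕ => (j : ℝ) ^ 1 * q ^ j) :=
      summable_pow_mul_geometric_of_norm_lt_one 1 hqn
    have h3 : Summable (fun j : ℕ => (3 * u + 2 + A * C) * q ^ j + A * C * ((j : ℝ) ^ 1 * q ^ j)) :=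
      (h1.mul_left (3 * u + 2 + A * C)).add (h2.mul_left (A * C))
    have e : bd = fun j : ℕ => (3 * u + 2 + A * C) * q ^ j + A * C * ((j : ℝ) ^ 1 * q ^ j) := by
      funext j
      rw [hbd]
      simp only [pow_one]
      ring
    rw [e]
    exact h3
  have hlim : ∀ j, Tendsto (fun p => f p j) (cen K) (𝓝 0) := by
    intro j
    have h1 : Tendsto (fun p : ℕ × ℤ => (Real.sqrt p.1 * M (p.1 - α * j) (p.2 + (β * j : ℕ)) - u * EE p) * q ^ j)
        (cen K) (𝓝 (0 * q ^ j)) := (term_lim hu (Loc_shift h ((β * j : ℕ) : ℤ)) K (α * j)).mul_const (q ^ j)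
    rw [zero_mul] at h1
    have h2 : (fun p : ℕ × ℤ => (Real.sqrt p.1 * M (p.1 - α * j) (p.2 + (β * j : ℕ)) - u * EE p) * q ^ j) =ᶠ[cen K]
        (fun p => f p j) := by
      filter_upwards [(cen_fst K).eventually (eventually_ge_atTop (α * j))] with p hp
      rw [hf]
      simp only
      rw [if_pos hp, sub_mul]
    exact h1.congr' h2
  have hbound : ∀ᶠ p in cen K, ∀ j, ‖f p j‖ ≤ bd j := by
    have hK1 := (Metric.tendsto_nhds.1 (h (2 * (|K| + 1)))) 1 one_pos
    unfold cen at hK1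
    rw [eventually_inf_principal, eventually_comap] at hK1
    obtain ⟨k0, hk0⟩ := eventually_atTop.1 hK1
    have h4 : ∀ᶠ p : ℕ × ℤ in cen K, (2 * (k0 : ℝ) + 16 : ℝ) ≤ p.1 :=
      (cen_real K).eventually (eventually_ge_atTop _)
    filter_upwards [cen_dev K, h4] with p h1 h2
    intro j
    have hj0 : (0 : ℝ) ≤ j := Nat.cast_nonneg j
    have hqj : 0 < q ^ j := by positivity
    rw [hf, hbd]
    simp only
    rw [← sub_mul, norm_mul, Real.norm_eq_abs, Real.norm_eq_abs, abs_of_pos hqj]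
    apply mul_le_mul_of_nonneg_right _ hqj.le
    have hE : 0 ≤ u * EE p ∧ u * EE p ≤ u :=
      ⟨mul_nonneg hu (EE_pos _).le, mul_le_of_le_one_right hu (EE_le_one _)⟩
    set n : ℝ := (p.1 : ℝ) with hn
    set r : ℝ := Real.sqrt n with hr
    have hk00 : (0 : ℝ) ≤ k0 := Nat.cast_nonneg k0
    have hn16 : 16 ≤ n := by linarith
    have hn0 : 0 < n := by linarith
    have hr0 : 0 < r := Real.sqrt_pos.2 hn0
    have hrr : r * r = n := Real.mul_self_sqrt hn0.le
    have hr4 : 4 ≤ r := by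
      rw [hr]
      apply Real.le_sqrt_of_sq_le
      linarith
    have hAC : 0 ≤ A * C * (j + 1) := by positivity
    by_cases hjn : α * j ≤ p.1
    · rw [if_pos hjn]
      have hMM := hM0 (p.1 - α * j) (p.2 + (β * j : ℕ))
      have hpos : 0 ≤ r * M (p.1 - α * j) (p.2 + (β * j : ℕ)) := mul_nonneg hr0.le hMM
      have hsub : ((p.1 - α * j : ℕ) : ℝ) = n - α * j := by
        rw [Nat.cast_sub hjn]
        push_cast
        rfl
      have key : r * M (p.1 - α * j) (p.2 + (β * j : ℕ)) ≤ 2 * u + 2 + A * C * (j + 1) := by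
        by_cases hjr : A * (j : ℝ) ≤ r
        · have hαj : (α : ℝ) * j ≤ r := by nlinarith
          have h5 : n / 4 ≤ n - α * j := by nlinarith
          have h6 : r / 2 ≤ Real.sqrt (n - α * j) := by
            have e : r / 2 = Real.sqrt (n / 4) := by
              rw [Real.sqrt_div hn0.le, show (4 : ℝ) = 2 ^ 2 by norm_num, Real.sqrt_sq (by norm_num)]
            rw [e]
            exact Real.sqrt_le_sqrt h5
          have h7 : k0 ≤ p.1 - α * j := by
            have : (k0 : ℝ) ≤ ((p.1 - α * j : ℕ) : ℝ) := by rw [hsub]; nlinarith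
            exact_mod_cast this
          have h8 : |2 * ((p.2 + (β * j : ℕ) : ℤ) : ℝ) - ((p.1 - α * j : ℕ) : ℝ)| ≤
              2 * (|K| + 1) * Real.sqrt ((p.1 - α * j : ℕ) : ℝ) := by
            rw [hsub]
            push_cast
            have e1 : 2 * ((p.2 : ℝ) + β * j) - (n - α * j) = (2 * (p.2 : ℝ) - n) + (α + 2 * β) * j := by ring
            rw [e1]
            have a1 : |2 * (p.2 : ℝ) - n| ≤ |K| * r :=
              h1.trans (mul_le_mul_of_nonneg_right (le_abs_self K) hr0.le)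
            refine (abs_add_le _ _).trans ?_
            rw [abs_of_nonneg (show 0 ≤ ((α : ℝ) + 2 * β) * j by positivity)]
            have a2 : ((α : ℝ) + 2 * β) * j ≤ r := by nlinarith
            have hK := abs_nonneg K
            nlinarith
          have h9 := hk0 (p.1 - α * j) h7 (p.1 - α * j, p.2 + (β * j : ℕ)) rfl h8
          rw [Real.dist_eq, sub_zero] at h9
          simp only at h9
          rw [hsub] at h9
          have h10 := (abs_lt.1 h9).2
          have h11 : u * EE (p.1 - α * j, p.2 + (β * j : ℕ)) ≤ u := mul_le_of_le_one_right hu (EE_le_one _)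
          have h12 : Real.sqrt (n - α * j) * M (p.1 - α * j) (p.2 + (β * j : ℕ)) ≤ u + 1 := by linarith
          have h13 : r * M (p.1 - α * j) (p.2 + (β * j : ℕ)) ≤
              2 * (Real.sqrt (n - α * j) * M (p.1 - α * j) (p.2 + (β * j : ℕ))) := by nlinarith
          linarith
        · push Not at hjr
          have h5 : r * M (p.1 - α * j) (p.2 + (β * j : ℕ)) ≤ (A * j) * C :=
            mul_le_mul (by linarith) (hMC _ _) hMM (by positivity)
          have h6 : 0 ≤ A * C := by positivity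
          nlinarith
      rw [abs_le]
      constructor <;> linarith [hE.1, hE.2]
    · rw [if_neg hjn, zero_sub, abs_neg, abs_of_nonneg hE.1]
      linarith [hE.2]
  have h1 := tendsto_tsum_of_dominated_convergence hsum hlim hbound
  simp only [tsum_zero] at h1
  refine h1.congr' ?_
  -- the second index is positive
  have hpos2 : ∀ᶠ p : ℕ × ℤ in cen K, 0 ≤ p.2 := by
    filter_upwards [cen_dev K, (cen_sqrt K).eventually (eventually_ge_atTop |K|)] with p g1 g2
    have g3 := (abs_le.1 g1).1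
    have g4 : K * Real.sqrt p.1 ≤ |K| * Real.sqrt p.1 :=
      mul_le_mul_of_nonneg_right (le_abs_self K) (Real.sqrt_nonneg _)
    have g5 : Real.sqrt p.1 * Real.sqrt p.1 = p.1 := Real.mul_self_sqrt (Nat.cast_nonneg _)
    have g6 : |K| * Real.sqrt p.1 ≤ Real.sqrt p.1 * Real.sqrt p.1 :=
      mul_le_mul_of_nonneg_right g2 (Real.sqrt_nonneg _)
    have g7 : (0 : ℝ) ≤ p.2 := by linarith
    exact_mod_cast g7
  filter_upwards [hpos2] with p hp2
  have h2 : HasSum (fun j : ℕ => (if α * j ≤ p.1 then Real.sqrt p.1 * M (p.1 - α * j) (p.2 + (β * j : ℕ)) else 0) * q ^ j)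
      (∑ j ∈ range (p.1 + 1),
        (if α * j ≤ p.1 then Real.sqrt p.1 * M (p.1 - α * j) (p.2 + (β * j : ℕ)) else 0) * q ^ j) := by
    apply hasSum_sum_of_ne_finset_zero
    intro j hj
    rw [mem_range, not_lt] at hj
    rcases Nat.eq_zero_or_pos α with h0 | h0
    · subst h0
      have hβ1 : 1 ≤ β := by omega
      have h3 : M (p.1 - 0 * j) (p.2 + (β * j : ℕ)) = 0 := by
        apply hsupp
        rw [zero_mul, Nat.sub_zero]
        have : p.1 < β * j := by nlinarith
        omega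
      rw [h3]
      simp
    · have : ¬ (α * j ≤ p.1) := by
        intro h4
        have : j ≤ α * j := Nat.le_mul_of_pos_left j h0
        omega
      rw [if_neg this, zero_mul]
  have h3 : HasSum (fun j : ℕ => u * EE p * q ^ j) (u * EE p * (1 - q)⁻¹) :=
    (hasSum_geometric_of_lt_one hq0.le hq1).mul_left (u * EE p)
  have h4 := (h2.sub h3).tsum_eq
  rw [hf]
  simp only
  rw [h4]
  have h5 : ∑ j ∈ range (p.1 + 1), (if α * j ≤ p.1 then Real.sqrt p.1 * M (p.1 - α * j) (p.2 + (β * j : ℕ)) else 0) * q ^ j =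
      Real.sqrt p.1 * ∑ j ∈ range (p.1 + 1), (if α * j ≤ p.1 then M (p.1 - α * j) (p.2 + (β * j : ℕ)) else 0) * q ^ j := by
    rw [mul_sum]
    apply sum_congr rfl
    intro j _
    split_ifs <;> ring
  rw [h5]
  ring

end Pool.Agent.R468.GL
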