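import Pool.Agent.R468.GL.Prof
import Pool.Agent.H499R2.LT.R4

/-!
General local limit law, part 11: the normalised form, both signs, all integers and odd integers.
-/

set_option autoImplicit false

namespace Pool.Agent.R468.GL

open Filter Topology Finset
open Pool.Agent.H499R2.LT
open Pool.Agent.H499R2.ND (Td HD G pos mem_pos Dn)
open Pool.Agent.R468.LL (lam lam_eq lam_pos lam_lt mem_FY hd_nn)

variable (P : Par)

/-- the normal density of mean `A0 / lam log x` and variance `2 ww² / lam³ log x` -/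
noncomputable def gd (x : ℝ) (j : ℤ) : ℝ :=
  Real.exp (-(((j : ℝ) - A0 P / lam * Real.log x) ^ 2 / (2 * (2 * ww P ^ 2 / lam ^ 3 * Real.log x)))) /
    Real.sqrt (2 * Real.pi * (2 * ww P ^ 2 / lam ^ 3 * Real.log x))

theorem gd_eq {x : ℝ} (hx : 0 < Real.log x) (j : ℤ) :
    gd P x j = cst P * (1 - qr P) / ww P * Est P (x, j) / Real.sqrt (Real.log x) := by
  have hw := ww_pos P
  have hq := oq_pos P
  have hlam := lam_pos
  have hpi := Real.pi_pos
  unfold gd
  have e1 : -(((j : ℝ) - A0 P / lam * Real.log x) ^ 2 / (2 * (2 * ww P ^ 2 / lam ^ 3 * Real.log x))) =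
      -(((j : ℝ) * lam - A0 P * Real.log x) ^ 2 * lam / (4 * ww P ^ 2 * Real.log x)) := by
    field_simp
    ring
  have e2 : Real.sqrt (2 * Real.pi * (2 * ww P ^ 2 / lam ^ 3 * Real.log x)) =
      ww P / (cst P * (1 - qr P)) * Real.sqrt (Real.log x) := by
    rw [cst_eq]
    have hs1 := Real.mul_self_sqrt hlam.le
    have hs2 := Real.mul_self_sqrt hpi.le
    have hs3 := Real.mul_self_sqrt hx.le
    have hp1 := Real.sqrt_pos.2 hlam
    have hp2 := Real.sqrt_pos.2 hpi
    have hp3 := Real.sqrt_pos.2 hx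
    rw [div_mul_cancel₀ _ hq.ne', Real.sqrt_eq_iff_mul_self_eq (by positivity) (by positivity)]
    have e3 : ww P / (lam * Real.sqrt lam / (2 * Real.sqrt Real.pi)) * Real.sqrt (Real.log x) *
        (ww P / (lam * Real.sqrt lam / (2 * Real.sqrt Real.pi)) * Real.sqrt (Real.log x)) =
        ww P ^ 2 * 4 * (Real.sqrt Real.pi * Real.sqrt Real.pi) /
          (lam ^ 2 * (Real.sqrt lam * Real.sqrt lam)) * (Real.sqrt (Real.log x) * Real.sqrt (Real.log x)) := by
      field_simp
      ring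
    rw [e3, hs1, hs2, hs3]
    field_simp
    ring
  rw [e1, e2]
  have hcst := cst_pos P
  have hp3 := Real.sqrt_pos.2 hx
  unfold Est
  simp only
  field_simp

theorem Est_low {K : ℝ} {p : ℝ × ℤ} (hK : |p.2 * lam - A0 P * Real.log p.1| ≤ K * Real.sqrt (Real.log p.1))
    (h : 0 < Real.log p.1) : Real.exp (-(K ^ 2 * lam / (4 * ww P ^ 2))) ≤ Est P p := by
  have hw := ww_pos P
  have hlam := lam_pos
  unfold Est
  apply Real.exp_le_exp.2
  have h1 : (p.2 * lam - A0 P * Real.log p.1) ^ 2 ≤ K ^ 2 * Real.log p.1 := by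
    have h2 := pow_le_pow_left₀ (abs_nonneg _) hK 2
    rw [sq_abs, mul_pow, Real.sq_sqrt h.le] at h2
    exact h2
  have h3 : (p.2 * lam - A0 P * Real.log p.1) ^ 2 * lam / (4 * ww P ^ 2 * Real.log p.1) ≤
      K ^ 2 * lam / (4 * ww P ^ 2) := by
    rw [div_le_div_iff₀ (by positivity) (by positivity)]
    have h4 : 0 ≤ lam * (4 * ww P ^ 2) := by positivity
    calc (p.2 * lam - A0 P * Real.log p.1) ^ 2 * lam * (4 * ww P ^ 2)
        = (p.2 * lam - A0 P * Real.log p.1) ^ 2 * (lam * (4 * ww P ^ 2)) := by ring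
      _ ≤ K ^ 2 * Real.log p.1 * (lam * (4 * ww P ^ 2)) := mul_le_mul_of_nonneg_right h1 h4
      _ = _ := by ring
  linarith

theorem Est_bd {p : ℝ × ℤ} (h : 0 ≤ Real.log p.1) : 0 < Est P p ∧ Est P p ≤ 1 := by
  refine ⟨Real.exp_pos _, ?_⟩
  unfold Est
  apply Real.exp_le_one_iff.2
  have := lam_pos
  have : 0 ≤ (p.2 * lam - A0 P * Real.log p.1) ^ 2 * lam / (4 * ww P ^ 2 * Real.log p.1) := by positivity
  linarith

/-- from the limit to the quotient -/
theorem to_quot {FN : ℝ → ℤ → ℝ} {U : ℝ → ℝ} {t : ℝ} (ht : 0 < t) (K : ℝ)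
    (h : Tendsto (fun p : ℝ × ℤ => Real.sqrt (Real.log p.1) / p.1 * FN p.1 p.2 - t * (U (sv P p) * Est P p))
      (xg P (K * lam)) (𝓝 0)) {ε : ℝ} (hε : 0 < ε) :
    ∃ X₀ : ℝ, 2 ≤ X₀ ∧ ∀ x : ℝ, X₀ ≤ x → ∀ j : ℤ,
      |(j : ℝ) - A0 P / lam * Real.log x| ≤ K * Real.sqrt (Real.log x) →
      |FN x j / (t * x * gd P x j) - ww P / (cst P * (1 - qr P)) * U (sv P (x, j))| ≤ ε := by
  have hw := ww_pos P
  have hcst := cst_pos P
  have hq := oq_pos P
  have hlam := lam_pos
  set c : ℝ := ww P / (cst P * (1 - qr P)) with hc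
  have hc0 : 0 < c := by positivity
  set e0 : ℝ := Real.exp (-((K * lam) ^ 2 * lam / (4 * ww P ^ 2))) with he0
  have he0' : 0 < e0 := Real.exp_pos _
  have hη : 0 < ε * e0 * t / c := by positivity
  have hev := (Metric.tendsto_nhds.1 h) _ hη
  unfold xg at hev
  rw [Filter.eventually_inf_principal, Filter.eventually_comap] at hev
  obtain ⟨X₀, hX₀⟩ := eventually_atTop.1 hev
  refine ⟨max X₀ 2, le_max_right _ _, ?_⟩
  intro x hx j hj
  have hx2 : 2 ≤ x := (le_max_right _ _).trans hx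
  have hlx : 0 < Real.log x := Real.log_pos (by linarith)
  have hmem : |(j : ℝ) * lam - A0 P * Real.log x| ≤ K * lam * Real.sqrt (Real.log x) := by
    have e : (j : ℝ) * lam - A0 P * Real.log x = ((j : ℝ) - A0 P / lam * Real.log x) * lam := by
      field_simp
    rw [e, abs_mul, abs_of_pos hlam]
    calc _ ≤ K * Real.sqrt (Real.log x) * lam := mul_le_mul_of_nonneg_right hj hlam.le
      _ = _ := by ring
  have g1 := hX₀ x ((le_max_left _ _).trans hx) (x, j) rfl hmem
  simp only at g1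
  rw [gd_eq P hlx j]
  have hE := Est_low P (K := K * lam) (p := (x, j)) hmem hlx
  have hE0 : 0 < Est P (x, j) := Real.exp_pos _
  have hs0 : 0 < Real.sqrt (Real.log x) := Real.sqrt_pos.2 hlx
  have hx0 : (0 : ℝ) < x := by linarith
  have hkey : FN x j / (t * x * (cst P * (1 - qr P) / ww P * Est P (x, j) / Real.sqrt (Real.log x))) -
      c * U (sv P (x, j)) = c / (t * Est P (x, j)) *
      (Real.sqrt (Real.log x) / x * FN x j - t * (U (sv P (x, j)) * Est P (x, j))) := by
    rw [hc]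
    field_simp
  rw [hkey, abs_mul, abs_of_pos (by positivity)]
  rw [Real.dist_eq, sub_zero] at g1
  calc c / (t * Est P (x, j)) * |Real.sqrt (Real.log x) / x * FN x j - t * (U (sv P (x, j)) * Est P (x, j))|
      ≤ c / (t * e0) * (ε * e0 * t / c) := by
        apply mul_le_mul _ g1.le (abs_nonneg _) (by positivity)
        exact div_le_div_of_nonneg_left (by positivity) (by positivity) (mul_le_mul_of_nonneg_left hE ht.le)
    _ = ε := by field_simp

/-! ### the odd integers -/

/-- halving -/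
noncomputable def hf (p : ℝ × ℤ) : ℝ × ℤ := (p.1 / 2, p.2 - P.β)

theorem hf_dev (p : ℝ × ℤ) (h : 0 < p.1) : ((hf P p).2 : ℝ) * lam - A0 P * Real.log (hf P p).1 =
    (p.2 * lam - A0 P * Real.log p.1) + ww P := by
  unfold hf A0 ww
  simp only
  rw [Real.log_div h.ne' (by norm_num), lam_eq]
  push_cast
  ring

theorem hf_xg (K : ℝ) : Tendsto (hf P) (xg P K) (xg P (2 * |K| + 1)) := by
  have hl2' := Real.log_two_lt_d9
  have hl2 : 0 < Real.log 2 := Real.log_pos (by norm_num)
  have hw := ww_pos P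
  have hsub : Tendsto (fun p : ℝ × ℤ => Real.sqrt (Real.log p.1 - Real.log 2)) (xg P K) atTop :=
    Real.tendsto_sqrt_atTop.comp (tendsto_atTop_add_const_right _ (-Real.log 2) (xg_log P K))
  refine tendsto_inf.2 ⟨tendsto_comap_iff.2 ?_, tendsto_principal.2 ?_⟩
  · exact (xg_fst P K).atTop_div_const (by norm_num)
  · filter_upwards [xg_dev P K, (xg_fst P K).eventually (eventually_gt_atTop 0),
      (xg_log P K).eventually (eventually_ge_atTop 2), hsub.eventually (eventually_ge_atTop (ww P))] with p h1 h2 h3 h4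
    rw [hf_dev P p h2]
    have e : Real.log (hf P p).1 = Real.log p.1 - Real.log 2 := Real.log_div h2.ne' (by norm_num)
    rw [e]
    set L := Real.log p.1 with hL
    have h5 : Real.sqrt L ≤ 2 * Real.sqrt (L - Real.log 2) := by
      have h6 : Real.sqrt (4 * (L - Real.log 2)) = 2 * Real.sqrt (L - Real.log 2) := by
        rw [Real.sqrt_mul (by norm_num)]
        congr 1
        rw [show (4 : ℝ) = 2 ^ 2 by norm_num]; exact Real.sqrt_sq (by norm_num)
      rw [← h6]
      apply Real.sqrt_le_sqrt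
      linarith
    have h6 : |p.2 * lam - A0 P * L + ww P| ≤ |p.2 * lam - A0 P * L| + ww P := by
      refine (abs_add_le _ _).trans ?_
      rw [abs_of_pos hw]
    have h7 : K * Real.sqrt L ≤ |K| * (2 * Real.sqrt (L - Real.log 2)) :=
      mul_le_mul (le_abs_self K) h5 (Real.sqrt_nonneg _) (abs_nonneg _)
    linarith

theorem sv_hf {p : ℝ × ℤ} (h : 0 < p.1) : sv P (hf P p) = sv P p + ((-P.o1 : ℤ) : ℝ) := by
  have hw := ww_pos P
  have hb := P.bezR
  unfold sv hf
  simp only
  rw [Real.log_div h.ne' (by norm_num), div_eq_iff hw.ne', add_mul, div_mul_cancel₀ _ hw.ne']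
  unfold kap ww
  push_cast
  linear_combination Real.log 2 * hb

theorem Est_hf (K : ℝ) : Tendsto (fun p : ℝ × ℤ => Est P p - Est P (hf P p)) (xg P K) (𝓝 0) := by
  have hw := ww_pos P
  have hlam := lam_pos
  have hl2 : 0 < Real.log 2 := Real.log_pos (by norm_num)
  have hl2' := Real.log_two_lt_d9
  have hC0 : 0 ≤ lam / (4 * ww P ^ 2) := by positivity
  -- the difference of the exponents is `O(1/√L)`
  have h2 : Tendsto (fun p : ℝ × ℤ => lam / (4 * ww P ^ 2) * ((|K| ^ 2 * 2 + 4 * |K| * ww P + 2 * ww P ^ 2) /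
      Real.sqrt (Real.log p.1))) (xg P K) (𝓝 (lam / (4 * ww P ^ 2) * 0)) :=
    (tendsto_const_nhds.div_atTop (xg_sqrt P K)).const_mul _
  rw [mul_zero] at h2
  refine squeeze_zero_norm' ?_ h2
  filter_upwards [xg_dev P K, (xg_fst P K).eventually (eventually_gt_atTop 0),
    (xg_log P K).eventually (eventually_ge_atTop 2)] with p h3 h4 h5
  have e : Real.log (hf P p).1 = Real.log p.1 - Real.log 2 := Real.log_div h4.ne' (by norm_num)
  unfold Est
  rw [hf_dev P p h4, e]
  set L := Real.log p.1 with hL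
  set Dv : ℝ := p.2 * lam - A0 P * L with hDv
  have hL0 : 0 < L := by linarith
  have hL1 : 0 < L - Real.log 2 := by linarith
  have hr0 : 0 < Real.sqrt L := Real.sqrt_pos.2 hL0
  have hr1 : 1 ≤ Real.sqrt L := Real.one_le_sqrt.2 (by linarith)
  have hrr : Real.sqrt L * Real.sqrt L = L := Real.mul_self_sqrt hL0.le
  rw [Real.norm_eq_abs]
  refine (Pool.Agent.R468.LL.exp_sub_le (by positivity) (by positivity)).trans ?_
  have e3 : Dv ^ 2 * lam / (4 * ww P ^ 2 * L) - (Dv + ww P) ^ 2 * lam / (4 * ww P ^ 2 * (L - Real.log 2)) =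
      -(lam / (4 * ww P ^ 2) * ((Dv ^ 2 * Real.log 2 / L + 2 * Dv * ww P + ww P ^ 2) / (L - Real.log 2))) := by
    field_simp
    ring
  rw [e3, abs_neg, abs_mul, abs_of_nonneg hC0]
  apply mul_le_mul_of_nonneg_left _ hC0
  rw [abs_div, abs_of_pos hL1, div_le_div_iff₀ hL1 hr0]
  have hDK : |Dv| ≤ |K| * Real.sqrt L := h3.trans (mul_le_mul_of_nonneg_right (le_abs_self K) hr0.le)
  have hD2 : Dv ^ 2 ≤ |K| ^ 2 * L := by
    have : |Dv| ^ 2 ≤ (|K| * Real.sqrt L) ^ 2 := pow_le_pow_left₀ (abs_nonneg Dv) hDK 2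
    rw [sq_abs, mul_pow, Real.sq_sqrt hL0.le] at this
    exact this
  have k1 : |Dv ^ 2 * Real.log 2 / L + 2 * Dv * ww P + ww P ^ 2| ≤ |K| ^ 2 + 2 * |K| * ww P * Real.sqrt L + ww P ^ 2 := by
    refine (abs_add_le _ _).trans (add_le_add ((abs_add_le _ _).trans (add_le_add ?_ ?_)) ?_)
    · rw [abs_of_nonneg (by positivity), div_le_iff₀ hL0]
      have h6 : Dv ^ 2 * Real.log 2 ≤ Dv ^ 2 * 1 := mul_le_mul_of_nonneg_left (by linarith) (sq_nonneg _)
      linarith
    · rw [abs_mul, abs_mul, abs_two, abs_of_pos hw]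
      have := mul_le_mul_of_nonneg_right (mul_le_mul_of_nonneg_left hDK (show (0 : ℝ) ≤ 2 by norm_num)) hw.le
      linarith
    · rw [abs_of_nonneg (by positivity)]
  have k2 : |K| ^ 2 + 2 * |K| * ww P * Real.sqrt L + ww P ^ 2 ≤
      (|K| ^ 2 * 2 + 4 * |K| * ww P + 2 * ww P ^ 2) / 2 * Real.sqrt L := by
    have h6 : |K| ^ 2 ≤ |K| ^ 2 * Real.sqrt L := le_mul_of_one_le_right (by positivity) hr1
    have h7 : ww P ^ 2 ≤ ww P ^ 2 * Real.sqrt L := le_mul_of_one_le_right (by positivity) hr1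
    have e5 : (|K| ^ 2 * 2 + 4 * |K| * ww P + 2 * ww P ^ 2) / 2 * Real.sqrt L =
      |K| ^ 2 * Real.sqrt L + 2 * |K| * ww P * Real.sqrt L + ww P ^ 2 * Real.sqrt L := by ring
    rw [e5]
    linarith
  calc |Dv ^ 2 * Real.log 2 / L + 2 * Dv * ww P + ww P ^ 2| * Real.sqrt L
      ≤ ((|K| ^ 2 * 2 + 4 * |K| * ww P + 2 * ww P ^ 2) / 2 * Real.sqrt L) * Real.sqrt L :=
        mul_le_mul_of_nonneg_right (k1.trans k2) hr0.le
    _ = (|K| ^ 2 * 2 + 4 * |K| * ww P + 2 * ww P ^ 2) * (L / 2) := by rw [mul_assoc, hrr]; ring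
    _ ≤ (|K| ^ 2 * 2 + 4 * |K| * ww P + 2 * ww P ^ 2) * (L - Real.log 2) := by
      apply mul_le_mul_of_nonneg_left _ (by positivity)
      linarith

variable {P} in
theorem per_int {U : ℝ → ℝ} (hU : ∀ s, U (s + 1) = U s) (s : ℝ) (m : ℤ) : U (s + m) = U s := by
  have hper : Function.Periodic U 1 := hU
  have := hper.int_mul m s
  rw [mul_one] at this
  exact this

open Classical in
/-- the number of odd `n ≤ x` which reach `F` with value `j` of the statistic -/
noncomputable def FO (d : ℤ) (F : Finset ℤ) (x : ℝ) (j : ℤ) : ℝ :=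
  (((Icc (1 : ℤ) ⌊x⌋).filter (fun n => n % 2 = 1 ∧ n ∈ RR d F ∧ st P d F n = j)).card : ℝ)

theorem Td_two (d n : ℤ) : Td d (2 * n) = n := by unfold Td; rw [if_pos (by omega)]; omega

theorem two_spec {d : ℤ} {F : Finset ℤ} {n : ℤ} (hF : 2 * n ∉ F) :
    (2 * n ∈ RR d F ↔ n ∈ RR d F) ∧ (n ∈ RR d F → st P d F (2 * n) = st P d F n + P.β) := by
  have h1 : 2 * n ∈ RR d F ↔ n ∈ RR d F := by
    constructor
    · rintro ⟨k, hk⟩
      cases k with
      | zero => exact absurd hk hF
      | succ k =>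
        rw [Function.iterate_succ_apply, Td_two] at hk
        exact ⟨k, hk⟩
    · rintro ⟨k, hk⟩
      exact ⟨k + 1, by rw [Function.iterate_succ_apply, Td_two]; exact hk⟩
  refine ⟨h1, fun h => ?_⟩
  obtain ⟨g1, g2⟩ := ht_spec h
  have h2 : ht d F (2 * n) = ht d F n + 1 := by
    apply ht_eq
    · rw [Function.iterate_succ_apply, Td_two]; exact g1
    · intro i hi
      cases i with
      | zero => exact hF
      | succ i => rw [Function.iterate_succ_apply, Td_two]; exact g2 i (by omega)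
  unfold st ho
  rw [h2, od, Td_two, if_pos (by omega)]
  push_cast
  ring

theorem FO_eq (d : ℤ) (F : Finset ℤ) (x : ℝ) (j : ℤ) :
    |FO P d F x j - (FC P d F x j - FC P d F (x / 2) (j - P.β))| ≤ 2 * F.card := by
  classical
  set A : Finset ℤ := (Icc (1 : ℤ) ⌊x⌋).filter (fun n => n ∈ RR d F ∧ st P d F n = j) with hA
  set O : Finset ℤ := (Icc (1 : ℤ) ⌊x⌋).filter (fun n => n % 2 = 1 ∧ n ∈ RR d F ∧ st P d F n = j) with hO
  set E : Finset ℤ := (Icc (1 : ℤ) ⌊x⌋).filter (fun n => n % 2 = 0 ∧ n ∈ RR d F ∧ st P d F n = j) with hE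
  set B : Finset ℤ := (Icc (1 : ℤ) ⌊x / 2⌋).filter (fun n => n ∈ RR d F ∧ st P d F n = j - P.β) with hB
  have h1 : A.card = O.card + E.card := by
    rw [← card_union_of_disjoint]
    · congr 1
      ext n
      simp only [hA, hO, hE, mem_union, mem_filter]
      constructor
      · rintro ⟨a, b, c⟩
        rcases Int.emod_two_eq_zero_or_one n with h | h
        · exact Or.inr ⟨a, h, b, c⟩
        · exact Or.inl ⟨a, h, b, c⟩
      · rintro (⟨a, _, b, c⟩ | ⟨a, _, b, c⟩) <;> exact ⟨a, b, c⟩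
    · rw [Finset.disjoint_left]
      intro n hn hn'
      rw [hO, mem_filter] at hn
      rw [hE, mem_filter] at hn'
      omega
  have h2 : E.card ≤ B.card + F.card := by
    have hsub : E ⊆ (B.image (fun n => 2 * n)) ∪ F := by
      intro n hn
      rw [hE, mem_filter, mem_Icc] at hn
      obtain ⟨⟨a1, a2⟩, b, c1, c2⟩ := hn
      obtain ⟨m, rfl⟩ : ∃ m, n = 2 * m := ⟨n / 2, by omega⟩
      rw [mem_union]
      by_cases hF : 2 * m ∈ F
      · exact Or.inr hF
      · left
        obtain ⟨e1, e2⟩ := two_spec P (d := d) hF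
        rw [mem_image]
        refine ⟨m, ?_, rfl⟩
        rw [hB, mem_filter, mem_Icc]
        refine ⟨⟨by omega, ?_⟩, e1.1 c1, ?_⟩
        · rw [Int.le_floor, le_div_iff₀ (by norm_num)]
          rw [Int.le_floor] at a2
          push_cast at a2
          linarith
        · rw [e2 (e1.1 c1)] at c2
          omega
    refine (card_le_card hsub).trans ((card_union_le _ _).trans ?_)
    exact Nat.add_le_add_right card_image_le _
  have h3 : B.card ≤ E.card + F.card := by
    have hsub : B ⊆ (E.image (fun n => n / 2)) ∪ F.image (fun n => n / 2) := by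
      intro n hn
      rw [hB, mem_filter, mem_Icc] at hn
      obtain ⟨⟨a1, a2⟩, c1, c2⟩ := hn
      rw [mem_union]
      by_cases hF : 2 * n ∈ F
      · right
        rw [mem_image]
        exact ⟨2 * n, hF, by omega⟩
      · left
        obtain ⟨e1, e2⟩ := two_spec P (d := d) hF
        rw [mem_image]
        refine ⟨2 * n, ?_, by omega⟩
        rw [hE, mem_filter, mem_Icc]
        refine ⟨⟨by omega, ?_⟩, by omega, e1.2 c1, ?_⟩
        · rw [Int.le_floor]
          rw [Int.le_floor, le_div_iff₀ (by norm_num)] at a2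
          push_cast
          linarith
        · rw [e2 c1]
          omega
    refine (card_le_card hsub).trans ((card_union_le _ _).trans ?_)
    exact Nat.add_le_add card_image_le card_image_le
  have e1 : FO P d F x j = (O.card : ℝ) := rfl
  have e2 : FC P d F x j = (A.card : ℝ) := rfl
  have e3 : FC P d F (x / 2) (j - P.β) = (B.card : ℝ) := rfl
  rw [e1, e2, e3]
  have h1R : (A.card : ℝ) = O.card + E.card := by exact_mod_cast h1
  have h2R : (E.card : ℝ) ≤ B.card + F.card := by exact_mod_cast h2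
  have h3R : (B.card : ℝ) ≤ E.card + F.card := by exact_mod_cast h3
  have h4 : (0 : ℝ) ≤ F.card := Nat.cast_nonneg _
  rw [abs_le]
  constructor <;> linarith

/-- the odd integers -/
theorem FO_lim {d : ℤ} {F : Finset ℤ} {U : ℝ → ℝ} {B : ℝ} (hUB : ∀ s, |U s| ≤ B) (hUp : ∀ s, U (s + 1) = U s)
    (h : ∀ K : ℝ, Tendsto (fun p : ℝ × ℤ => Real.sqrt (Real.log p.1) / p.1 * FC P d F p.1 p.2 -
      U (sv P p) * Est P p) (xg P K) (𝓝 0)) (K : ℝ) :
    Tendsto (fun p : ℝ × ℤ => Real.sqrt (Real.log p.1) / p.1 * FO P d F p.1 p.2 - 1 / 2 * (U (sv P p) * Est P p))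
      (xg P K) (𝓝 0) := by
  have hA := h K
  have hB := (h (2 * |K| + 1)).comp (hf_xg P K)
  have hlogh : Tendsto (fun p : ℝ × ℤ => Real.log (hf P p).1) (xg P K) atTop :=
    (xg_log P (2 * |K| + 1)).comp (hf_xg P K)
  have hlogp := xg_log P K
  -- the ratio of the logarithms
  have hR0 : Tendsto (fun p : ℝ × ℤ => Real.log p.1 / Real.log (hf P p).1) (xg P K) (𝓝 1) := by
    have h1 : Tendsto (fun p : ℝ × ℤ => 1 + Real.log 2 / Real.log (hf P p).1) (xg P K) (𝓝 (1 + 0)) :=
      tendsto_const_nhds.add (tendsto_const_nhds.div_atTop hlogh)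
    rw [add_zero] at h1
    refine h1.congr' ?_
    filter_upwards [(xg_fst P K).eventually (eventually_gt_atTop 0), hlogh.eventually (eventually_gt_atTop 0)]
      with p h2 h3
    have e : Real.log (hf P p).1 = Real.log p.1 - Real.log 2 := Real.log_div h2.ne' (by norm_num)
    have e2 : Real.log p.1 = Real.log (hf P p).1 + Real.log 2 := by rw [e]; ring
    rw [e2, add_div, div_self h3.ne']
  have hR : Tendsto (fun p : ℝ × ℤ => Real.sqrt (Real.log p.1 / Real.log (hf P p).1)) (xg P K) (𝓝 1) := by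
    have := (Real.continuous_sqrt.tendsto 1).comp hR0
    rwa [Real.sqrt_one] at this
  have hE := Est_hf P K
  have hBB : 0 ≤ B := (abs_nonneg _).trans (hUB 0)
  have hnull : Tendsto (fun p : ℝ × ℤ => U (sv P p) * ((Est P p - Est P (hf P p)) +
      (1 - Real.sqrt (Real.log p.1 / Real.log (hf P p).1)) * Est P (hf P p))) (xg P K) (𝓝 0) := by
    have h1 : Tendsto (fun p : ℝ × ℤ => B * (|Est P p - Est P (hf P p)| +
        |1 - Real.sqrt (Real.log p.1 / Real.log (hf P p).1)|)) (xg P K) (𝓝 (B * (|0| + |1 - 1|))) :=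
      (hE.abs.add ((tendsto_const_nhds.sub hR).abs)).const_mul B
    rw [sub_self, abs_zero, add_zero, mul_zero] at h1
    refine squeeze_zero_norm' ?_ h1
    filter_upwards [hlogh.eventually (eventually_ge_atTop 0)] with p hp
    obtain ⟨e1, e2⟩ := Est_bd P hp
    rw [Real.norm_eq_abs, abs_mul]
    apply mul_le_mul (hUB _) _ (abs_nonneg _) hBB
    refine (abs_add_le _ _).trans ?_
    have e3 : |(1 - Real.sqrt (Real.log p.1 / Real.log (hf P p).1)) * Est P (hf P p)| ≤
        |1 - Real.sqrt (Real.log p.1 / Real.log (hf P p).1)| := by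
      rw [abs_mul, abs_of_pos e1]
      exact mul_le_of_le_one_right (abs_nonneg _) e2
    linarith
  -- the error
  have herr : Tendsto (fun p : ℝ × ℤ => Real.sqrt (Real.log p.1) / p.1 * (FO P d F p.1 p.2 -
      (FC P d F p.1 p.2 - FC P d F (p.1 / 2) (p.2 - P.β)))) (xg P K) (𝓝 0) := by
    have h1 : Tendsto (fun p : ℝ × ℤ => 2 * (F.card : ℝ) / Real.sqrt (p.1)) (xg P K) (𝓝 0) :=
      tendsto_const_nhds.div_atTop (Real.tendsto_sqrt_atTop.comp (xg_fst P K))
    refine squeeze_zero_norm' ?_ h1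
    filter_upwards [(xg_fst P K).eventually (eventually_ge_atTop 1)] with p hp
    have hx0 : 0 < p.1 := by linarith
    have hsx : 0 < Real.sqrt p.1 := Real.sqrt_pos.2 hx0
    have h2 := FO_eq P d F p.1 p.2
    rw [Real.norm_eq_abs, abs_mul, abs_of_nonneg (by positivity)]
    have h3 : Real.sqrt (Real.log p.1) ≤ Real.sqrt p.1 := by
      apply Real.sqrt_le_sqrt
      have := Real.log_le_sub_one_of_pos hx0
      linarith
    calc Real.sqrt (Real.log p.1) / p.1 * |FO P d F p.1 p.2 -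
      (FC P d F p.1 p.2 - FC P d F (p.1 / 2) (p.2 - P.β))| ≤ Real.sqrt p.1 / p.1 * (2 * F.card) := by
          apply mul_le_mul _ h2 (abs_nonneg _) (by positivity)
          exact div_le_div_of_nonneg_right h3 hx0.le
      _ = 2 * F.card / Real.sqrt p.1 := by
          have : p.1 = Real.sqrt p.1 * Real.sqrt p.1 := (Real.mul_self_sqrt hx0.le).symm
          rw [div_mul_eq_mul_div, div_eq_div_iff hx0.ne' hsx.ne']
          nth_rewrite 3 [this]
          ring
  have hfin := ((hA.sub ((hR.mul hB).const_mul (1 / 2))).add (hnull.const_mul (1 / 2))).add herr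
  have e0 : (0 : ℝ) - 1 / 2 * (1 * 0) + 1 / 2 * 0 + 0 = 0 := by norm_num
  rw [e0] at hfin
  refine hfin.congr' ?_
  filter_upwards [(xg_fst P K).eventually (eventually_gt_atTop 0), hlogh.eventually (eventually_gt_atTop 0),
    hlogp.eventually (eventually_gt_atTop 0)] with p h2 h3 h4
  simp only [Function.comp_def]
  have e1 : U (sv P (hf P p)) = U (sv P p) := by rw [sv_hf P h2, per_int hUp]
  rw [e1]
  have e2 : Real.sqrt (Real.log p.1 / Real.log (hf P p).1) * Real.sqrt (Real.log (hf P p).1) =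
      Real.sqrt (Real.log p.1) := by
    rw [← Real.sqrt_mul (by positivity), div_mul_cancel₀ _ h3.ne']
  have e3 : (hf P p).1 = p.1 / 2 := rfl
  have e4 : (hf P p).2 = p.2 - P.β := rfl
  set R := Real.sqrt (Real.log p.1 / Real.log (hf P p).1) with hRdef
  set S' := Real.sqrt (Real.log (hf P p).1) with hS'
  rw [← e2, e4, e3]
  field_simp
  ring

end Pool.Agent.R468.GL
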