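import Pool.Agent.R468.GL.Inst
import Pool.Agent.W26.HN.D

/-!
General local limit law, part 14: the Syracuse map on the negative odd integers.
-/

set_option autoImplicit false

namespace Pool.Agent.R468.GL

open Filter Topology Finset
open Pool.Agent.H499R2.LT
open Pool.Agent.H499R2.ND (Td HD G pos mem_pos Dn)
open Pool.Agent.R468.LL (lam lam_eq lam_pos lam_lt)
open Pool.Agent.W26.HN (Sy En E En_of_E E_of_En)

theorem En_unique {F : Finset ℤ} {k k' : ℕ} {N : ℤ} (h : En F k N) (h' : En F k' N) : k = k' := by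
  rcases lt_trichotomy k k' with h1 | h1 | h1
  · exact absurd h.1 (h'.2 k h1)
  · exact h1
  · exact absurd h'.1 (h.2 k' h1)

theorem lv_neg {F : Finset ℤ} (hF : ∀ y ∈ F, y % 2 = 1) {n : ℕ} (hn : n % 2 = 1) (k : ℕ) :
    n ∈ Lv PO 1 (-1) F (k : ℤ) ↔ En F k (-(n : ℤ)) := by
  unfold Lv
  rw [Set.mem_ofPred_eq]
  have h3 : (PO.α : ℤ) = 1 := rfl
  have h4 : (PO.β : ℤ) = 0 := rfl
  simp only [h3, h4, neg_one_mul, one_mul, zero_mul, add_zero]
  have hodd : (-(n : ℤ)) % 2 = 1 := by omega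
  constructor
  · rintro ⟨_, j, h5, h6⟩
    obtain ⟨k', h7, h8⟩ := En_of_E hF j _ hodd h5
    have : k' = k := by
      rw [h6] at h7
      exact_mod_cast h7
    subst this
    exact h8
  · intro h5
    obtain ⟨j, h6, h7⟩ := E_of_En hF k _ hodd h5
    exact ⟨by omega, j, h7, h6.symm⟩

/-- THE LOCAL LIMIT LAW of the entrance times for the Syracuse map on the negative odd integers -/
theorem law_neg {F : Finset ℤ} (hne : F.Nonempty) (hF : ∀ y ∈ F, y < 0 ∧ y % 2 = 1) (hS : ∀ y ∈ F, Sy y ∈ F) :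
    ∃ (δ : ℝ) (Ψ : ℝ → ℝ), 0 < δ ∧ δ ≤ 1 ∧
    (δ = 1 ↔ ∀ N : ℤ, N < 0 → N % 2 = 1 → ∃ k : ℕ, Sy^[k] N ∈ F) ∧
    Dn (fun n : ℕ => n % 2 = 1 ∧ ∃ k : ℕ, Sy^[k] (-(n : ℤ)) ∈ F) (δ / 2) ∧
    Continuous Ψ ∧ (∀ t, Ψ (t + 1) = Ψ t) ∧
    (∀ t, δ * Real.log 2 ≤ Ψ t ∧ Ψ t ≤ 2 * δ * Real.log 2) ∧
    (∫ t in (0 : ℝ)..1, Ψ t = δ) ∧
    ∀ K ε : ℝ, 0 < ε → ∃ X₀ : ℝ, ∀ x : ℝ, X₀ ≤ x → ∀ k : ℕ,
      |(k : ℝ) - 1 / Real.log (4 / 3) * Real.log x| ≤ K * Real.sqrt (Real.log x) →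
      |({N : ℤ | -x ≤ (N : ℝ) ∧ N < 0 ∧ Odd N ∧ En F k N}.ncard : ℝ) /
        (x / 2 * (Real.exp (-(((k : ℝ) - 1 / Real.log (4 / 3) * Real.log x) ^ 2 /
          (2 * (2 * Real.log 2 ^ 2 / Real.log (4 / 3) ^ 3 * Real.log x)))) /
          Real.sqrt (2 * Real.pi * (2 * Real.log 2 ^ 2 / Real.log (4 / 3) ^ 3 * Real.log x)))) -
        Ψ (Real.logb 2 (3 ^ k * x))| ≤ ε := by
  have hFo : ∀ y ∈ F, y % 2 = 1 := fun y hy => (hF y hy).2
  obtain ⟨δ, Ψ, _, hpos, h2, h3, h4, h5, h6, _, h7⟩ := main_side PO (d := 1) odd_one (by omega)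
    (Or.inr rfl : (-1 : ℤ) = 1 ∨ (-1 : ℤ) = -1) F
  have hδ : 0 < δ := by
    obtain ⟨y, hy⟩ := hne
    apply hpos
    have h8 := hF _ (hS y hy)
    exact ⟨Sy y, hS y hy, by omega, Pool.Agent.W26.HN.Sy_three (hFo y hy)⟩
  -- the density among the odd integers
  have hodd : Dn (fun n : ℕ => n % 2 = 1 ∧ ∃ k : ℕ, (Td 1)^[k] (-1 * (n : ℤ)) ∈ F) (δ / 2) := by
    refine Pool.Agent.H499R2.HL.dn_odd h2 (Dn_iff (fun n hn => ?_) h2)
    have e : -1 * ((2 * n : ℕ) : ℤ) = 2 * (-1 * (n : ℤ)) := by push_cast; ring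
    rw [e]
    constructor
    · rintro ⟨k, hk⟩
      exact ⟨k + 1, by rw [Function.iterate_succ_apply, Td_two]; exact hk⟩
    · rintro ⟨k, hk⟩
      cases k with
      | zero =>
        have h8 := hFo _ hk
        simp only [Function.iterate_zero, id_eq] at h8
        omega
      | succ k =>
        rw [Function.iterate_succ_apply, Td_two] at hk
        exact ⟨k, hk⟩
  have hodd' : Dn (fun n : ℕ => n % 2 = 1 ∧ ∃ k : ℕ, Sy^[k] (-(n : ℤ)) ∈ F) (δ / 2) := by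
    refine Dn_iff (fun n hn => and_congr_right fun h8 => ?_) hodd
    rw [neg_one_mul]
    exact Pool.Agent.W26.HN.hit_iff (by omega) hFo
  obtain ⟨d, _, hd1, _, hd2, _, hd3⟩ := Pool.Agent.W26.HN.inv_density
    (S := Pool.Agent.W26.HN.Ba F) (fun N _ _ => Pool.Agent.W26.HN.Ba_inv hS N)
  have hdδ : d = δ := by
    have := tendsto_nhds_unique hd2 hodd'
    linarith
  subst hdδ
  refine ⟨d, Ψ, hδ, hd1, hd3, hodd', h3, h4, ?_, h6, ?_⟩
  · intro t
    have := h5 t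
    rw [ww_PO, qr_PO] at this
    have e1 : d * (Real.log 2 * (1 / 2) / (1 - 1 / 2)) = d * Real.log 2 := by ring
    have e2 : d * (Real.log 2 / (1 - 1 / 2)) = 2 * d * Real.log 2 := by ring
    rwa [e1, e2] at this
  · intro K ε hε
    obtain ⟨X₀, hX0, hX⟩ := h7 K ε hε
    refine ⟨X₀, fun x hx k hk => ?_⟩
    have hx0 : 0 < x := by linarith
    have h8 := hX x hx (k : ℤ) (by rw [A0_PO]; exact_mod_cast hk)
    have e1 : ({n : ℕ | (n : ℝ) ≤ x ∧ n % 2 = 1 ∧ n ∈ Lv PO 1 (-1) F (k : ℤ)}.ncard : ℝ) =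
        ({N : ℤ | -x ≤ (N : ℝ) ∧ N < 0 ∧ Odd N ∧ En F k N}.ncard : ℝ) := by
      have e3 : {N : ℤ | -x ≤ (N : ℝ) ∧ N < 0 ∧ Odd N ∧ En F k N} = (fun n : ℕ => -(n : ℤ)) ''
          {n : ℕ | (n : ℝ) ≤ x ∧ n % 2 = 1 ∧ n ∈ Lv PO 1 (-1) F (k : ℤ)} := by
        ext N
        rw [Set.mem_image]
        constructor
        · rintro ⟨g1, g2, g3, g4⟩
          have g3' := Int.odd_iff.1 g3
          have g5 : -((N.natAbs : ℕ) : ℤ) = N := by omega
          refine ⟨N.natAbs, ⟨?_, by omega, ?_⟩, g5⟩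
          · have g6 : ((N.natAbs : ℕ) : ℝ) = -(N : ℝ) := by
              have h9 : ((N.natAbs : ℕ) : ℤ) = -N := by omega
              rw [← Int.cast_natCast, h9, Int.cast_neg]
            rw [g6]; linarith
          · rw [lv_neg hFo (by omega), g5]
            exact g4
        · rintro ⟨n, ⟨g1, g2, g3⟩, rfl⟩
          rw [lv_neg hFo g2] at g3
          refine ⟨?_, by omega, ?_, g3⟩
          · push_cast
            linarith
          · rw [Int.odd_iff]; omega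
      rw [e3, Set.ncard_image_of_injective _ (fun a b hab => by
        have : -(a : ℤ) = -(b : ℤ) := hab
        omega)]
    have e2 : sv PO (x, (k : ℤ)) = Real.logb 2 (3 ^ k * x) := by
      unfold sv Real.logb
      rw [ww_PO, kap_PO, Real.log_mul (by positivity) hx0.ne', Real.log_pow]
      push_cast
      ring
    rw [e1, e2] at h8
    unfold gd at h8
    rw [A0_PO, ww_PO] at h8
    exact_mod_cast h8

end Pool.Agent.R468.GL
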