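import Pool.Agent.R468.GL.Par

/-!
General local limit law, part 3: the asymptotic number for one first hit.
-/

set_option autoImplicit false

namespace Pool.Agent.R468.GL

open Filter Topology Finset
open Pool.Agent.R468.LL (cen EE EE_pos EE_le_one cen_fst cen_dev tendsto_cen Loc lam lam_eq lam_pos lam_lt exp_sub_le)

/-- the periodic factor -/
noncomputable def ph (w z : ℝ) : ℝ := Real.exp (-(w * Int.fract z))

theorem ph_pos (w z : ℝ) : 0 < ph w z := Real.exp_pos _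

theorem ph_le {w : ℝ} (hw : 0 < w) (z : ℝ) : ph w z ≤ 1 := by
  unfold ph
  apply Real.exp_le_one_iff.2
  have := mul_nonneg hw.le (Int.fract_nonneg z)
  linarith

theorem ph_ge {w : ℝ} (hw : 0 < w) (z : ℝ) : Real.exp (-w) ≤ ph w z := by
  unfold ph
  apply Real.exp_le_exp.2
  have := mul_le_mul_of_nonneg_left (Int.fract_lt_one z).le hw.le
  linarith

theorem ph_int (w z : ℝ) (m : ℤ) : ph w (z + m) = ph w z := by
  unfold ph
  rw [Int.fract_add_intCast]

variable (P : Par)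

/-- the ratio -/
noncomputable def qr : ℝ := Real.exp (-ww P)

theorem qr_pos : 0 < qr P := Real.exp_pos _

theorem qr_lt : qr P < 1 := by
  unfold qr
  rw [Real.exp_lt_one_iff]
  linarith [ww_pos P]

theorem qr_eq : qr P = 1 / ((2 : ℝ) ^ P.α * 3 ^ P.β) := by
  unfold qr ww
  rw [Real.exp_neg, Real.exp_add, mul_comm (P.α : ℝ), mul_comm (P.β : ℝ), Real.exp_mul, Real.exp_mul,
    Real.exp_log (by norm_num), Real.exp_log (by norm_num), Real.rpow_natCast, Real.rpow_natCast, one_div]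

/-- the sum along the line -/
noncomputable def Sl (N : ℕ → ℤ → ℝ) (p : ℕ × ℤ) : ℝ :=
  ∑ j ∈ range (p.1 + 1), (if P.α * j ≤ p.1 then N (p.1 - P.α * j) (p.2 + (P.β * j : ℕ)) else 0)

theorem Sl_eq (N : ℕ → ℤ → ℝ) (p : ℕ × ℤ) :
    (∑ j ∈ range (p.1 + 1), (if P.α * j ≤ p.1 then
      N (p.1 - P.α * j) (p.2 + (P.β * j : ℕ)) * (3 : ℝ) ^ (p.2 + (P.β * j : ℕ)) / 2 ^ (p.1 - P.α * j) else 0) *
        qr P ^ j) = (3 : ℝ) ^ p.2 / 2 ^ p.1 * Sl P N p := by
  unfold Sl
  rw [mul_sum]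
  apply sum_congr rfl
  intro j _
  by_cases h : P.α * j ≤ p.1
  · rw [if_pos h, if_pos h, qr_eq]
    have e1 : (2 : ℝ) ^ p.1 = 2 ^ (p.1 - P.α * j) * 2 ^ (P.α * j) := by
      rw [← pow_add, Nat.sub_add_cancel h]
    have e2 : (3 : ℝ) ^ (p.2 + ((P.β * j : ℕ) : ℤ)) = 3 ^ p.2 * 3 ^ (P.β * j) := by
      rw [zpow_add₀ (by norm_num), zpow_natCast]
    have e3 : (1 / ((2 : ℝ) ^ P.α * 3 ^ P.β)) ^ j = 1 / (2 ^ (P.α * j) * 3 ^ (P.β * j)) := by
      rw [div_pow, one_pow, mul_pow, ← pow_mul, ← pow_mul]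
    rw [e1, e2, e3]
    have h3 : (0 : ℝ) < (3 : ℝ) ^ p.2 := by positivity
    field_simp
  · rw [if_neg h, if_neg h]
    ring

/-- the ratio of the powers -/
theorem pow_ratio {a : ℤ} {c : ℝ} {p : ℝ × ℤ} (hx : 0 < p.1) (hk : (((kz P a c p).toNat : ℕ) : ℝ) = kz P a c p) :
    (3 : ℝ) ^ (oz P a c p) / 2 ^ ((kz P a c p).toNat) = 1 / (p.1 * (Real.exp c * ph (ww P) (-zt P a c p))) := by
  have hw := ww_pos P
  have hb := P.bezR
  have h1 : (⌈zt P a c p⌉ : ℝ) = zt P a c p + th P a c p := by unfold th; ring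
  have e1 : (3 : ℝ) ^ (oz P a c p) = Real.exp (oz P a c p * Real.log 3) := by
    rw [mul_comm, Real.exp_mul, Real.exp_log (by norm_num), Real.rpow_intCast]
  have e2 : (2 : ℝ) ^ ((kz P a c p).toNat) = Real.exp (kz P a c p * Real.log 2) := by
    rw [← hk, mul_comm, Real.exp_mul, Real.exp_log (by norm_num), Real.rpow_natCast]
  have e3 : p.1 * (Real.exp c * ph (ww P) (-zt P a c p)) =
      Real.exp (Real.log p.1 + c - ww P * th P a c p) := by
    unfold ph
    rw [th_fract, sub_eq_add_neg, Real.exp_add, Real.exp_add, Real.exp_log hx, mul_assoc]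
  rw [e1, e2, e3, one_div, ← Real.exp_neg, ← Real.exp_sub]
  congr 1
  have e4 : (kz P a c p : ℝ) * Real.log 2 - oz P a c p * Real.log 3 = ((p.2 : ℝ) - a) * kap P - ⌈zt P a c p⌉ * ww P := by
    unfold kz oz kap ww
    push_cast
    ring
  have e5 : zt P a c p * ww P = ((p.2 : ℝ) - a) * kap P - Real.log p.1 - c := by
    unfold zt
    field_simp
  rw [h1] at e4
  linarith

/-- the asymptotic number for one first hit -/
theorem one_limL {N : ℕ → ℤ → ℝ} {u C : ℝ} (hu : 0 ≤ u)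
    (hM0 : ∀ k o, 0 ≤ N k o * (3 : ℝ) ^ o / 2 ^ k) (hMC : ∀ k o, N k o * (3 : ℝ) ^ o / 2 ^ k ≤ C)
    (hsupp : ∀ (k : ℕ) (o : ℤ), (k : ℤ) < o → N k o * (3 : ℝ) ^ o / 2 ^ k = 0)
    (h : Loc (fun k o => N k o * (3 : ℝ) ^ o / 2 ^ k) u) (a : ℤ) (c K : ℝ) :
    Tendsto (fun p : ℝ × ℤ => Real.sqrt (Real.log p.1) / p.1 * Sl P N (qg P a c p)
      - Real.sqrt (lam / 2) * Real.exp c * ph (ww P) (-zt P a c p) * (u / (1 - qr P)) * Est P p)
      (xg P K) (𝓝 0) := by
  have hlam := lam_pos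
  have hw := ww_pos P
  have hq1 : 0 < 1 - qr P := by linarith [qr_lt P]
  set v : ℝ := u / (1 - qr P) with hv
  have hv0 : 0 ≤ v := by positivity
  have h0 := geoL P.one_le (qr_pos P) (qr_lt P) hu hM0 hMC hsupp h (|K| / ww P + 1)
  have h1 := h0.comp (qg_cen P K a c)
  simp only [Function.comp_def, Sl_eq] at h1
  rw [← hv] at h1
  have h2 := (EE_Est P K a c).const_mul v
  rw [mul_zero] at h2
  have h3 : Tendsto (fun p : ℝ × ℤ => Real.sqrt (qg P a c p).1 *
      ((3 : ℝ) ^ (qg P a c p).2 / 2 ^ (qg P a c p).1 * Sl P N (qg P a c p)) - v * Est P p) (xg P K) (𝓝 0) := by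
    have := h1.add h2
    rw [add_zero] at this
    refine this.congr fun p => ?_
    ring
  have h4 : Tendsto (fun p : ℝ × ℤ => Real.sqrt (Real.log p.1 / (((kz P a c p).toNat : ℕ) : ℝ))) (xg P K)
      (𝓝 (Real.sqrt (lam / 2))) := (log_ratio P K a c).sqrt
  have hb : ∀ p : ℝ × ℤ, 0 ≤ Real.exp c * ph (ww P) (-zt P a c p) ∧
      Real.exp c * ph (ww P) (-zt P a c p) ≤ Real.exp c := by
    intro p
    exact ⟨mul_nonneg (Real.exp_pos _).le (ph_pos _ _).le,
      mul_le_of_le_one_right (Real.exp_pos _).le (ph_le hw _)⟩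
  have hE0 : ∀ p : ℝ × ℤ, 0 < Est P p := fun p => Real.exp_pos _
  have hE1 : ∀ᶠ p : ℝ × ℤ in xg P K, Est P p ≤ 1 := by
    filter_upwards [(xg_log P K).eventually (eventually_gt_atTop 0)] with p hp
    unfold Est
    apply Real.exp_le_one_iff.2
    have : 0 ≤ (p.2 * lam - A0 P * Real.log p.1) ^ 2 * lam / (4 * ww P ^ 2 * Real.log p.1) := by positivity
    linarith
  have h5 : Tendsto (fun p : ℝ × ℤ => Real.sqrt (Real.log p.1 / (((kz P a c p).toNat : ℕ) : ℝ)) *
      (Real.exp c * ph (ww P) (-zt P a c p)) * (Real.sqrt (qg P a c p).1 *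
      ((3 : ℝ) ^ (qg P a c p).2 / 2 ^ (qg P a c p).1 * Sl P N (qg P a c p)) - v * Est P p)) (xg P K) (𝓝 0) := by
    have h6 := ((h4.norm.mul_const (Real.exp c)).mul h3.norm)
    rw [norm_zero, mul_zero] at h6
    refine squeeze_zero_norm (fun p => ?_) h6
    rw [norm_mul, norm_mul]
    apply mul_le_mul_of_nonneg_right _ (norm_nonneg _)
    apply mul_le_mul_of_nonneg_left _ (norm_nonneg _)
    rw [Real.norm_eq_abs, abs_of_nonneg (hb p).1]
    exact (hb p).2
  have h7 : Tendsto (fun p : ℝ × ℤ => (Real.sqrt (Real.log p.1 / (((kz P a c p).toNat : ℕ) : ℝ)) -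
      Real.sqrt (lam / 2)) * ((Real.exp c * ph (ww P) (-zt P a c p)) * (v * Est P p))) (xg P K) (𝓝 0) := by
    have h8 := ((h4.sub_const (Real.sqrt (lam / 2))).norm).mul_const (Real.exp c * v)
    rw [sub_self, norm_zero, zero_mul] at h8
    refine squeeze_zero_norm' ?_ h8
    filter_upwards [hE1] with p hp
    rw [norm_mul]
    apply mul_le_mul_of_nonneg_left _ (norm_nonneg _)
    have h9 : 0 ≤ v * Est P p := by have := hE0 p; positivity
    rw [Real.norm_eq_abs, abs_of_nonneg (mul_nonneg (hb p).1 h9)]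
    apply mul_le_mul (hb p).2 _ h9 (Real.exp_pos _).le
    nlinarith [hE0 p]
  have h10 := h5.add h7
  rw [add_zero] at h10
  refine h10.congr' ?_
  filter_upwards [kz_ge P K a c, (xg_log P K).eventually (eventually_gt_atTop 0),
    (xg_fst P K).eventually (eventually_gt_atTop 0)] with p hz hL hx
  have hk := toNat_eq P hz hL.le
  have hI1 : (0 : ℝ) < (((kz P a c p).toNat : ℕ) : ℝ) := by rw [hk]; linarith
  have e1 : (qg P a c p).1 = (kz P a c p).toNat := rfl
  have e2 : (qg P a c p).2 = oz P a c p := rfl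
  rw [e1, e2, pow_ratio P hx hk]
  have hs : 0 < Real.sqrt (((kz P a c p).toNat : ℕ) : ℝ) := Real.sqrt_pos.2 hI1
  rw [Real.sqrt_div hL.le]
  have hph := ph_pos (ww P) (-zt P a c p)
  have hec := Real.exp_pos c
  generalize Sl P N (qg P a c p) = SS
  field_simp
  ring

end Pool.Agent.R468.GL
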