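import Pool.Agent.R468.GL.Line

/-!
General local limit law, part 2: the statistics and the central region.
-/

set_option autoImplicit false

namespace Pool.Agent.R468.GL

open Filter Topology Finset
open Pool.Agent.R468.LL (cen EE EE_pos EE_le_one cen_fst cen_dev tendsto_cen Loc lam lam_eq lam_pos lam_lt exp_sub_le)

/-- the statistic `α (odd terms) + β (steps)`, with a Bezout pair -/
structure Par where
  α : ℕ
  β : ℕ
  k1 : ℤ
  o1 : ℤ
  bez : (α : ℤ) * o1 + β * k1 = 1

variable (P : Par)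

/-- the logarithm of the ratio of consecutive sizes on a line -/
noncomputable def ww : ℝ := P.α * Real.log 2 + P.β * Real.log 3

noncomputable def kap : ℝ := P.k1 * Real.log 2 - P.o1 * Real.log 3

noncomputable def A0 : ℝ := P.α + 2 * P.β

theorem Par.one_le : 1 ≤ P.α + P.β := by
  by_contra h
  have h1 : P.α = 0 := by omega
  have h2 : P.β = 0 := by omega
  have h3 := P.bez
  rw [h1, h2] at h3
  simp at h3

theorem Par.bezR : (P.α : ℝ) * P.o1 + P.β * P.k1 = 1 := by exact_mod_cast P.bez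

theorem ww_ge : Real.log 2 ≤ ww P := by
  have hl2 : 0 < Real.log 2 := Real.log_pos (by norm_num)
  have hl3 : Real.log 2 ≤ Real.log 3 := Real.log_le_log (by norm_num) (by norm_num)
  have h1 : (1 : ℝ) ≤ P.α + P.β := by exact_mod_cast P.one_le
  have h2 : (0 : ℝ) ≤ P.β := Nat.cast_nonneg _
  unfold ww
  nlinarith

theorem ww_pos : 0 < ww P := lt_of_lt_of_le (Real.log_pos (by norm_num)) (ww_ge P)

theorem A0_ge : 1 ≤ A0 P := by
  have h1 : (1 : ℝ) ≤ P.α + P.β := by exact_mod_cast P.one_le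
  have h2 : (0 : ℝ) ≤ P.β := Nat.cast_nonneg _
  unfold A0
  linarith

/-- the filter of the pairs `(x, j)` in the central region -/
def xg (K : ℝ) : Filter (ℝ × ℤ) :=
  comap Prod.fst atTop ⊓ 𝓟 {p | |p.2 * lam - A0 P * Real.log p.1| ≤ K * Real.sqrt (Real.log p.1)}

theorem xg_fst (K : ℝ) : Tendsto (Prod.fst : ℝ × ℤ → ℝ) (xg P K) atTop :=
  tendsto_comap.mono_left inf_le_left

theorem xg_dev (K : ℝ) : ∀ᶠ p : ℝ × ℤ in xg P K,
    |p.2 * lam - A0 P * Real.log p.1| ≤ K * Real.sqrt (Real.log p.1) :=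
  mem_inf_of_right (mem_principal_self _)

theorem xg_log (K : ℝ) : Tendsto (fun p : ℝ × ℤ => Real.log p.1) (xg P K) atTop :=
  Real.tendsto_log_atTop.comp (xg_fst P K)

theorem xg_sqrt (K : ℝ) : Tendsto (fun p : ℝ × ℤ => Real.sqrt (Real.log p.1)) (xg P K) atTop :=
  Real.tendsto_sqrt_atTop.comp (xg_log P K)

/-- the normal profile -/
noncomputable def Est (p : ℝ × ℤ) : ℝ :=
  Real.exp (-((p.2 * lam - A0 P * Real.log p.1) ^ 2 * lam / (4 * ww P ^ 2 * Real.log p.1)))

/-- the real threshold -/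
noncomputable def zt (a : ℤ) (c : ℝ) (p : ℝ × ℤ) : ℝ :=
  (((p.2 : ℝ) - a) * kap P - Real.log p.1 - c) / ww P

noncomputable def kz (a : ℤ) (c : ℝ) (p : ℝ × ℤ) : ℤ := P.k1 * (p.2 - a) - P.α * ⌈zt P a c p⌉

noncomputable def oz (a : ℤ) (c : ℝ) (p : ℝ × ℤ) : ℤ := P.o1 * (p.2 - a) + P.β * ⌈zt P a c p⌉

/-- the pair of indices -/
noncomputable def qg (a : ℤ) (c : ℝ) (p : ℝ × ℤ) : ℕ × ℤ := ((kz P a c p).toNat, oz P a c p)

/-- the fractional part -/
noncomputable def th (a : ℤ) (c : ℝ) (p : ℝ × ℤ) : ℝ := (⌈zt P a c p⌉ : ℝ) - zt P a c p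

theorem th_nonneg (a : ℤ) (c : ℝ) (p : ℝ × ℤ) : 0 ≤ th P a c p := by
  unfold th
  linarith [Int.le_ceil (zt P a c p)]

theorem th_lt (a : ℤ) (c : ℝ) (p : ℝ × ℤ) : th P a c p < 1 := by
  unfold th
  linarith [Int.ceil_lt_add_one (zt P a c p)]

theorem th_fract (a : ℤ) (c : ℝ) (p : ℝ × ℤ) : Int.fract (-zt P a c p) = th P a c p := by
  unfold th
  rw [Int.fract, Int.floor_neg]
  push_cast
  ring

theorem kz_eq (a : ℤ) (c : ℝ) (p : ℝ × ℤ) : (kz P a c p : ℝ) =
    (((p.2 : ℝ) - a) * Real.log 3 + P.α * (Real.log p.1 + c)) / ww P - P.α * th P a c p := by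
  have hw := (ww_pos P).ne'
  have hb := P.bezR
  have h1 : (⌈zt P a c p⌉ : ℝ) = zt P a c p + th P a c p := by unfold th; ring
  unfold kz
  push_cast
  rw [h1]
  have h2 : (P.k1 : ℝ) * ww P - P.α * kap P = Real.log 3 := by
    unfold ww kap
    linear_combination Real.log 3 * hb
  have h3 : (P.k1 : ℝ) * ((p.2 : ℝ) - a) - P.α * zt P a c p =
      (((p.2 : ℝ) - a) * Real.log 3 + P.α * (Real.log p.1 + c)) / ww P := by
    unfold zt
    rw [eq_div_iff hw, ← h2]
    field_simp
    ring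
  linarith

theorem oz_eq (a : ℤ) (c : ℝ) (p : ℝ × ℤ) : (oz P a c p : ℝ) =
    (((p.2 : ℝ) - a) * Real.log 2 - P.β * (Real.log p.1 + c)) / ww P + P.β * th P a c p := by
  have hw := (ww_pos P).ne'
  have hb := P.bezR
  have h1 : (⌈zt P a c p⌉ : ℝ) = zt P a c p + th P a c p := by unfold th; ring
  unfold oz
  push_cast
  rw [h1]
  have h2 : (P.o1 : ℝ) * ww P + P.β * kap P = Real.log 2 := by
    unfold ww kap
    linear_combination Real.log 2 * hb
  have h3 : (P.o1 : ℝ) * ((p.2 : ℝ) - a) + P.β * zt P a c p =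
      (((p.2 : ℝ) - a) * Real.log 2 - P.β * (Real.log p.1 + c)) / ww P := by
    unfold zt
    rw [eq_div_iff hw, ← h2]
    field_simp
    ring
  linarith

/-- deviation of the indices -/
theorem dev_eq (a : ℤ) (c : ℝ) (p : ℝ × ℤ) :
    2 * (oz P a c p : ℝ) - kz P a c p =
      ((p.2 * lam - A0 P * Real.log p.1) - (a * lam + A0 P * c)) / ww P + A0 P * th P a c p := by
  have hw := (ww_pos P).ne'
  rw [oz_eq, kz_eq, lam_eq]
  unfold A0
  field_simp
  ring

theorem kz_lim (K : ℝ) (a : ℤ) (c : ℝ) :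
    Tendsto (fun p : ℝ × ℤ => (kz P a c p : ℝ) / Real.log p.1) (xg P K) (𝓝 (2 / lam)) := by
  have hlam := lam_pos
  have hw := ww_pos P
  have h1 : Tendsto (fun p : ℝ × ℤ => (p.2 * lam - A0 P * Real.log p.1) / Real.log p.1) (xg P K) (𝓝 0) := by
    have hb : Tendsto (fun p : ℝ × ℤ => |K| / Real.sqrt (Real.log p.1)) (xg P K) (𝓝 0) :=
      tendsto_const_nhds.div_atTop (xg_sqrt P K)
    refine squeeze_zero_norm' ?_ hb
    filter_upwards [xg_dev P K, (xg_log P K).eventually (eventually_gt_atTop 0)] with p h3 h4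
    rw [norm_div, Real.norm_eq_abs, Real.norm_eq_abs, abs_of_pos h4]
    have hr := Real.sqrt_pos.2 h4
    rw [div_le_div_iff₀ h4 hr]
    have h5 : |p.2 * lam - A0 P * Real.log p.1| ≤ |K| * Real.sqrt (Real.log p.1) :=
      h3.trans (mul_le_mul_of_nonneg_right (le_abs_self K) hr.le)
    calc |p.2 * lam - A0 P * Real.log p.1| * Real.sqrt (Real.log p.1)
        ≤ |K| * Real.sqrt (Real.log p.1) * Real.sqrt (Real.log p.1) :=
          mul_le_mul_of_nonneg_right h5 hr.le
      _ = |K| * Real.log p.1 := by rw [mul_assoc, Real.mul_self_sqrt h4.le]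
  have h2 : Tendsto (fun p : ℝ × ℤ => (1 : ℝ) / Real.log p.1) (xg P K) (𝓝 0) :=
    tendsto_const_nhds.div_atTop (xg_log P K)
  have h3 : Tendsto (fun p : ℝ × ℤ => th P a c p / Real.log p.1) (xg P K) (𝓝 0) := by
    refine squeeze_zero' ?_ ?_ h2
    · filter_upwards [(xg_log P K).eventually (eventually_gt_atTop 0)] with p h4
      exact div_nonneg (th_nonneg P a c p) h4.le
    · filter_upwards [(xg_log P K).eventually (eventually_gt_atTop 0)] with p h4
      exact div_le_div_of_nonneg_right (th_lt P a c p).le h4.le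
  have h4 : Tendsto (fun p : ℝ × ℤ => ((((p.2 * lam - A0 P * Real.log p.1) / Real.log p.1 + A0 P) / lam * Real.log 3
      + P.α) + (P.α * c - a * Real.log 3) * (1 / Real.log p.1)) / ww P - P.α * (th P a c p / Real.log p.1)) (xg P K)
      (𝓝 ((((0 + A0 P) / lam * Real.log 3 + P.α) + (P.α * c - a * Real.log 3) * 0) / ww P - P.α * 0)) :=
    (((((h1.add_const (A0 P)).div_const lam).mul_const (Real.log 3)).add_const (P.α : ℝ)).add
      (h2.const_mul (P.α * c - a * Real.log 3))).div_const (ww P) |>.sub (h3.const_mul (P.α : ℝ))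
  have e1 : (((0 + A0 P) / lam * Real.log 3 + P.α) + (P.α * c - a * Real.log 3) * 0) / ww P - P.α * 0 = 2 / lam := by
    have e2 : Real.log 3 = 2 * Real.log 2 - lam := by rw [lam_eq]; ring
    have e3 : (0 + A0 P) / lam * Real.log 3 + P.α = 2 * ww P / lam := by
      unfold A0 ww
      rw [eq_div_iff hlam.ne']
      rw [add_mul, zero_add, div_mul_eq_mul_div, div_mul_cancel₀ _ hlam.ne', lam_eq]
      ring
    rw [e3]
    field_simp
    ring
  rw [e1] at h4
  refine h4.congr' ?_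
  filter_upwards [(xg_log P K).eventually (eventually_gt_atTop 0)] with p hp
  rw [kz_eq]
  field_simp
  ring

theorem kz_ge (K : ℝ) (a : ℤ) (c : ℝ) : ∀ᶠ p : ℝ × ℤ in xg P K, Real.log p.1 + 1 ≤ kz P a c p := by
  have hlam := lam_pos
  have hlam1 := lam_lt
  have h2 : (2 : ℝ) < 2 / lam := by rw [lt_div_iff₀ hlam]; linarith
  filter_upwards [(kz_lim P K a c).eventually (lt_mem_nhds h2), (xg_log P K).eventually (eventually_ge_atTop 1)]
    with p h3 h4
  rw [lt_div_iff₀ (by linarith)] at h3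
  linarith

theorem toNat_eq {a : ℤ} {c : ℝ} {p : ℝ × ℤ} (h : Real.log p.1 + 1 ≤ kz P a c p) (h0 : 0 ≤ Real.log p.1) :
    (((kz P a c p).toNat : ℕ) : ℝ) = kz P a c p := by
  have h1 : (0 : ℝ) ≤ kz P a c p := by linarith
  have h2 : 0 ≤ kz P a c p := by exact_mod_cast h1
  have h3 : (((kz P a c p).toNat : ℕ) : ℤ) = kz P a c p := Int.toNat_of_nonneg h2
  exact_mod_cast h3

/-- the map to the central region -/
theorem qg_cen (K : ℝ) (a : ℤ) (c : ℝ) : Tendsto (qg P a c) (xg P K) (cen (|K| / ww P + 1)) := by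
  have hw := ww_pos P
  have hlam := lam_pos
  have hA := A0_ge P
  apply tendsto_cen
  · have h1 : Tendsto (fun p : ℝ × ℤ => Real.log p.1) (xg P K) atTop := xg_log P K
    have h2 : Tendsto (fun p : ℝ × ℤ => ⌊Real.log p.1⌋₊) (xg P K) atTop := tendsto_nat_floor_atTop.comp h1
    refine tendsto_atTop_mono' _ ?_ h2
    filter_upwards [kz_ge P K a c, h1.eventually (eventually_ge_atTop 0)] with p hp h0
    have h3 := toNat_eq P hp h0
    change ⌊Real.log p.1⌋₊ ≤ (kz P a c p).toNat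
    have h4 : ((⌊Real.log p.1⌋₊ : ℕ) : ℝ) ≤ (((kz P a c p).toNat : ℕ) : ℝ) := by
      rw [h3]
      linarith [Nat.floor_le h0]
    exact_mod_cast h4
  · set C1 : ℝ := (|(a : ℝ)| * lam + A0 P * |c|) / ww P + A0 P with hC1
    filter_upwards [xg_dev P K, kz_ge P K a c, (xg_sqrt P K).eventually (eventually_ge_atTop C1),
      (xg_log P K).eventually (eventually_ge_atTop 1)] with p h3 h4 h5 h6
    have hI := toNat_eq P h4 (by linarith)
    change |2 * ((oz P a c p : ℤ) : ℝ) - (((kz P a c p).toNat : ℕ) : ℝ)| ≤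
      (|K| / ww P + 1) * Real.sqrt (((kz P a c p).toNat : ℕ) : ℝ)
    rw [hI, dev_eq]
    set L := Real.log p.1 with hL
    have hsq : Real.sqrt L ≤ Real.sqrt (kz P a c p : ℝ) := Real.sqrt_le_sqrt (by linarith)
    have hL0 : 0 ≤ Real.sqrt L := Real.sqrt_nonneg _
    have h7 : |((p.2 * lam - A0 P * L) - (a * lam + A0 P * c)) / ww P| ≤ |K| / ww P * Real.sqrt L + (C1 - A0 P) := by
      rw [abs_div, abs_of_pos hw, hC1]
      have h8 : |(p.2 * lam - A0 P * L) - (a * lam + A0 P * c)| ≤ |K| * Real.sqrt L + (|(a : ℝ)| * lam + A0 P * |c|) := by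
        refine (abs_sub _ _).trans (add_le_add ?_ ?_)
        · exact h3.trans (mul_le_mul_of_nonneg_right (le_abs_self K) hL0)
        · refine (abs_add_le _ _).trans ?_
          rw [abs_mul, abs_of_pos hlam, abs_mul, abs_of_pos (by linarith : 0 < A0 P)]
      calc _ ≤ (|K| * Real.sqrt L + (|(a : ℝ)| * lam + A0 P * |c|)) / ww P := div_le_div_of_nonneg_right h8 hw.le
        _ = _ := by ring
    have h9 : |A0 P * th P a c p| ≤ A0 P := by
      rw [abs_of_nonneg (mul_nonneg (by linarith) (th_nonneg P a c p))]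
      have := (th_lt P a c p).le
      nlinarith
    have hKw : 0 ≤ |K| / ww P := by positivity
    refine (abs_add_le _ _).trans ?_
    have h10 : |K| / ww P * Real.sqrt L ≤ |K| / ww P * Real.sqrt (kz P a c p : ℝ) :=
      mul_le_mul_of_nonneg_left hsq hKw
    linarith

theorem log_ratio (K : ℝ) (a : ℤ) (c : ℝ) :
    Tendsto (fun p : ℝ × ℤ => Real.log p.1 / (((kz P a c p).toNat : ℕ) : ℝ)) (xg P K) (𝓝 (lam / 2)) := by
  have hlam := lam_pos
  have h6 := (kz_lim P K a c).inv₀ (by positivity : (2 : ℝ) / lam ≠ 0)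
  have e2 : ((2 : ℝ) / lam)⁻¹ = lam / 2 := by rw [inv_div]
  rw [e2] at h6
  refine h6.congr' ?_
  filter_upwards [kz_ge P K a c, (xg_log P K).eventually (eventually_ge_atTop 0)] with p h1 h2
  rw [inv_div, toNat_eq P h1 h2]

theorem EE_Est (K : ℝ) (a : ℤ) (c : ℝ) :
    Tendsto (fun p : ℝ × ℤ => EE (qg P a c p) - Est P p) (xg P K) (𝓝 0) := by
  have hw := ww_pos P
  have hlam := lam_pos
  have hA := A0_ge P
  set C1 : ℝ := (|(a : ℝ)| * lam + A0 P * |c|) / ww P + A0 P with hC1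
  have hC10 : 0 < C1 := by positivity
  have h1 := (((log_ratio P K a c).sub_const (lam / 2)).norm).const_mul (|K| ^ 2 / (2 * ww P ^ 2))
  rw [sub_self, norm_zero, mul_zero] at h1
  have h2 : Tendsto (fun p : ℝ × ℤ => (2 * |K| * C1 / ww P + C1 ^ 2) / Real.sqrt (Real.log p.1))
      (xg P K) (𝓝 0) := tendsto_const_nhds.div_atTop (xg_sqrt P K)
  have h3 := h1.add h2
  rw [add_zero] at h3
  refine squeeze_zero_norm' ?_ h3
  filter_upwards [xg_dev P K, kz_ge P K a c, (xg_log P K).eventually (eventually_ge_atTop 1)] with p h4 h5 h6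
  have hIeq := toNat_eq P h5 (by linarith)
  have hEE : EE (qg P a c p) = Real.exp (-((2 * (oz P a c p : ℝ) - (((kz P a c p).toNat : ℕ) : ℝ)) ^ 2 /
      (2 * (((kz P a c p).toNat : ℕ) : ℝ)))) := by
    unfold EE qg
    rw [neg_div]
  rw [hEE, Real.norm_eq_abs]
  unfold Est
  have hd := dev_eq P a c p
  rw [hIeq]
  set L := Real.log p.1 with hL
  set I : ℝ := (((kz P a c p).toNat : ℕ) : ℝ) with hI
  rw [← hIeq]
  rw [← hIeq] at hd
  set D : ℝ := p.2 * lam - A0 P * L with hD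
  have hL0 : 0 < L := by linarith
  have hIL : L ≤ I := by linarith
  have hI0 : 0 < I := by linarith
  have hr0 : 0 < Real.sqrt L := Real.sqrt_pos.2 hL0
  have hrr : Real.sqrt L * Real.sqrt L = L := Real.mul_self_sqrt hL0.le
  have hr1 : 1 ≤ Real.sqrt L := by
    rw [show (1 : ℝ) = Real.sqrt 1 by simp]
    exact Real.sqrt_le_sqrt h6
  set e : ℝ := 2 * (oz P a c p : ℝ) - I - D / ww P with he
  have hDK : |D| ≤ |K| * Real.sqrt L := h4.trans (mul_le_mul_of_nonneg_right (le_abs_self K) hr0.le)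
  have heC : |e| ≤ C1 := by
    have e1 : e = -(a * lam + A0 P * c) / ww P + A0 P * th P a c p := by
      rw [he, hd]
      field_simp
      ring
    rw [e1]
    refine (abs_add_le _ _).trans ?_
    rw [hC1]
    apply add_le_add
    · rw [abs_div, abs_neg, abs_of_pos hw]
      apply div_le_div_of_nonneg_right _ hw.le
      refine (abs_add_le _ _).trans ?_
      rw [abs_mul, abs_of_pos hlam, abs_mul, abs_of_pos (by linarith : 0 < A0 P)]
    · rw [abs_of_nonneg (mul_nonneg (by linarith) (th_nonneg P a c p))]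
      have := (th_lt P a c p).le
      nlinarith
  refine (exp_sub_le (by positivity) (by positivity)).trans ?_
  have e2 : 2 * (oz P a c p : ℝ) - I = D / ww P + e := by rw [he]; ring
  rw [e2]
  have e3 : (D / ww P + e) ^ 2 / (2 * I) - D ^ 2 * lam / (4 * ww P ^ 2 * L) =
      (D ^ 2 / L) / (2 * ww P ^ 2) * (L / I - lam / 2) + (2 * D * e / ww P + e ^ 2) / (2 * I) := by
    field_simp
    ring
  rw [e3]
  refine (abs_add_le _ _).trans (add_le_add ?_ ?_)
  · rw [abs_mul, Real.norm_eq_abs]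
    apply mul_le_mul_of_nonneg_right _ (abs_nonneg _)
    rw [abs_of_nonneg (by positivity)]
    apply div_le_div_of_nonneg_right _ (by positivity)
    rw [div_le_iff₀ hL0]
    have : |D| ^ 2 ≤ (|K| * Real.sqrt L) ^ 2 := pow_le_pow_left₀ (abs_nonneg D) hDK 2
    rw [sq_abs, mul_pow, Real.sq_sqrt hL0.le] at this
    exact this
  · rw [abs_div, abs_of_pos (by positivity : 0 < 2 * I), div_le_div_iff₀ (by positivity) hr0]
    have k1 : |2 * D * e / ww P + e ^ 2| ≤ 2 * (|K| * Real.sqrt L) * C1 / ww P + C1 ^ 2 := by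
      refine (abs_add_le _ _).trans (add_le_add ?_ ?_)
      · rw [abs_div, abs_of_pos hw, abs_mul, abs_mul, abs_two]
        apply div_le_div_of_nonneg_right _ hw.le
        apply mul_le_mul _ heC (abs_nonneg _) (by positivity)
        linarith
      · rw [abs_of_nonneg (by positivity)]
        have : |e| ^ 2 ≤ C1 ^ 2 := pow_le_pow_left₀ (abs_nonneg e) heC 2
        rwa [sq_abs] at this
    have k2 : 2 * (|K| * Real.sqrt L) * C1 / ww P + C1 ^ 2 ≤
        (2 * |K| * C1 / ww P + C1 ^ 2) * Real.sqrt L := by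
      have e4 : 2 * (|K| * Real.sqrt L) * C1 / ww P = 2 * |K| * C1 / ww P * Real.sqrt L := by ring
      rw [e4, add_mul]
      have : C1 ^ 2 ≤ C1 ^ 2 * Real.sqrt L := le_mul_of_one_le_right (by positivity) hr1
      linarith
    calc |2 * D * e / ww P + e ^ 2| * Real.sqrt L
        ≤ ((2 * |K| * C1 / ww P + C1 ^ 2) * Real.sqrt L) * Real.sqrt L :=
          mul_le_mul_of_nonneg_right (k1.trans k2) hr0.le
      _ = (2 * |K| * C1 / ww P + C1 ^ 2) * L := by rw [mul_assoc, hrr]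
      _ ≤ (2 * |K| * C1 / ww P + C1 ^ 2) * (2 * I) := by
        apply mul_le_mul_of_nonneg_left _ (by positivity)
        linarith

end Pool.Agent.R468.GL
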