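import Pool.Agent.R468.GL.Osc

/-!
General local limit law, part 10: the limiting profile.
-/

set_option autoImplicit false

namespace Pool.Agent.R468.GL

open Filter Topology Finset
open Pool.Agent.H499R2.LT
open Pool.Agent.H499R2.ND (Td HD G pos mem_pos)
open Pool.Agent.R468.LL (lam lam_eq lam_pos lam_lt mem_FY rad rad_lim hd_nn)

variable (P : Par)

/-- the path on which the phase is `s` modulo one -/
noncomputable def pth (s : ℝ) (h : ℕ) : ℝ × ℤ :=
  (Real.exp (s * ww P + h * lam), ((P.α : ℤ) + 2 * P.β) * (h : ℤ))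

theorem pth_lin (s : ℝ) : Tendsto (fun h : ℕ => s * ww P + h * lam) atTop atTop :=
  tendsto_atTop_add_const_left _ _ (tendsto_natCast_atTop_atTop.atTop_mul_const lam_pos)

theorem pth_dev (s : ℝ) (h : ℕ) : (((pth P s h).2 : ℤ) : ℝ) * lam - A0 P * Real.log (pth P s h).1 =
    -(A0 P * (s * ww P)) := by
  unfold pth A0
  simp only [Real.log_exp]
  push_cast
  ring

theorem pth_xg (s : ℝ) : Tendsto (pth P s) atTop (xg P 1) := by
  have hlin := pth_lin P s
  refine tendsto_inf.2 ⟨tendsto_comap_iff.2 ?_, tendsto_principal.2 ?_⟩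
  · exact Real.tendsto_exp_atTop.comp hlin
  · have h1 := (Real.tendsto_sqrt_atTop.comp hlin).eventually (eventually_ge_atTop |A0 P * (s * ww P)|)
    filter_upwards [h1] with h hh
    rw [pth_dev, abs_neg, one_mul]
    unfold pth
    simp only [Real.log_exp]
    exact hh

theorem sv_pth (s : ℝ) (h : ℕ) : sv P (pth P s h) = s + (((-(P.k1 - 2 * P.o1)) * h : ℤ) : ℝ) := by
  have hw := ww_pos P
  have hb := P.bezR
  unfold sv pth
  simp only [Real.log_exp]
  rw [div_eq_iff hw.ne']
  have e : ((P.α : ℝ) + 2 * P.β) * kap P = lam + (P.k1 - 2 * P.o1) * ww P := by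
    unfold kap ww
    rw [lam_eq]
    linear_combination (2 * Real.log 2 - Real.log 3) * hb
  push_cast
  linear_combination -(h : ℝ) * e

theorem Est_pth (s : ℝ) : Tendsto (fun h : ℕ => Est P (pth P s h)) atTop (𝓝 1) := by
  have hw := ww_pos P
  have h1 : Tendsto (fun h : ℕ => -((A0 P * (s * ww P)) ^ 2 * lam / (4 * ww P ^ 2) /
      (s * ww P + h * lam))) atTop (𝓝 (-0)) :=
    (tendsto_const_nhds.div_atTop (pth_lin P s)).neg
  rw [neg_zero] at h1
  have h2 := (Real.continuous_exp.tendsto 0).comp h1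
  rw [Real.exp_zero] at h2
  refine h2.congr fun h => ?_
  unfold Est
  simp only [Function.comp_def]
  rw [pth_dev]
  congr 1
  have e : Real.log (pth P s h).1 = s * ww P + h * lam := by unfold pth; rw [Real.log_exp]
  rw [e, neg_sq, div_div]

variable (d : ℤ) (F : Finset ℤ)

theorem UY_int (u : ℤ → ℝ) (Y : ℕ) (r s : ℝ) (m : ℤ) : UY P d F u Y r (s + m) = UY P d F u Y r s := by
  unfold UY
  apply sum_congr rfl
  intro g _
  rw [show s + (m : ℝ) - (lV P d F g - r) / ww P = (s - (lV P d F g - r) / ww P) + m by ring, ph_int]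

variable {d} {F}

theorem lo_le_up (hd : Odd d) (hd3 : IsCoprime d 3) {Y Y' : ℕ} {r r' : ℝ} {u δ u' δ' : ℤ → ℝ}
    (L : Lvl d F Y r u δ) (L' : Lvl d F Y' r' u' δ') (s : ℝ) :
    UY P d F u Y (-r) s ≤ UY P d F u' Y' r' s := by
  apply le_of_forall_pos_le_add
  intro ε hε
  have h1 := (pth_xg P s).eventually (sandwich P hd hd3 L 1 (show 0 < ε / 2 by linarith))
  have h2 := (pth_xg P s).eventually (sandwich P hd hd3 L' 1 (show 0 < ε / 2 by linarith))
  have h3 : ∀ᶠ h : ℕ in atTop, UY P d F u Y (-r) s * Est P (pth P s h) - ε / 2 ≤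
      UY P d F u' Y' r' s * Est P (pth P s h) + ε / 2 := by
    filter_upwards [h1, h2] with h h1 h2
    simp only [sv_pth, UY_int] at h1 h2
    linarith [h1.1, h2.2]
  have hE := Est_pth P s
  have h4 : Tendsto (fun h : ℕ => UY P d F u Y (-r) s * Est P (pth P s h) - ε / 2) atTop
      (𝓝 (UY P d F u Y (-r) s * 1 - ε / 2)) := (hE.const_mul _).sub_const _
  have h5 : Tendsto (fun h : ℕ => UY P d F u' Y' r' s * Est P (pth P s h) + ε / 2) atTop
      (𝓝 (UY P d F u' Y' r' s * 1 + ε / 2)) := (hE.const_mul _).add_const _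
  have h6 := le_of_tendsto_of_tendsto h4 h5 h3
  linarith

/-! ### the integral of `ph` -/

theorem ph_meas (w : ℝ) : Measurable (ph w) := by
  unfold ph
  exact Real.measurable_exp.comp ((measurable_fract.const_mul w).neg)

theorem ph_intble {w : ℝ} (hw : 0 < w) (a b c : ℝ) :
    IntervalIntegrable (fun s => ph w (s - c)) MeasureTheory.volume a b := by
  have h1 : IntervalIntegrable (fun _ : ℝ => (1 : ℝ)) MeasureTheory.volume a b := intervalIntegrable_const
  refine h1.mono_fun ?_ ?_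
  · exact ((ph_meas w).comp (measurable_id.sub_const c)).aestronglyMeasurable
  · refine Filter.Eventually.of_forall fun s => ?_
    simp only [Real.norm_eq_abs, abs_one]
    rw [abs_of_pos (ph_pos _ _)]
    exact ph_le hw _

theorem ph_base {w : ℝ} (hw : 0 < w) : ∫ s in (0 : ℝ)..1, ph w s = (1 - Real.exp (-w)) / w := by
  have h1 : ∫ s in (0 : ℝ)..1, ph w s = ∫ s in (0 : ℝ)..1, Real.exp ((-w) * s) := by
    apply intervalIntegral.integral_congr_ae
    have h0 : ∀ᵐ x : ℝ ∂MeasureTheory.volume, x ≠ 1 := by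
      rw [MeasureTheory.ae_iff]
      simp
    filter_upwards [h0] with x hx hx'
    rw [Set.uIoc_of_le (by norm_num)] at hx'
    have hx1 : x < 1 := lt_of_le_of_ne hx'.2 hx
    unfold ph
    rw [Int.fract_eq_self.2 ⟨hx'.1.le, hx1⟩]
    congr 1; ring
  rw [h1, intervalIntegral.integral_comp_mul_left (fun x => Real.exp x) (by linarith : -w ≠ 0), integral_exp,
    mul_one, mul_zero, Real.exp_zero, smul_eq_mul]
  field_simp
  ring

theorem ph_integral {w : ℝ} (hw : 0 < w) (c : ℝ) :
    ∫ s in (0 : ℝ)..1, ph w (s - c) = (1 - Real.exp (-w)) / w := by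
  have hper : Function.Periodic (ph w) 1 := by
    intro z
    have := ph_int w z 1
    push_cast at this
    exact this
  rw [intervalIntegral.integral_comp_sub_right (fun x => ph w x) c, ← ph_base hw]
  have h := hper.intervalIntegral_add_eq (0 - c) 0
  rw [zero_add] at h
  rw [show (1 : ℝ) - c = 0 - c + 1 by ring]
  exact h

theorem UY_integral (u : ℤ → ℝ) (Y : ℕ) (r : ℝ) : ∫ s in (0 : ℝ)..1, UY P d F u Y r s =
    (∑ g ∈ GG d F Y, bw P u g) * Real.exp r * ((1 - qr P) / ww P) := by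
  unfold UY
  rw [intervalIntegral.integral_finsetSum]
  · rw [sum_mul, sum_mul]
    apply sum_congr rfl
    intro g _
    rw [intervalIntegral.integral_const_mul, intervalIntegral.integral_const_mul, ph_integral (ww_pos P)]
    unfold qr
    ring
  · intro g _
    exact ((ph_intble (ww_pos P) 0 1 _).const_mul _).const_mul _

theorem UY_intble (u : ℤ → ℝ) (Y : ℕ) (r : ℝ) : IntervalIntegrable (UY P d F u Y r) MeasureTheory.volume 0 1 := by
  unfold UY
  have : (fun s => ∑ g ∈ GG d F Y, bw P u g * (Real.exp r * ph (ww P) (s - (lV P d F g - r) / ww P))) =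
      ∑ g ∈ GG d F Y, (fun s => bw P u g * (Real.exp r * ph (ww P) (s - (lV P d F g - r) / ww P))) := by
    ext s
    rw [Finset.sum_apply]
  rw [this]
  apply IntervalIntegrable.sum
  intro g _
  exact ((ph_intble (ww_pos P) 0 1 _).const_mul _).const_mul _

/-- THE PROFILE -/
theorem profile (hd : Odd d) (hd3 : IsCoprime d 3) (F : Finset ℤ) : ∃ (D : ℝ) (U : ℝ → ℝ), HD 1 (RR d F) D ∧
    Continuous U ∧ (∀ s, U (s + 1) = U s) ∧
    (∀ s, cst P * D * qr P ≤ U s ∧ U s ≤ cst P * D) ∧
    (∫ s in (0 : ℝ)..1, U s = cst P * D * ((1 - qr P) / ww P)) ∧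
    ∀ K : ℝ, Tendsto (fun p : ℝ × ℤ => Real.sqrt (Real.log p.1) / p.1 * FC P d F p.1 p.2 -
      U (sv P p) * Est P p) (xg P K) (𝓝 0) := by
  have hw := ww_pos P
  obtain ⟨D, Y0, C, u, δ, η, hD, H⟩ := dat_exists P hd hd3 F
  have hD0 : 0 ≤ D := hd_nn hD
  have hcst := cst_pos P
  have hq := oq_pos P
  have hq0 := qr_pos P
  set lo : ℕ → ℝ → ℝ := fun Y s => UY P d F (u Y) Y (-rad C Y) s with hlo
  set up : ℕ → ℝ → ℝ := fun Y s => UY P d F (u Y) Y (rad C Y) s with hup
  have hle : ∀ Y, Y0 ≤ Y → ∀ Y', Y0 ≤ Y' → ∀ s, lo Y s ≤ up Y' s := fun Y hY Y' hY' s =>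
    lo_le_up P hd hd3 (H.lvl Y hY) (H.lvl Y' hY') s
  set U : ℝ → ℝ := fun s => ⨆ n : ℕ, lo (Y0 + n) s with hU
  have hbdd : ∀ s, BddAbove (Set.range fun n : ℕ => lo (Y0 + n) s) := by
    intro s
    refine ⟨up Y0 s, ?_⟩
    rintro _ ⟨n, rfl⟩
    exact hle _ (Nat.le_add_right _ _) _ le_rfl s
  have hU1 : ∀ Y, Y0 ≤ Y → ∀ s, lo Y s ≤ U s := by
    intro Y hY s
    obtain ⟨n, rfl⟩ := Nat.exists_eq_add_of_le hY
    exact le_ciSup (hbdd s) n
  have hU2 : ∀ Y, Y0 ≤ Y → ∀ s, U s ≤ up Y s := by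
    intro Y hY s
    exact ciSup_le fun n => hle _ (Nat.le_add_right _ _) _ hY s
  have hosc : ∀ Y, Y0 ≤ Y → ∀ s s' : ℝ, |s' - s| * ww P ≤ rad C Y → up Y s' - lo Y s ≤ η Y :=
    fun Y hY s s' h => H.osc Y hY s s' h
  have hosc0 : ∀ Y, Y0 ≤ Y → ∀ s : ℝ, up Y s - lo Y s ≤ η Y := by
    intro Y hY s
    apply hosc Y hY s s
    rw [sub_self, abs_zero, zero_mul]
    exact (H.rpos Y hY).le
  -- masses
  have hmassup : ∀ Y, Y0 ≤ Y → ∑ g ∈ GG d F Y, bw P (u Y) g ≤
      cst P * (Real.exp (rad C Y) * (1 + 2 * rad C Y)) * D := by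
    intro Y hY
    rw [← H.sum Y hY, mul_sum]
    exact sum_le_sum (H.up Y hY)
  have hmasslo : ∀ Y, Y0 ≤ Y → cst P * (Real.exp (-rad C Y) * (1 - 2 * rad C Y)) * D ≤
      ∑ g ∈ GG d F Y, bw P (u Y) g := by
    intro Y hY
    rw [← H.sum Y hY, mul_sum]
    exact sum_le_sum (H.lo Y hY)
  have hr := rad_lim C
  -- limits of the factors
  have hfup : Tendsto (fun Y => cst P * (Real.exp (rad C Y) * (1 + 2 * rad C Y)) * D * Real.exp (rad C Y)) atTop
      (𝓝 (cst P * D)) := by
    have h1 : Tendsto (fun Y => Real.exp (rad C Y)) atTop (𝓝 (Real.exp 0)) := (Real.continuous_exp.tendsto 0).comp hr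
    rw [Real.exp_zero] at h1
    have h2 := (((h1.mul ((hr.const_mul 2).const_add 1)).const_mul (cst P)).mul_const D).mul h1
    refine h2.trans (le_of_eq ?_)
    congr 1; ring
  have hflo : Tendsto (fun Y => cst P * (Real.exp (-rad C Y) * (1 - 2 * rad C Y)) * D * Real.exp (-rad C Y)) atTop
      (𝓝 (cst P * D)) := by
    have h1 : Tendsto (fun Y => Real.exp (-rad C Y)) atTop (𝓝 (Real.exp (-0))) :=
      (Real.continuous_exp.tendsto (-0)).comp hr.neg
    rw [neg_zero, Real.exp_zero] at h1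
    have h2 := (((h1.mul ((hr.const_mul 2).const_sub 1)).const_mul (cst P)).mul_const D).mul h1
    refine h2.trans (le_of_eq ?_)
    congr 1; ring
  -- continuity
  have hcont : Continuous U := by
    rw [Metric.continuous_iff]
    intro s ε hε
    obtain ⟨Y, hY1, hY2⟩ := ((H.eta.eventually (gt_mem_nhds hε)).and (eventually_ge_atTop Y0)).exists
    refine ⟨rad C Y / ww P, div_pos (H.rpos Y hY2) hw, ?_⟩
    intro s' hs'
    rw [Real.dist_eq] at hs'
    have h1 : |s' - s| * ww P ≤ rad C Y := by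
      rw [lt_div_iff₀ hw] at hs'
      exact hs'.le
    have h2 : |s - s'| * ww P ≤ rad C Y := by rw [abs_sub_comm]; exact h1
    have h3 := hosc Y hY2 s s' h1
    have h4 := hosc Y hY2 s' s h2
    rw [Real.dist_eq, abs_lt]
    constructor
    · linarith [hU1 Y hY2 s', hU2 Y hY2 s]
    · linarith [hU1 Y hY2 s, hU2 Y hY2 s']
  refine ⟨D, U, hD, hcont, ?_, ?_, ?_, ?_⟩
  · intro s
    have h1 : ∀ n : ℕ, lo (Y0 + n) (s + 1) = lo (Y0 + n) s := by
      intro n
      have := UY_int P d F (u (Y0 + n)) (Y0 + n) (-rad C (Y0 + n)) s 1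
      push_cast at this
      exact this
    change ⨆ n : ℕ, lo (Y0 + n) (s + 1) = ⨆ n : ℕ, lo (Y0 + n) s
    congr 1
    funext n
    exact h1 n
  · intro s
    constructor
    · have h1 : ∀ᶠ Y in atTop, cst P * (Real.exp (-rad C Y) * (1 - 2 * rad C Y)) * D * Real.exp (-rad C Y) * qr P ≤
          U s := by
        filter_upwards [eventually_ge_atTop Y0] with Y hY
        refine le_trans ?_ (hU1 Y hY s)
        have hE := Real.exp_pos (-rad C Y)
        have h2 : (∑ g ∈ GG d F Y, bw P (u Y) g) * (Real.exp (-rad C Y) * qr P) ≤ lo Y s := by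
          rw [sum_mul]
          apply sum_le_sum
          intro g _
          apply mul_le_mul_of_nonneg_left _ (bw_nonneg P (H.lvl Y hY).u0 g)
          exact mul_le_mul_of_nonneg_left (ph_ge hw _) hE.le
        refine le_trans ?_ h2
        have h3 := mul_le_mul_of_nonneg_right (hmasslo Y hY) (show 0 ≤ Real.exp (-rad C Y) * qr P by positivity)
        refine le_trans (le_of_eq ?_) h3
        ring
      exact le_of_tendsto (hflo.mul_const (qr P)) h1
    · have h1 : ∀ᶠ Y in atTop, U s ≤ cst P * (Real.exp (rad C Y) * (1 + 2 * rad C Y)) * D * Real.exp (rad C Y) := by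
        filter_upwards [eventually_ge_atTop Y0] with Y hY
        refine le_trans (hU2 Y hY s) ?_
        have hE := Real.exp_pos (rad C Y)
        have h2 : up Y s ≤ (∑ g ∈ GG d F Y, bw P (u Y) g) * Real.exp (rad C Y) := by
          rw [sum_mul]
          apply sum_le_sum
          intro g _
          apply mul_le_mul_of_nonneg_left _ (bw_nonneg P (H.lvl Y hY).u0 g)
          have := ph_le hw (s - (lV P d F g - rad C Y) / ww P)
          nlinarith
        exact h2.trans (mul_le_mul_of_nonneg_right (hmassup Y hY) hE.le)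
      exact ge_of_tendsto hfup h1
  · have hUi : IntervalIntegrable U MeasureTheory.volume 0 1 := hcont.intervalIntegrable 0 1
    have hqw : 0 ≤ (1 - qr P) / ww P := by positivity
    apply le_antisymm
    · have h1 : ∀ᶠ Y in atTop, ∫ s in (0 : ℝ)..1, U s ≤
          cst P * (Real.exp (rad C Y) * (1 + 2 * rad C Y)) * D * Real.exp (rad C Y) * ((1 - qr P) / ww P) := by
        filter_upwards [eventually_ge_atTop Y0] with Y hY
        have h2 : ∫ s in (0 : ℝ)..1, U s ≤ ∫ s in (0 : ℝ)..1, up Y s :=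
          intervalIntegral.integral_mono_on (by norm_num) hUi (UY_intble P _ _ _) fun s _ => hU2 Y hY s
        have h3 : ∫ s in (0 : ℝ)..1, up Y s = _ := UY_integral P (u Y) Y (rad C Y)
        rw [h3] at h2
        refine h2.trans ?_
        apply mul_le_mul_of_nonneg_right _ hqw
        exact mul_le_mul_of_nonneg_right (hmassup Y hY) (Real.exp_pos _).le
      exact ge_of_tendsto (hfup.mul_const ((1 - qr P) / ww P)) h1
    · have h1 : ∀ᶠ Y in atTop, cst P * (Real.exp (-rad C Y) * (1 - 2 * rad C Y)) * D * Real.exp (-rad C Y) *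
          ((1 - qr P) / ww P) ≤ ∫ s in (0 : ℝ)..1, U s := by
        filter_upwards [eventually_ge_atTop Y0] with Y hY
        have h2 : ∫ s in (0 : ℝ)..1, lo Y s ≤ ∫ s in (0 : ℝ)..1, U s :=
          intervalIntegral.integral_mono_on (by norm_num) (UY_intble P _ _ _) hUi fun s _ => hU1 Y hY s
        have h3 : ∫ s in (0 : ℝ)..1, lo Y s = _ := UY_integral P (u Y) Y (-rad C Y)
        rw [h3] at h2
        refine le_trans ?_ h2
        apply mul_le_mul_of_nonneg_right _ hqw
        exact mul_le_mul_of_nonneg_right (hmasslo Y hY) (Real.exp_pos _).le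
      exact le_of_tendsto (hflo.mul_const ((1 - qr P) / ww P)) h1
  · intro K
    rw [Metric.tendsto_nhds]
    intro ε hε
    obtain ⟨Y, hY1, hY2⟩ := ((H.eta.eventually (gt_mem_nhds (show 0 < ε / 3 by linarith))).and
      (eventually_ge_atTop Y0)).exists
    filter_upwards [sandwich P hd hd3 (H.lvl Y hY2) K (show 0 < ε / 3 by linarith),
      (xg_log P K).eventually (eventually_gt_atTop 0)] with p h1 h2
    have hE0 : 0 < Est P p := Real.exp_pos _
    have hE1 : Est P p ≤ 1 := by
      unfold Est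
      apply Real.exp_le_one_iff.2
      have := lam_pos
      have : 0 ≤ (p.2 * lam - A0 P * Real.log p.1) ^ 2 * lam / (4 * ww P ^ 2 * Real.log p.1) := by positivity
      linarith
    have h3 := hU1 Y hY2 (sv P p)
    have h4 := hU2 Y hY2 (sv P p)
    have h5 := hosc0 Y hY2 (sv P p)
    change UY P d F (u Y) Y (-rad C Y) (sv P p) ≤ U (sv P p) at h3
    change U (sv P p) ≤ UY P d F (u Y) Y (rad C Y) (sv P p) at h4
    change UY P d F (u Y) Y (rad C Y) (sv P p) - UY P d F (u Y) Y (-rad C Y) (sv P p) ≤ η Y at h5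
    have h6 : (UY P d F (u Y) Y (rad C Y) (sv P p) - UY P d F (u Y) Y (-rad C Y) (sv P p)) * Est P p ≤ ε / 3 := by
      have h7 : (UY P d F (u Y) Y (rad C Y) (sv P p) - UY P d F (u Y) Y (-rad C Y) (sv P p)) * Est P p ≤
          (UY P d F (u Y) Y (rad C Y) (sv P p) - UY P d F (u Y) Y (-rad C Y) (sv P p)) * 1 :=
        mul_le_mul_of_nonneg_left hE1 (by linarith)
      linarith
    have h8 := mul_le_mul_of_nonneg_right h3 hE0.le
    have h9 := mul_le_mul_of_nonneg_right h4 hE0.le
    rw [Real.dist_eq, sub_zero, abs_lt]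
    constructor
    · linarith [h1.1]
    · linarith [h1.2]

end Pool.Agent.R468.GL
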