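import Pool.Agent.R468.GL.Cut

/-!
General local limit law, part 5: the sandwich.
-/

set_option autoImplicit false

namespace Pool.Agent.R468.GL

open Filter Topology Finset
open Pool.Agent.H499R2.LT
open Pool.Agent.H499R2.ND (Td HD G pos mem_pos)
open Pool.Agent.R468.LL (cen EE EE_pos EE_le_one cen_fst cen_dev tendsto_cen Loc lam lam_eq lam_pos lam_lt exp_sub_le mem_FY)

variable (P : Par) (d : ℤ) (F : Finset ℤ)

/-- the phase of a pair -/
noncomputable def sv (p : ℝ × ℤ) : ℝ := (Real.log p.1 - p.2 * kap P) / ww P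

/-- the phase of an element, times `ww` -/
noncomputable def lV (g : ℤ) : ℝ := Real.log g - st P d F g * kap P

theorem ph_zt (g : ℤ) (r : ℝ) (p : ℝ × ℤ) :
    ph (ww P) (-zt P (st P d F g) (-Real.log g + r) p) = ph (ww P) (sv P p - (lV P d F g - r) / ww P) := by
  have hw := (ww_pos P).ne'
  congr 1
  unfold zt sv lV
  field_simp
  ring

/-- the weight of `g` -/
noncomputable def bw (u : ℤ → ℝ) (g : ℤ) : ℝ :=
  Real.sqrt (lam / 2) * (u g / (1 - qr P)) * Real.exp (-Real.log g)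

/-- the sums -/
noncomputable def UY (u : ℤ → ℝ) (Y : ℕ) (r s : ℝ) : ℝ :=
  ∑ g ∈ GG d F Y, bw P u g * (Real.exp r * ph (ww P) (s - (lV P d F g - r) / ww P))

/-- the data at a level -/
structure Lvl (Y : ℕ) (r : ℝ) (u δ : ℤ → ℝ) : Prop where
  Y1 : 1 ≤ Y
  Yd : |d| ≤ Y
  sub : F ⊆ FY Y
  r0 : 0 ≤ r
  hit : ∀ (x g : ℤ) (j : ℕ), x ≠ 0 → Hit d (FY Y) g x j →
      g ≠ 0 ∧ |Real.log (x : ℝ) + od d j x * Real.log 3 - j * Real.log 2 - Real.log (g : ℝ)| ≤ r
  u0 : ∀ g, 0 ≤ u g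
  loc : ∀ g, Loc (MM d (FY Y) g) (u g)
  den : ∀ g, HD 1 (PF d (FY Y) g) (δ g)

theorem MM_supp {g : ℤ} {Y k : ℕ} {o : ℤ} (h : (k : ℤ) < o) : NN d (FY Y) g k o * (3 : ℝ) ^ o / 2 ^ k = 0 := by
  rw [NN_supp h]
  simp

theorem oz_ge (K : ℝ) (a : ℤ) (c : ℝ) : ∀ᶠ p : ℝ × ℤ in xg P K, 0 ≤ oz P a c p := by
  have h := (qg_cen P K a c).eventually (p := fun q : ℕ × ℤ => 0 ≤ q.2) (by
    filter_upwards [cen_dev (|K| / ww P + 1), (Pool.Agent.R468.LL.cen_sqrt (|K| / ww P + 1)).eventually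
      (eventually_ge_atTop |(|K| / ww P + 1)|)] with p g1 g2
    have g3 := (abs_le.1 g1).1
    have g4 : (|K| / ww P + 1) * Real.sqrt p.1 ≤ |(|K| / ww P + 1)| * Real.sqrt p.1 :=
      mul_le_mul_of_nonneg_right (le_abs_self _) (Real.sqrt_nonneg _)
    have g5 : Real.sqrt p.1 * Real.sqrt p.1 = p.1 := Real.mul_self_sqrt (Nat.cast_nonneg _)
    have g6 : |(|K| / ww P + 1)| * Real.sqrt p.1 ≤ Real.sqrt p.1 * Real.sqrt p.1 :=
      mul_le_mul_of_nonneg_right g2 (Real.sqrt_nonneg _)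
    have g7 : (0 : ℝ) ≤ p.2 := by linarith
    exact_mod_cast g7)
  exact h

variable {d} {F}

/-- the sandwich -/
theorem sandwich (hd : Odd d) (hd3 : IsCoprime d 3) {Y : ℕ} {r : ℝ} {u δ : ℤ → ℝ} (L : Lvl d F Y r u δ)
    (K : ℝ) {ε : ℝ} (hε : 0 < ε) :
    ∀ᶠ p : ℝ × ℤ in xg P K,
      UY P d F u Y (-r) (sv P p) * Est P p - ε ≤ Real.sqrt (Real.log p.1) / p.1 * FC P d F p.1 p.2 ∧
      Real.sqrt (Real.log p.1) / p.1 * FC P d F p.1 p.2 ≤ UY P d F u Y r (sv P p) * Est P p + ε := by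
  classical
  have hlim : ∀ (g : ℤ) (c : ℝ), Tendsto (fun p : ℝ × ℤ => Real.sqrt (Real.log p.1) / p.1 *
      Sl P (NN d (FY Y) g) (qg P (st P d F g) c p)
      - Real.sqrt (lam / 2) * Real.exp c * ph (ww P) (-zt P (st P d F g) c p) * (u g / (1 - qr P)) * Est P p)
      (xg P K) (𝓝 0) := by
    intro g c
    obtain ⟨C, hC, hrec⟩ := MM_rec hd hd3 (FY Y) g
    exact one_limL P (N := fun k o => NN d (FY Y) g k o) (L.u0 g) (fun k o => (hrec.1 k o).1)
      (fun k o => (hrec.1 k o).2) (fun k o h => MM_supp d h) (L.loc g) (st P d F g) c K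
  have hsumlim : ∀ c : ℤ → ℝ, Tendsto (fun p : ℝ × ℤ => ∑ g ∈ GG d F Y, (Real.sqrt (Real.log p.1) / p.1 *
      Sl P (NN d (FY Y) g) (qg P (st P d F g) (c g) p)
      - Real.sqrt (lam / 2) * Real.exp (c g) * ph (ww P) (-zt P (st P d F g) (c g) p) * (u g / (1 - qr P)) *
        Est P p)) (xg P K) (𝓝 0) := by
    intro c
    have := tendsto_finsetSum (GG d F Y) (fun g _ => hlim g (c g))
    rwa [sum_const_zero] at this
  have hU : ∀ (ρ : ℝ) (p : ℝ × ℤ), ∑ g ∈ GG d F Y, Real.sqrt (lam / 2) * Real.exp (-Real.log g + ρ) *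
      ph (ww P) (-zt P (st P d F g) (-Real.log g + ρ) p) * (u g / (1 - qr P)) * Est P p =
      UY P d F u Y ρ (sv P p) * Est P p := by
    intro ρ p
    unfold UY
    rw [sum_mul]
    apply sum_congr rfl
    intro g _
    rw [ph_zt, Real.exp_add]
    unfold bw
    ring
  have hup := hsumlim (fun g => -Real.log g + r)
  have hlo := hsumlim (fun g => -Real.log g + -r)
  have hz : ∀ᶠ p : ℝ × ℤ in xg P K, ∀ g ∈ GG d F Y, 0 ≤ kz P (st P d F g) (-Real.log g - r) p ∧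
      0 ≤ kz P (st P d F g) (-Real.log g + r) p ∧ 0 ≤ oz P (st P d F g) (-Real.log g + r) p := by
    rw [Filter.eventually_all_finset]
    intro g _
    filter_upwards [kz_ge P K (st P d F g) (-Real.log g - r), kz_ge P K (st P d F g) (-Real.log g + r),
      oz_ge P K (st P d F g) (-Real.log g + r), (xg_log P K).eventually (eventually_ge_atTop 0)]
      with p h1 h2 h3 h4
    refine ⟨?_, ?_, h3⟩
    · have : (0 : ℝ) ≤ kz P (st P d F g) (-Real.log g - r) p := by linarith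
      exact_mod_cast this
    · have : (0 : ℝ) ≤ kz P (st P d F g) (-Real.log g + r) p := by linarith
      exact_mod_cast this
  filter_upwards [(Metric.tendsto_nhds.1 hup) ε hε, (Metric.tendsto_nhds.1 hlo) ε hε, hz,
    (xg_fst P K).eventually (eventually_ge_atTop 1), (xg_log P K).eventually (eventually_ge_atTop 0)]
    with p h1 h2 h3 h4 h5
  rw [Real.dist_eq, sub_zero, sum_sub_distrib, hU] at h1 h2
  have hw : 0 ≤ Real.sqrt (Real.log p.1) / p.1 := div_nonneg (Real.sqrt_nonneg _) (by linarith)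
  rw [split_count P L.sub L.Yd, mul_sum]
  constructor
  · have h6 : ∑ g ∈ GG d F Y, Real.sqrt (Real.log p.1) / p.1 *
        Sl P (NN d (FY Y) g) (qg P (st P d F g) (-Real.log g + -r) p) ≤
        ∑ g ∈ GG d F Y, Real.sqrt (Real.log p.1) / p.1 * FG P d Y g p.1 (p.2 - st P d F g) := by
      apply sum_le_sum
      intro g hg
      apply mul_le_mul_of_nonneg_left _ hw
      have := (FG_bounds P hd hd3 L.hit g (st P d F g) p.2 h4).2 (h3 g hg).1
      rwa [sub_eq_add_neg (-Real.log (g : ℝ)) r] at this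
    linarith [(abs_lt.1 h2).1]
  · have h6 : ∑ g ∈ GG d F Y, Real.sqrt (Real.log p.1) / p.1 * FG P d Y g p.1 (p.2 - st P d F g) ≤
        ∑ g ∈ GG d F Y, Real.sqrt (Real.log p.1) / p.1 *
        Sl P (NN d (FY Y) g) (qg P (st P d F g) (-Real.log g + r) p) := by
      apply sum_le_sum
      intro g hg
      apply mul_le_mul_of_nonneg_left _ hw
      exact (FG_bounds P hd hd3 L.hit g (st P d F g) p.2 h4).1 (h3 g hg).2.1 (h3 g hg).2.2
    linarith [(abs_lt.1 h1).2]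

end Pool.Agent.R468.GL
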