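import Pool.Agent.R468.GL.Main

/-!
General local limit law, part 12: the final form for both signs.
-/

set_option autoImplicit false

namespace Pool.Agent.R468.GL

open Filter Topology Finset
open Pool.Agent.H499R2.LT
open Pool.Agent.H499R2.ND (Td HD G pos mem_pos Dn Td_side HD_ncard cop_of_not_dvd side_odd side_cop)
open Pool.Agent.R468.LL (lam lam_eq lam_pos lam_lt mem_FY hd_nn)

theorem dn_of_hd {R : Set ℤ} {l : ℝ} (hl : HD 1 R l) : Dn (fun n : ℕ => (n : ℤ) ∈ R) l := by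
  refine (HD_ncard (Or.inl rfl) hl).congr fun N => ?_
  unfold Pool.Agent.H499R2.ND.cnt
  congr 2
  have : {n : ℤ | 0 < 1 * n ∧ 1 * n ≤ N ∧ n ∈ R}
      = (fun n : ℕ => (n : ℤ)) '' {n : ℕ | 1 ≤ n ∧ n ≤ N ∧ (n : ℤ) ∈ R} := by
    ext x
    rw [Set.mem_image]
    constructor
    · rintro ⟨h1, h2, h3⟩
      refine ⟨x.toNat, ⟨by omega, by omega, ?_⟩, by omega⟩
      rw [Int.toNat_of_nonneg (by omega)]; exact h3
    · rintro ⟨n, ⟨h1, h2, h3⟩, rfl⟩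
      exact ⟨by omega, by omega, h3⟩
  rw [this, Set.ncard_image_of_injective _ Nat.cast_injective]

variable (P : Par)

/-- the integers `n ≥ 1` such that the orbit of `s n` meets `F`, with value `j` of the statistic at
the first time -/
def Lv (d s : ℤ) (F : Finset ℤ) (j : ℤ) : Set ℕ :=
  {n : ℕ | 1 ≤ n ∧ ∃ k : ℕ, ((Td d)^[k] (s * n) ∈ F ∧ ∀ i < k, (Td d)^[i] (s * n) ∉ F) ∧
    P.α * od d k (s * n) + P.β * k = j}

theorem mem_Lv {d : ℤ} (hd : Odd d) {s : ℤ} (hs : s = 1 ∨ s = -1) (F : Finset ℤ) (j : ℤ) (n : ℕ) :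
    n ∈ Lv P d s F j ↔ 1 ≤ n ∧ ((n : ℤ) ∈ RR (s * d) (F.image (fun a => s * a)) ∧
      st P (s * d) (F.image (fun a => s * a)) n = j) := by
  unfold Lv
  rw [Set.mem_ofPred_eq]
  apply and_congr_right
  intro _
  constructor
  · rintro ⟨k, ⟨h1, h2⟩, h3⟩
    have h1' := (hit_side hd hs F k n).2 h1
    have h2' : ∀ i < k, (Td (s * d))^[i] (n : ℤ) ∉ F.image (fun a => s * a) :=
      fun i hi hc => h2 i hi ((hit_side hd hs F i n).1 hc)
    refine ⟨⟨k, h1'⟩, ?_⟩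
    unfold st ho
    rw [ht_eq h1' h2', od_side hd hs]
    exact h3
  · rintro ⟨h1, h2⟩
    obtain ⟨g1, g2⟩ := ht_spec h1
    refine ⟨ht (s * d) (F.image (fun a => s * a)) n, ⟨(hit_side hd hs F _ n).1 g1,
      fun i hi hc => g2 i hi ((hit_side hd hs F i n).2 hc)⟩, ?_⟩
    unfold st ho at h2
    rw [od_side hd hs] at h2
    exact h2

theorem ncard_Lv {d : ℤ} (hd : Odd d) {s : ℤ} (hs : s = 1 ∨ s = -1) (F : Finset ℤ) (x : ℝ) (j : ℤ) :
    ({n : ℕ | (n : ℝ) ≤ x ∧ n ∈ Lv P d s F j}.ncard : ℝ) =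
      FC P (s * d) (F.image (fun a => s * a)) x j := by
  classical
  unfold FC
  have h1 : (fun n : ℕ => (n : ℤ)) '' {n : ℕ | (n : ℝ) ≤ x ∧ n ∈ Lv P d s F j} =
      (((Icc (1 : ℤ) ⌊x⌋).filter (fun n => n ∈ RR (s * d) (F.image (fun a => s * a)) ∧
        st P (s * d) (F.image (fun a => s * a)) n = j) : Finset ℤ) : Set ℤ) := by
    ext z
    rw [Set.mem_image, mem_coe, mem_filter, mem_Icc, Int.le_floor]
    constructor
    · rintro ⟨n, ⟨g1, g2⟩, rfl⟩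
      rw [mem_Lv P hd hs] at g2
      exact ⟨⟨by exact_mod_cast g2.1, by exact_mod_cast g1⟩, g2.2⟩
    · rintro ⟨⟨g1, g2⟩, g3⟩
      have hz : ((z.toNat : ℕ) : ℤ) = z := Int.toNat_of_nonneg (by omega)
      refine ⟨z.toNat, ⟨?_, ?_⟩, hz⟩
      · have : ((z.toNat : ℕ) : ℝ) = z := by exact_mod_cast hz
        rw [this]; exact g2
      · rw [mem_Lv P hd hs, hz]
        exact ⟨by omega, g3⟩
  rw [← Set.ncard_image_of_injective _ (Nat.cast_injective (R := ℤ)), h1, Set.ncard_coe_finset]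

theorem ncard_Lv_odd {d : ℤ} (hd : Odd d) {s : ℤ} (hs : s = 1 ∨ s = -1) (F : Finset ℤ) (x : ℝ) (j : ℤ) :
    ({n : ℕ | (n : ℝ) ≤ x ∧ n % 2 = 1 ∧ n ∈ Lv P d s F j}.ncard : ℝ) =
      FO P (s * d) (F.image (fun a => s * a)) x j := by
  classical
  unfold FO
  have h1 : (fun n : ℕ => (n : ℤ)) '' {n : ℕ | (n : ℝ) ≤ x ∧ n % 2 = 1 ∧ n ∈ Lv P d s F j} =
      (((Icc (1 : ℤ) ⌊x⌋).filter (fun n => n % 2 = 1 ∧ n ∈ RR (s * d) (F.image (fun a => s * a)) ∧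
        st P (s * d) (F.image (fun a => s * a)) n = j) : Finset ℤ) : Set ℤ) := by
    ext z
    rw [Set.mem_image, mem_coe, mem_filter, mem_Icc, Int.le_floor]
    constructor
    · rintro ⟨n, ⟨g1, g0, g2⟩, rfl⟩
      rw [mem_Lv P hd hs] at g2
      exact ⟨⟨by exact_mod_cast g2.1, by exact_mod_cast g1⟩, by exact_mod_cast g0, g2.2⟩
    · rintro ⟨⟨g1, g2⟩, g0, g3⟩
      have hz : ((z.toNat : ℕ) : ℤ) = z := Int.toNat_of_nonneg (by omega)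
      refine ⟨z.toNat, ⟨?_, by omega, ?_⟩, hz⟩
      · have : ((z.toNat : ℕ) : ℝ) = z := by exact_mod_cast hz
        rw [this]; exact g2
      · rw [mem_Lv P hd hs, hz]
        exact ⟨by omega, g3⟩
  rw [← Set.ncard_image_of_injective _ (Nat.cast_injective (R := ℤ)), h1, Set.ncard_coe_finset]

/-- THE LOCAL LIMIT LAW, both signs -/
theorem main_side {d : ℤ} (hd : Odd d) (hd3 : ¬ (3 : ℤ) ∣ d) {s : ℤ} (hs : s = 1 ∨ s = -1) (F : Finset ℤ) :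
    ∃ (δ : ℝ) (Ψ : ℝ → ℝ), 0 ≤ δ ∧ ((∃ a ∈ F, 0 < s * a ∧ ¬ (3 : ℤ) ∣ a) → 0 < δ) ∧
    Dn (fun n : ℕ => ∃ k : ℕ, (Td d)^[k] (s * n) ∈ F) δ ∧
    Continuous Ψ ∧ (∀ t, Ψ (t + 1) = Ψ t) ∧
    (∀ t, δ * (ww P * qr P / (1 - qr P)) ≤ Ψ t ∧ Ψ t ≤ δ * (ww P / (1 - qr P))) ∧
    (∫ t in (0 : ℝ)..1, Ψ t = δ) ∧
    (∀ K ε : ℝ, 0 < ε → ∃ X₀ : ℝ, 2 ≤ X₀ ∧ ∀ x : ℝ, X₀ ≤ x → ∀ j : ℤ,
      |(j : ℝ) - A0 P / lam * Real.log x| ≤ K * Real.sqrt (Real.log x) →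
      |({n : ℕ | (n : ℝ) ≤ x ∧ n ∈ Lv P d s F j}.ncard : ℝ) / (x * gd P x j) - Ψ (sv P (x, j))| ≤ ε) ∧
    (∀ K ε : ℝ, 0 < ε → ∃ X₀ : ℝ, 2 ≤ X₀ ∧ ∀ x : ℝ, X₀ ≤ x → ∀ j : ℤ,
      |(j : ℝ) - A0 P / lam * Real.log x| ≤ K * Real.sqrt (Real.log x) →
      |({n : ℕ | (n : ℝ) ≤ x ∧ n % 2 = 1 ∧ n ∈ Lv P d s F j}.ncard : ℝ) / (x / 2 * gd P x j) -
        Ψ (sv P (x, j))| ≤ ε) := by
  have hw := ww_pos P
  have hcst := cst_pos P
  have hq := oq_pos P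
  have hq0 := qr_pos P
  obtain ⟨D, U, hD, hU1, hU2, hU3, hU4, hU5⟩ := profile P (side_odd hd hs) (side_cop (cop_of_not_dvd hd3) hs)
    (F.image (fun a => s * a))
  obtain ⟨δ, h0, h1, h2, _⟩ := joint_side hd hd3 hs F
  have hDδ : D = δ := by
    have h3 : Dn (fun n : ℕ => ∃ k : ℕ, (Td d)^[k] (s * n) ∈ F) D := by
      refine Dn_iff (fun n _ => ?_) (dn_of_hd hD)
      unfold RR
      rw [Set.mem_ofPred_eq]
      exact exists_congr fun k => hit_side hd hs F k n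
    unfold Dn at h3 h2
    exact tendsto_nhds_unique h3 h2
  subst hDδ
  set c : ℝ := ww P / (cst P * (1 - qr P)) with hc
  have hc0 : 0 < c := by positivity
  have hUB : ∀ s, |U s| ≤ cst P * D := by
    intro s
    obtain ⟨a, b⟩ := hU3 s
    rw [abs_of_nonneg (le_trans (by positivity) a)]
    exact b
  refine ⟨D, fun t => c * U t, h0, h1, h2, continuous_const.mul hU1, ?_, ?_, ?_, ?_, ?_⟩
  · intro t
    simp only [hU2]
  · intro t
    obtain ⟨a, b⟩ := hU3 t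
    constructor
    · have h4 := mul_le_mul_of_nonneg_left a hc0.le
      refine le_trans (le_of_eq ?_) h4
      rw [hc]; field_simp
    · have h4 := mul_le_mul_of_nonneg_left b hc0.le
      refine h4.trans (le_of_eq ?_)
      rw [hc]; field_simp
  · rw [intervalIntegral.integral_const_mul, hU4, hc]
    field_simp
  · intro K ε hε
    have h5 : Tendsto (fun p : ℝ × ℤ => Real.sqrt (Real.log p.1) / p.1 *
        ({n : ℕ | (n : ℝ) ≤ p.1 ∧ n ∈ Lv P d s F p.2}.ncard : ℝ) -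
        1 * (U (sv P p) * Est P p)) (xg P (K * lam)) (𝓝 0) := by
      refine (hU5 (K * lam)).congr fun p => ?_
      rw [ncard_Lv P hd hs, one_mul]
    obtain ⟨X₀, hX0, hX⟩ := to_quot P (FN := fun x j => ({n : ℕ | (n : ℝ) ≤ x ∧ n ∈ Lv P d s F j}.ncard : ℝ))
      (U := U) one_pos K h5 hε
    refine ⟨X₀, hX0, fun x hx j hj => ?_⟩
    have := hX x hx j hj
    rwa [one_mul] at this
  · intro K ε hε
    have h5 : Tendsto (fun p : ℝ × ℤ => Real.sqrt (Real.log p.1) / p.1 *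
        ({n : ℕ | (n : ℝ) ≤ p.1 ∧ n % 2 = 1 ∧ n ∈ Lv P d s F p.2}.ncard : ℝ) -
        1 / 2 * (U (sv P p) * Est P p)) (xg P (K * lam)) (𝓝 0) := by
      refine (FO_lim P hUB hU2 hU5 (K * lam)).congr fun p => ?_
      rw [ncard_Lv_odd P hd hs]
    obtain ⟨X₀, hX0, hX⟩ := to_quot P
      (FN := fun x j => ({n : ℕ | (n : ℝ) ≤ x ∧ n % 2 = 1 ∧ n ∈ Lv P d s F j}.ncard : ℝ))
      (U := U) (show (0 : ℝ) < 1 / 2 by norm_num) K h5 hε
    refine ⟨X₀, hX0, fun x hx j hj => ?_⟩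
    have := hX x hx j hj
    rwa [show 1 / 2 * x = x / 2 by ring] at this

end Pool.Agent.R468.GL
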